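import Mathlib

/-!
# A lower bound for the `p`-adic norm of sums in an imaginary quadratic field
-/

set_option autoImplicit false

namespace LSY

/-- a positive integer `m` has norm at least `1 / m` -/
lemma norm_nat_ge (p : ℕ) [Fact p.Prime] (m : ℕ) (hm : 0 < m) : 1 / (m : ℝ) ≤ ‖(m : ℚ_[p])‖ := by
  have hp : p.Prime := Fact.out
  have h1 : ‖(m : ℚ_[p])‖ = (p : ℝ) ^ (-(padicValNat p m : ℤ)) := by
    rw [Padic.norm_eq_zpow_neg_valuation (by exact_mod_cast hm.ne')]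
    rw [Padic.valuation_natCast]
  rw [h1, zpow_neg, zpow_natCast, one_div]
  have h2 : (0 : ℝ) < (p : ℝ) ^ (padicValNat p m) := by
    have : (0 : ℝ) < p := by exact_mod_cast hp.pos
    positivity
  apply inv_anti₀ h2
  have h3 : p ^ (padicValNat p m) ≤ m := Nat.le_of_dvd hm pow_padicValNat_dvd
  exact_mod_cast h3

/-- common denominators -/
lemma exists_den (P : Set (ℚ × ℚ)) (hP : P.Finite) : ∃ b : ℕ, 0 < b ∧
    ∀ q ∈ P, (∃ m : ℤ, (b : ℚ) * q.1 = m) ∧ ∃ m : ℤ, (b : ℚ) * q.2 = m := by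
  induction P, hP using Set.Finite.induction_on with
  | empty => exact ⟨1, one_pos, by simp⟩
  | @insert a P ha hP ih =>
    obtain ⟨b, hb, h⟩ := ih
    refine ⟨b * (a.1.den * a.2.den), by have := a.1.den_pos; have := a.2.den_pos; positivity, ?_⟩
    intro q hq
    rcases hq with rfl | hq
    · constructor
      · refine ⟨b * q.2.den * q.1.num, ?_⟩
        have h1 : (q.1.den : ℚ) * q.1 = q.1.num := Rat.den_mul_eq_num q.1
        push_cast
        calc (b : ℚ) * (q.1.den * q.2.den) * q.1 = b * q.2.den * (q.1.den * q.1) := by ring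
          _ = _ := by rw [h1]
      · refine ⟨b * q.1.den * q.2.num, ?_⟩
        have h1 : (q.2.den : ℚ) * q.2 = q.2.num := Rat.den_mul_eq_num q.2
        push_cast
        calc (b : ℚ) * (q.1.den * q.2.den) * q.2 = b * q.1.den * (q.2.den * q.2) := by ring
          _ = _ := by rw [h1]
    · obtain ⟨⟨m1, h1⟩, m2, h2⟩ := h q hq
      constructor
      · refine ⟨m1 * (a.1.den * a.2.den), ?_⟩
        push_cast
        rw [← h1]
        ring
      · refine ⟨m2 * (a.1.den * a.2.den), ?_⟩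
        push_cast
        rw [← h2]
        ring

/-- the value at `ϖ` of the pair `q` -/
noncomputable def ev {p : ℕ} [Fact p.Prime] (ϖ : ℚ_[p]) (q : ℚ × ℚ) : ℚ_[p] :=
  (q.1 : ℚ_[p]) + (q.2 : ℚ_[p]) * ϖ

lemma sum_ev {p : ℕ} [Fact p.Prime] (ϖ : ℚ_[p]) (l : List (ℚ × ℚ)) :
    (l.map (ev ϖ)).sum = (((l.map Prod.fst).sum : ℚ) : ℚ_[p]) +
      (((l.map Prod.snd).sum : ℚ) : ℚ_[p]) * ϖ := by
  induction l with
  | nil => simp
  | cons a l ih =>
    rw [List.map_cons, List.sum_cons, ih, List.map_cons, List.sum_cons, List.map_cons,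
      List.sum_cons]
    unfold ev
    push_cast
    ring

lemma sum_int (b : ℕ) (l : List ℚ) (h : ∀ q ∈ l, ∃ m : ℤ, (b : ℚ) * q = m) :
    ∃ m : ℤ, (b : ℚ) * l.sum = m := by
  induction l with
  | nil => exact ⟨0, by simp⟩
  | cons a l ih =>
    obtain ⟨m, hm⟩ := ih fun q hq => h q (List.mem_cons_of_mem _ hq)
    obtain ⟨m', hm'⟩ := h a List.mem_cons_self
    refine ⟨m' + m, ?_⟩
    rw [List.sum_cons, mul_add, hm, hm']
    push_cast
    rfl

lemma sum_abs (M : ℚ) (l : List ℚ) (h : ∀ q ∈ l, |q| ≤ M) : |l.sum| ≤ M * l.length := by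
  induction l with
  | nil => simp
  | cons a l ih =>
    have h1 := ih fun q hq => h q (List.mem_cons_of_mem _ hq)
    have h2 := h a List.mem_cons_self
    rw [List.sum_cons, List.length_cons]
    push_cast
    calc |a + l.sum| ≤ |a| + |l.sum| := abs_add_le _ _
      _ ≤ M * (l.length + 1) := by linarith

lemma sum_norm {p : ℕ} [Fact p.Prime] (R : ℝ) (hR : 0 ≤ R) (l : List ℚ)
    (h : ∀ q ∈ l, ‖(q : ℚ_[p])‖ ≤ R) : ‖((l.sum : ℚ) : ℚ_[p])‖ ≤ R := by
  induction l with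
  | nil => simpa using hR
  | cons a l ih =>
    have h1 := ih fun q hq => h q (List.mem_cons_of_mem _ hq)
    have h2 := h a List.mem_cons_self
    rw [List.sum_cons, Rat.cast_add]
    exact (Padic.nonarchimedean _ _).trans (max_le h2 h1)

lemma exists_bound {ι : Type*} (P : Set ι) (hP : P.Finite) (f : ι → ℝ) : ∃ R : ℝ, 1 ≤ R ∧
    ∀ q ∈ P, f q ≤ R := by
  obtain ⟨R, hR⟩ := (hP.image f).bddAbove
  refine ⟨max 1 R, le_max_left _ _, fun q hq => ?_⟩
  exact (hR ⟨q, hq, rfl⟩).trans (le_max_right _ _)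

lemma exists_bound_q {ι : Type*} (P : Set ι) (hP : P.Finite) (f : ι → ℚ) : ∃ R : ℚ, 1 ≤ R ∧
    ∀ q ∈ P, f q ≤ R := by
  obtain ⟨R, hR⟩ := (hP.image f).bddAbove
  refine ⟨max 1 R, le_max_left _ _, fun q hq => ?_⟩
  exact (hR ⟨q, hq, rfl⟩).trans (le_max_right _ _)

/-- the lower bound -/
theorem liou {p : ℕ} [Fact p.Prime] (ϖ : ℚ_[p]) (E : ℚ) (hE : 0 < E)
    (hϖ : ϖ ^ 2 = -(E : ℚ_[p])) (t : ℚ) (ht : t ≠ 0) (P : Set (ℚ × ℚ)) (hP : P.Finite) :
    ∃ C1 C2 : ℝ, 0 < C1 ∧ 0 < C2 ∧ ∀ (l : List (ℚ × ℚ)) (N : ℕ), 1 ≤ N → (∀ q ∈ l, q ∈ P) →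
      C1 * l.length ≤ N → l.length ≤ N →
      1 / (C2 * (N : ℝ) ^ 2) ≤ ‖(N : ℚ_[p]) * ((t : ℚ_[p]) * ϖ) + (l.map (ev ϖ)).sum‖ := by
  obtain ⟨b, hb, hden⟩ := exists_den (insert (t, t) P) (hP.insert _)
  obtain ⟨M, hM1, hM⟩ := exists_bound_q P hP (fun q => max |q.1| |q.2|)
  obtain ⟨R, hR1, hR⟩ := exists_bound (insert (t, t) P) (hP.insert _)
    (fun q => max ‖(q.1 : ℚ_[p])‖ ‖(q.2 : ℚ_[p])‖)
  have hM0 : 0 < M := by linarith
  have ht0 : 0 < |t| := abs_pos.2 ht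
  set Kc : ℚ := (b : ℚ) ^ 2 * E.den * (M ^ 2 + E * (|t| + M) ^ 2) with hKc
  have hbq : (0 : ℚ) < b := by exact_mod_cast hb
  have hEd : (0 : ℚ) < E.den := by exact_mod_cast E.den_pos
  have hKc0 : 0 < Kc := by
    rw [hKc]
    positivity
  set R' : ℝ := R * (1 + ‖ϖ‖) with hR'
  have hR'0 : 0 < R' := by
    have := norm_nonneg ϖ
    rw [hR']
    positivity
  refine ⟨2 * (M : ℝ) / |(t : ℝ)|, (Kc : ℝ) * R', ?_, ?_, ?_⟩
  · have h1 : (0 : ℝ) < M := by exact_mod_cast hM0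
    have h2 : (0 : ℝ) < |(t : ℝ)| := abs_pos.2 (by exact_mod_cast ht)
    positivity
  · have h1 : (0 : ℝ) < Kc := by exact_mod_cast hKc0
    positivity
  · intro l N hN hl hC hlN
    set X : ℚ := (l.map Prod.fst).sum with hX
    set Y0 : ℚ := (l.map Prod.snd).sum with hY0
    set Y : ℚ := N * t + Y0 with hY
    have hZ : (N : ℚ_[p]) * ((t : ℚ_[p]) * ϖ) + (l.map (ev ϖ)).sum =
        (X : ℚ_[p]) + (Y : ℚ_[p]) * ϖ := by
      rw [sum_ev, ← hX, ← hY0, hY]
      push_cast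
      ring
    have hN0 : (0 : ℚ) < N := by exact_mod_cast hN
    have hlq : ((l.length : ℕ) : ℚ) ≤ N := by exact_mod_cast hlN
    -- the rational data
    have hXabs : |X| ≤ M * N := by
      refine (sum_abs M _ ?_).trans ?_
      · intro q hq
        obtain ⟨q', hq', rfl⟩ := List.mem_map.1 hq
        exact (le_max_left _ _).trans (hM q' (hl q' hq'))
      · rw [List.length_map]
        exact mul_le_mul_of_nonneg_left hlq hM0.le
    have hY0abs : |Y0| ≤ M * l.length := by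
      refine (sum_abs M _ ?_).trans ?_
      · intro q hq
        obtain ⟨q', hq', rfl⟩ := List.mem_map.1 hq
        exact (le_max_right _ _).trans (hM q' (hl q' hq'))
      · rw [List.length_map]
    have hCq : M * l.length ≤ N * |t| / 2 := by
      have h1 : (0 : ℝ) < |(t : ℝ)| := abs_pos.2 (by exact_mod_cast ht)
      have h2 : 2 * (M : ℝ) * l.length ≤ N * |(t : ℝ)| := by
        have h3 : 2 * (M : ℝ) / |(t : ℝ)| * l.length * |(t : ℝ)| ≤ N * |(t : ℝ)| :=
          mul_le_mul_of_nonneg_right hC h1.le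
        have h4 : 2 * (M : ℝ) / |(t : ℝ)| * l.length * |(t : ℝ)| = 2 * (M : ℝ) * l.length := by
          field_simp
        rw [h4] at h3
        exact h3
      have h5 : ((2 * M * l.length : ℚ) : ℝ) ≤ ((N * |t| : ℚ) : ℝ) := by
        push_cast
        exact h2
      have h6 : 2 * M * l.length ≤ N * |t| := by exact_mod_cast h5
      linarith
    have hYlow : 0 < |Y| := by
      have h1 : |(N : ℚ) * t| ≤ |Y| + |Y0| := by
        have : (N : ℚ) * t = Y - Y0 := by rw [hY]; ring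
        rw [this]
        exact abs_sub _ _
      rw [abs_mul, abs_of_pos hN0] at h1
      have h2 : 0 < (N : ℚ) * |t| := mul_pos hN0 ht0
      linarith
    have hYup : |Y| ≤ (|t| + M) * N := by
      have h1 : |Y| ≤ |(N : ℚ) * t| + |Y0| := by
        rw [hY]
        exact abs_add_le _ _
      rw [abs_mul, abs_of_pos hN0] at h1
      have h2 : M * (l.length : ℚ) ≤ M * N := mul_le_mul_of_nonneg_left hlq hM0.le
      linarith
    set r : ℚ := X ^ 2 + E * Y ^ 2 with hr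
    have hr0 : 0 < r := by
      have h1 : 0 < Y ^ 2 := by
        rw [← sq_abs]
        positivity
      have h2 : 0 < E * Y ^ 2 := mul_pos hE h1
      have h3 := sq_nonneg X
      rw [hr]
      linarith
    -- an integer
    have hint : ∃ m : ℕ, 0 < m ∧ (b : ℚ) ^ 2 * E.den * r = m := by
      obtain ⟨mX, hmX⟩ := sum_int b (l.map Prod.fst) (by
        intro q hq
        obtain ⟨q', hq', rfl⟩ := List.mem_map.1 hq
        exact (hden q' (Set.mem_insert_of_mem _ (hl q' hq'))).1)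
      obtain ⟨mY, hmY⟩ := sum_int b (l.map Prod.snd) (by
        intro q hq
        obtain ⟨q', hq', rfl⟩ := List.mem_map.1 hq
        exact (hden q' (Set.mem_insert_of_mem _ (hl q' hq'))).2)
      obtain ⟨mt, hmt⟩ := (hden (t, t) (Set.mem_insert _ _)).1
      rw [← hX] at hmX
      rw [← hY0] at hmY
      simp only at hmt
      have hmYt : (b : ℚ) * Y = ((N * mt + mY : ℤ) : ℚ) := by
        rw [hY]
        push_cast
        rw [← hmt, ← hmY]
        ring
      have hE1 : (E.den : ℚ) * E = E.num := Rat.den_mul_eq_num E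
      have h1 : (b : ℚ) ^ 2 * E.den * r =
          ((E.den * mX ^ 2 + E.num * (N * mt + mY) ^ 2 : ℤ) : ℚ) := by
        push_cast
        push_cast at hmYt
        rw [← hmX, ← hmYt, ← hE1, hr]
        ring
      have h2 : (0 : ℚ) < ((E.den * mX ^ 2 + E.num * (N * mt + mY) ^ 2 : ℤ) : ℚ) := by
        rw [← h1]
        positivity
      have h3 : 0 < E.den * mX ^ 2 + E.num * (N * mt + mY) ^ 2 := by exact_mod_cast h2
      obtain ⟨m, hm⟩ := Int.eq_ofNat_of_zero_le h3.le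
      refine ⟨m, ?_, ?_⟩
      · rw [hm] at h3
        exact_mod_cast h3
      · rw [h1, hm]
        push_cast
        rfl
    obtain ⟨m, hm0, hm⟩ := hint
    have hmup : (m : ℚ) ≤ Kc * N ^ 2 := by
      rw [← hm, hKc, hr]
      have h1 : X ^ 2 ≤ (M * N) ^ 2 := by
        rw [← sq_abs X]
        exact pow_le_pow_left₀ (abs_nonneg _) hXabs 2
      have h2 : Y ^ 2 ≤ ((|t| + M) * N) ^ 2 := by
        rw [← sq_abs Y]
        exact pow_le_pow_left₀ (abs_nonneg _) hYup 2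
      have h3 : X ^ 2 + E * Y ^ 2 ≤ (M * N) ^ 2 + E * ((|t| + M) * N) ^ 2 := by
        have := mul_le_mul_of_nonneg_left h2 hE.le
        linarith
      calc (b : ℚ) ^ 2 * E.den * (X ^ 2 + E * Y ^ 2)
          ≤ (b : ℚ) ^ 2 * E.den * ((M * N) ^ 2 + E * ((|t| + M) * N) ^ 2) :=
            mul_le_mul_of_nonneg_left h3 (by positivity)
        _ = _ := by ring
    -- the p-adic part
    have hprod : ((X : ℚ_[p]) + (Y : ℚ_[p]) * ϖ) * ((X : ℚ_[p]) - (Y : ℚ_[p]) * ϖ) = (r : ℚ_[p]) := by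
      rw [hr]
      push_cast
      linear_combination (-(Y : ℚ_[p]) ^ 2) * hϖ
    have hconj : ‖(X : ℚ_[p]) - (Y : ℚ_[p]) * ϖ‖ ≤ R' := by
      have h1 : ‖(X : ℚ_[p])‖ ≤ R := by
        refine sum_norm R (by linarith) _ ?_
        intro q hq
        obtain ⟨q', hq', rfl⟩ := List.mem_map.1 hq
        exact (le_max_left _ _).trans (hR q' (Set.mem_insert_of_mem _ (hl q' hq')))
      have h2 : ‖(Y0 : ℚ_[p])‖ ≤ R := by
        refine sum_norm R (by linarith) _ ?_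
        intro q hq
        obtain ⟨q', hq', rfl⟩ := List.mem_map.1 hq
        exact (le_max_right _ _).trans (hR q' (Set.mem_insert_of_mem _ (hl q' hq')))
      have h3 : ‖(Y : ℚ_[p])‖ ≤ R := by
        rw [hY]
        push_cast
        refine (Padic.nonarchimedean _ _).trans (max_le ?_ h2)
        rw [norm_mul]
        have h4 : ‖(t : ℚ_[p])‖ ≤ R := (le_max_left _ _).trans (hR (t, t) (Set.mem_insert _ _))
        have h5 : ‖(N : ℚ_[p])‖ ≤ 1 := by
          have := Padic.norm_int_le_one (p := p) (N : ℤ)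
          simpa using this
        calc ‖(N : ℚ_[p])‖ * ‖(t : ℚ_[p])‖ ≤ 1 * R :=
              mul_le_mul h5 h4 (norm_nonneg _) (by norm_num)
          _ = R := one_mul R
      have h6 : ‖(X : ℚ_[p]) - (Y : ℚ_[p]) * ϖ‖ ≤ ‖(X : ℚ_[p])‖ + ‖(Y : ℚ_[p]) * ϖ‖ :=
        norm_sub_le _ _
      rw [norm_mul] at h6
      have h7 : ‖(Y : ℚ_[p])‖ * ‖ϖ‖ ≤ R * ‖ϖ‖ := mul_le_mul_of_nonneg_right h3 (norm_nonneg _)
      rw [hR']
      linarith
    have hmnorm : ‖(m : ℚ_[p])‖ ≤ ‖(r : ℚ_[p])‖ := by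
      have h1 : (m : ℚ_[p]) = ((b ^ 2 * E.den : ℕ) : ℚ_[p]) * (r : ℚ_[p]) := by
        have h2 : (((b : ℚ) ^ 2 * E.den * r : ℚ) : ℚ_[p]) = ((m : ℚ) : ℚ_[p]) := by rw [hm]
        push_cast at h2
        push_cast
        exact h2.symm
      rw [h1, norm_mul]
      have h5 : ‖((b ^ 2 * E.den : ℕ) : ℚ_[p])‖ ≤ 1 := by
        have := Padic.norm_int_le_one (p := p) ((b ^ 2 * E.den : ℕ) : ℤ)
        rwa [Int.cast_natCast] at this
      calc ‖((b ^ 2 * E.den : ℕ) : ℚ_[p])‖ * ‖(r : ℚ_[p])‖ ≤ 1 * ‖(r : ℚ_[p])‖ :=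
            mul_le_mul_of_nonneg_right h5 (norm_nonneg _)
        _ = _ := one_mul _
    have hge := norm_nat_ge p m hm0
    rw [hZ]
    have hfin : ‖(r : ℚ_[p])‖ ≤ ‖(X : ℚ_[p]) + (Y : ℚ_[p]) * ϖ‖ * R' := by
      rw [← hprod, norm_mul]
      exact mul_le_mul_of_nonneg_left hconj (norm_nonneg _)
    have hmr : (0 : ℝ) < m := by exact_mod_cast hm0
    have hmup' : (m : ℝ) ≤ Kc * (N : ℝ) ^ 2 := by exact_mod_cast hmup
    have h8 : 1 / (m : ℝ) ≤ ‖(X : ℚ_[p]) + (Y : ℚ_[p]) * ϖ‖ * R' :=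
      hge.trans (hmnorm.trans hfin)
    have h9 : 1 / ((Kc : ℝ) * (N : ℝ) ^ 2) ≤ 1 / (m : ℝ) := one_div_le_one_div_of_le hmr hmup'
    have h10 : 1 / ((Kc : ℝ) * R' * (N : ℝ) ^ 2) = 1 / ((Kc : ℝ) * (N : ℝ) ^ 2) / R' := by
      rw [div_div]
      congr 1
      ring
    rw [h10, div_le_iff₀ hR'0]
    exact h9.trans h8

end LSY
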