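import Mathlib

/-!
# Proper isometries of `ℚ³` and dual quaternions

`Rep g q q'`: the isometry `g` is represented by the dual quaternion `q + ε q'`.
-/

set_option autoImplicit false

open Quaternion

namespace LSY

/-- The pure quaternion of a vector. -/
def pq (z : Fin 3 → ℚ) : ℍ[ℚ] := ⟨0, z 0, z 1, z 2⟩

/-- the vector of a quaternion -/
def qv (q : ℍ[ℚ]) : Fin 3 → ℚ := ![q.imI, q.imJ, q.imK]

/-- `g` is an orientation preserving isometry of `ℚ³`. -/
def Proper (g : Equiv.Perm (Fin 3 → ℚ)) : Prop :=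
  ∃ A ∈ Matrix.specialOrthogonalGroup (Fin 3) ℚ, ∃ b : Fin 3 → ℚ, ∀ x, g x = A.mulVec x + b

/-- `g (x) q = q x + 2 q'` -/
def Rep (g : Equiv.Perm (Fin 3 → ℚ)) (q q' : ℍ[ℚ]) : Prop :=
  q ≠ 0 ∧ ∀ x, pq (g x) * q = q * pq x + (2 : ℚ) • q'

lemma pq_qv (q : ℍ[ℚ]) (h : q.re = 0) : pq (qv q) = q := by
  ext <;> simp [pq, qv, h]

lemma pq_inj {x y : Fin 3 → ℚ} (h : pq x = pq y) : x = y := by
  have h1 := congrArg (fun q : ℍ[ℚ] => q.imI) h
  have h2 := congrArg (fun q : ℍ[ℚ] => q.imJ) h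
  have h3 := congrArg (fun q : ℍ[ℚ] => q.imK) h
  funext i
  fin_cases i
  · exact h1
  · exact h2
  · exact h3

lemma pq_add (x y : Fin 3 → ℚ) : pq (x + y) = pq x + pq y := by
  ext <;> simp [pq]

lemma pq_zero : pq 0 = 0 := by
  ext <;> simp [pq]

lemma nrm_pos {q : ℍ[ℚ]} (h : q ≠ 0) : 0 < q.re ^ 2 + q.imI ^ 2 + q.imJ ^ 2 + q.imK ^ 2 := by
  by_contra hc
  apply h
  have h1 := sq_nonneg q.re
  have h2 := sq_nonneg q.imI
  have h3 := sq_nonneg q.imJ
  have h4 := sq_nonneg q.imK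
  ext
  · exact pow_eq_zero_iff (two_ne_zero) |>.1 (by linarith)
  · exact pow_eq_zero_iff (two_ne_zero) |>.1 (by linarith)
  · exact pow_eq_zero_iff (two_ne_zero) |>.1 (by linarith)
  · exact pow_eq_zero_iff (two_ne_zero) |>.1 (by linarith)

/-- the norm -/
def nr (q : ℍ[ℚ]) : ℚ := q.re ^ 2 + q.imI ^ 2 + q.imJ ^ 2 + q.imK ^ 2

lemma star_mul_self' (q : ℍ[ℚ]) : star q * q = (nr q) • (1 : ℍ[ℚ]) := by
  ext <;> simp [nr] <;> ring

lemma mul_star_self' (q : ℍ[ℚ]) : q * star q = (nr q) • (1 : ℍ[ℚ]) := by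
  ext <;> simp [nr] <;> ring

lemma mul_left_cancel_q {q a b : ℍ[ℚ]} (h : q ≠ 0) (hab : q * a = q * b) : a = b := by
  have h1 := congrArg (fun z => star q * z) hab
  simp only [← mul_assoc, star_mul_self', smul_mul_assoc, one_mul] at h1
  exact smul_right_injective _ (nrm_pos h).ne' h1

lemma mul_right_cancel_q {q a b : ℍ[ℚ]} (h : q ≠ 0) (hab : a * q = b * q) : a = b := by
  have h1 := congrArg (fun z => z * star q) hab
  simp only [mul_assoc, mul_star_self', mul_smul_comm, mul_one] at h1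
  exact smul_right_injective _ (nrm_pos h).ne' h1

lemma mul_ne_zero_q {a b : ℍ[ℚ]} (ha : a ≠ 0) (hb : b ≠ 0) : a * b ≠ 0 := by
  intro h
  apply hb
  apply mul_left_cancel_q ha
  rw [h, mul_zero]

lemma star_ne_zero_q {a : ℍ[ℚ]} (ha : a ≠ 0) : star a ≠ 0 := by
  intro h
  apply ha
  rw [← star_star a, h, star_zero]

lemma rep_one : Rep 1 1 0 := by
  refine ⟨one_ne_zero, fun x => ?_⟩
  simp

lemma rep_mul {g h : Equiv.Perm (Fin 3 → ℚ)} {p p' q q' : ℍ[ℚ]} (hg : Rep g p p')
    (hh : Rep h q q') : Rep (g * h) (p * q) (p * q' + p' * q) := by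
  refine ⟨mul_ne_zero_q hg.1 hh.1, fun x => ?_⟩
  rw [Equiv.Perm.mul_apply, ← mul_assoc, hg.2, add_mul, mul_assoc, hh.2, mul_add, smul_add,
    smul_mul_assoc, mul_smul_comm, mul_assoc, add_assoc]

/-- `q'` is orthogonal to `q` -/
lemma rep_orth {g : Equiv.Perm (Fin 3 → ℚ)} {q q' : ℍ[ℚ]} (h : Rep g q q') :
    q'.re * q.re + q'.imI * q.imI + q'.imJ * q.imJ + q'.imK * q.imK = 0 := by
  have h1 := h.2 0
  rw [pq_zero, mul_zero, zero_add] at h1
  have h2 : (pq (g 0) * q * star q).re = 0 := by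
    rw [mul_assoc, mul_star_self', mul_smul_comm, mul_one]
    simp [pq]
  rw [h1] at h2
  simp at h2
  linarith

lemma rep_inv {g : Equiv.Perm (Fin 3 → ℚ)} {q q' : ℍ[ℚ]} (h : Rep g q q') :
    Rep g⁻¹ (star q) (star q') := by
  have ho := rep_orth h
  refine ⟨star_ne_zero_q h.1, fun y => ?_⟩
  obtain ⟨x, rfl⟩ := g.surjective y
  have h1 := h.2 x
  have h0 : g⁻¹ (g x) = x := g.symm_apply_apply x
  rw [h0]
  have h2 : star q * (pq (g x) * q) * star q = star q * (q * pq x + (2 : ℚ) • q') * star q := by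
    rw [h1]
  have e1 : star q * (pq (g x) * q) * star q = nr q • (star q * pq (g x)) := by
    rw [mul_assoc, mul_assoc, mul_star_self', mul_smul_comm, mul_smul_comm, mul_one]
  have e2 : star q * (q * pq x + (2 : ℚ) • q') * star q =
      nr q • (pq x * star q) + (2 : ℚ) • (star q * q' * star q) := by
    rw [mul_add, add_mul, ← mul_assoc, star_mul_self', smul_mul_assoc, smul_mul_assoc, one_mul,
      mul_smul_comm, smul_mul_assoc]
  have e3 : star q * q' * star q = - (nr q • star q') := by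
    have e4 : q' * star q = - (q * star q') := by
      ext
      · simp
        linarith
      · simp
        ring
      · simp
        ring
      · simp
        ring
    rw [mul_assoc, e4, mul_neg, ← mul_assoc, star_mul_self', smul_mul_assoc, one_mul]
  rw [e1, e2, e3] at h2
  have h3 : nr q • (pq x * star q) = nr q • (star q * pq (g x) + (2 : ℚ) • star q') := by
    rw [smul_add, h2, smul_neg, smul_comm (2 : ℚ) (nr q)]
    abel
  exact smul_right_injective _ (nrm_pos h.1).ne' h3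

lemma rep_fixed {g : Equiv.Perm (Fin 3 → ℚ)} {q q' : ℍ[ℚ]} (h : Rep g q q') {x : Fin 3 → ℚ}
    (hx : g x = x) : q'.re = 0 := by
  have h1 := congrArg (fun z : ℍ[ℚ] => z.re) (h.2 x)
  rw [hx] at h1
  simp [pq] at h1
  linarith

/-- the vector part of a quaternion -/
def vp (q : ℍ[ℚ]) : ℍ[ℚ] := ⟨0, q.imI, q.imJ, q.imK⟩

lemma rep_exists_fixed {g : Equiv.Perm (Fin 3 → ℚ)} {q q' : ℍ[ℚ]} (h : Rep g q q')
    (hv : vp q ≠ 0) (h0 : q'.re = 0) : ∃ x, g x = x := by
  have hD := nrm_pos hv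
  have ho := rep_orth h
  rw [h0] at ho
  simp only [vp] at hD
  set D : ℚ := q.imI ^ 2 + q.imJ ^ 2 + q.imK ^ 2 with hDdef
  have hD' : 0 < D := by
    rw [hDdef]
    linarith
  refine ⟨qv (D⁻¹ • (vp q * q')), ?_⟩
  apply pq_inj
  apply mul_right_cancel_q h.1
  rw [h.2]
  rw [pq_qv]
  · have e : D • (q * (D⁻¹ • (vp q * q')) + (2 : ℚ) • q') =
        D • ((D⁻¹ • (vp q * q')) * q) := by
      rw [smul_add, mul_smul_comm, smul_mul_assoc, smul_inv_smul₀ hD'.ne', smul_inv_smul₀ hD'.ne']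
      ext
      · simp [vp, h0, hDdef]
        linear_combination 0 * ho
      · simp [vp, h0, hDdef]
        linear_combination (2 * q.imI) * ho
      · simp [vp, h0, hDdef]
        linear_combination (2 * q.imJ) * ho
      · simp [vp, h0, hDdef]
        linear_combination (2 * q.imK) * ho
    exact smul_right_injective _ hD'.ne' e
  · simp [vp]
    right
    linarith

/-- the axis of a proper isometry -/
lemma exists_quat (A : Matrix (Fin 3) (Fin 3) ℚ) (hA : A ∈ Matrix.specialOrthogonalGroup (Fin 3) ℚ) :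
    ∃ q : ℍ[ℚ], q ≠ 0 ∧ ∀ x, pq (A.mulVec x) * q = q * pq x := by
  rw [Matrix.mem_specialOrthogonalGroup_iff, Matrix.mem_orthogonalGroup_iff] at hA
  obtain ⟨hA1, hA2⟩ := hA
  have hA3 : A.transpose * A = 1 := by
    have := mul_eq_one_comm.1 hA1
    simpa using this
  -- the cofactors
  have hadj : A.adjugate = A.transpose := by
    have h1 : A.adjugate * A = 1 := by
      rw [Matrix.adjugate_mul, hA2, one_smul]
    calc A.adjugate = A.adjugate * (A * A.transpose) := by
          have : A * A.transpose = 1 := by simpa using hA1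
          rw [this, mul_one]
      _ = A.transpose := by rw [← mul_assoc, h1, one_mul]
  rw [Matrix.adjugate_fin_three] at hadj
  have c : ∀ i j, (!![A 1 1 * A 2 2 - A 1 2 * A 2 1, -(A 0 1 * A 2 2) + A 0 2 * A 2 1,
      A 0 1 * A 1 2 - A 0 2 * A 1 1; -(A 1 0 * A 2 2) + A 1 2 * A 2 0,
      A 0 0 * A 2 2 - A 0 2 * A 2 0, -(A 0 0 * A 1 2) + A 0 2 * A 1 0;
      A 1 0 * A 2 1 - A 1 1 * A 2 0, -(A 0 0 * A 2 1) + A 0 1 * A 2 0,
      A 0 0 * A 1 1 - A 0 1 * A 1 0] : Matrix (Fin 3) (Fin 3) ℚ) i j = A j i := by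
    intro i j
    rw [hadj]
    rfl
  have c00 := c 0 0
  have c01 := c 0 1
  have c02 := c 0 2
  have c10 := c 1 0
  have c11 := c 1 1
  have c12 := c 1 2
  have c20 := c 2 0
  have c21 := c 2 1
  have c22 := c 2 2
  simp at c00 c01 c02 c10 c11 c12 c20 c21 c22
  have o : ∀ i j, (A.transpose * A) i j = (1 : Matrix (Fin 3) (Fin 3) ℚ) i j := by
    intro i j
    rw [hA3]
  have o00 := o 0 0
  have o01 := o 0 1
  have o02 := o 0 2
  have o11 := o 1 1
  have o12 := o 1 2
  have o22 := o 2 2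
  simp [Matrix.mul_apply, Fin.sum_univ_three] at o00 o01 o02 o11 o12 o22
  set I' : ℍ[ℚ] := ⟨0, A 0 0, A 1 0, A 2 0⟩ with hI
  set J' : ℍ[ℚ] := ⟨0, A 0 1, A 1 1, A 2 1⟩ with hJ
  set K' : ℍ[ℚ] := ⟨0, A 0 2, A 1 2, A 2 2⟩ with hK
  have rII : I' * I' = -1 := by
    ext
    · simp [hI]; linear_combination -o00
    · simp [hI]; ring
    · simp [hI]; ring
    · simp [hI]; ring
  have rJJ : J' * J' = -1 := by
    ext
    · simp [hJ]; linear_combination -o11
    · simp [hJ]; ring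
    · simp [hJ]; ring
    · simp [hJ]; ring
  have rIJ : I' * J' = K' := by
    ext
    · simp [hI, hJ, hK]; linear_combination -o01
    · simp [hI, hJ, hK]; linear_combination c20
    · simp [hI, hJ, hK]; linear_combination c21
    · simp [hI, hJ, hK]; linear_combination c22
  have rJI : J' * I' = -K' := by
    ext
    · simp [hI, hJ, hK]; linear_combination -o01
    · simp [hI, hJ, hK]; linear_combination -c20
    · simp [hI, hJ, hK]; linear_combination -c21
    · simp [hI, hJ, hK]; linear_combination -c22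
  have rIK : I' * K' = -J' := by
    rw [← rIJ, ← mul_assoc, rII]
    simp
  have rJK : J' * K' = I' := by
    have : K' = -(J' * I') := by rw [rJI, neg_neg]
    rw [this, mul_neg, ← mul_assoc, rJJ]
    simp
  have rKI : K' * I' = J' := by
    have : K' = -(J' * I') := by rw [rJI, neg_neg]
    rw [this, neg_mul, mul_assoc, rII]
    simp
  have rKJ : K' * J' = -I' := by
    rw [← rIJ, mul_assoc, rJJ]
    simp
  have rKK : K' * K' = -1 := by
    have : K' * K' = K' * (I' * J') := by rw [rIJ]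
    rw [this, ← mul_assoc, rKI, rJJ]
  let i : ℍ[ℚ] := ⟨0, 1, 0, 0⟩
  let j : ℍ[ℚ] := ⟨0, 0, 1, 0⟩
  let k : ℍ[ℚ] := ⟨0, 0, 0, 1⟩
  let Q : ℍ[ℚ] → ℍ[ℚ] := fun z => z - I' * z * i - J' * z * j - K' * z * k
  have hii : i * i = -1 := by ext <;> simp [i]
  have hjj : j * j = -1 := by ext <;> simp [j]
  have hkk : k * k = -1 := by ext <;> simp [k]
  have hij : i * j = k := by ext <;> simp [i, j, k]
  have hji : j * i = -k := by ext <;> simp [i, j, k]
  have hjk : j * k = i := by ext <;> simp [i, j, k]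
  have hkj : k * j = -i := by ext <;> simp [i, j, k]
  have hki : k * i = j := by ext <;> simp [i, j, k]
  have hik : i * k = -j := by ext <;> simp [i, j, k]
  have qI : ∀ z, I' * Q z = Q z * i := by
    intro z
    simp only [Q, mul_sub, sub_mul, ← mul_assoc, rII, rIJ, rIK]
    simp only [mul_assoc, hii, hji, hki]
    simp only [neg_mul, mul_neg, one_mul, mul_one, mul_assoc]
    abel
  have qJ : ∀ z, J' * Q z = Q z * j := by
    intro z
    simp only [Q, mul_sub, sub_mul, ← mul_assoc, rJI, rJJ, rJK]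
    simp only [mul_assoc, hij, hjj, hkj]
    simp only [neg_mul, mul_neg, one_mul, mul_one, mul_assoc]
    abel
  have qK : ∀ z, K' * Q z = Q z * k := by
    intro z
    simp only [Q, mul_sub, sub_mul, ← mul_assoc, rKI, rKJ, rKK]
    simp only [mul_assoc, hik, hjk, hkk]
    simp only [neg_mul, mul_neg, one_mul, mul_one, mul_assoc]
    abel
  have hsum : (Q 1 - Q i * i - Q j * j - Q k * k).re = 4 := by
    simp [Q, i, j, k, hI, hJ, hK]
    ring
  have hex : ∃ z, Q z ≠ 0 := by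
    by_contra hc
    push Not at hc
    rw [hc, hc, hc, hc] at hsum
    simp at hsum
  obtain ⟨z, hz⟩ := hex
  refine ⟨Q z, hz, fun x => ?_⟩
  have e1 : pq (A.mulVec x) = x 0 • I' + x 1 • J' + x 2 • K' := by
    ext <;> simp [pq, hI, hJ, hK, Matrix.mulVec, dotProduct, Fin.sum_univ_three] <;> ring
  have e2 : pq x = x 0 • i + x 1 • j + x 2 • k := by
    ext <;> simp [pq, i, j, k]
  rw [e1, e2, add_mul, add_mul, mul_add, mul_add, smul_mul_assoc, smul_mul_assoc, smul_mul_assoc,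
    mul_smul_comm, mul_smul_comm, mul_smul_comm, qI, qJ, qK]

/-- Every proper isometry is represented by a dual quaternion. -/
lemma rep_of_proper {g : Equiv.Perm (Fin 3 → ℚ)} (h : Proper g) : ∃ q q', Rep g q q' := by
  obtain ⟨A, hA, b, hg⟩ := h
  obtain ⟨q, hq, hx⟩ := exists_quat A hA
  refine ⟨q, (1 / 2 : ℚ) • (pq b * q), hq, fun x => ?_⟩
  rw [hg, pq_add, add_mul, hx, smul_smul]
  norm_num

end LSY
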