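import Mathlib

/-!
# Dual numbers over `ℚ_p` and quaternions over them: the norm
-/

set_option autoImplicit false

open Quaternion

namespace LSY

noncomputable section

/-- the dual numbers over `ℚ_p` -/
def DN (p : ℕ) [Fact p.Prime] : Type := DualNumber ℚ_[p]

variable {p : ℕ} [Fact p.Prime]

instance : CommRing (DN p) := inferInstanceAs (CommRing (DualNumber ℚ_[p]))

/-- the first component -/
def fs (x : DN p) : ℚ_[p] := TrivSqZeroExt.fst (x : DualNumber ℚ_[p])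

/-- the second component -/
def sn (x : DN p) : ℚ_[p] := TrivSqZeroExt.snd (x : DualNumber ℚ_[p])

/-- a dual number -/
def md (a b : ℚ_[p]) : DN p := (TrivSqZeroExt.inl a + TrivSqZeroExt.inr b : DualNumber ℚ_[p])

lemma fs_md (a b : ℚ_[p]) : fs (md a b) = a := by
  unfold fs md
  simp

lemma sn_md (a b : ℚ_[p]) : sn (md a b) = b := by
  unfold sn md
  simp

lemma dn_ext {x y : DN p} (h1 : fs x = fs y) (h2 : sn x = sn y) : x = y :=
  TrivSqZeroExt.ext h1 h2

lemma fs_add (x y : DN p) : fs (x + y) = fs x + fs y := rfl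
lemma sn_add (x y : DN p) : sn (x + y) = sn x + sn y := rfl
lemma fs_neg (x : DN p) : fs (-x) = -fs x := rfl
lemma sn_neg (x : DN p) : sn (-x) = -sn x := rfl
lemma fs_sub (x y : DN p) : fs (x - y) = fs x - fs y := rfl
lemma sn_sub (x y : DN p) : sn (x - y) = sn x - sn y := rfl
lemma fs_zero : fs (0 : DN p) = 0 := rfl
lemma sn_zero : sn (0 : DN p) = 0 := rfl
lemma fs_one : fs (1 : DN p) = 1 := rfl
lemma sn_one : sn (1 : DN p) = 0 := rfl
lemma fs_mul (x y : DN p) : fs (x * y) = fs x * fs y := rfl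
lemma sn_mul (x y : DN p) : sn (x * y) = fs x * sn y + sn x * fs y :=
  DualNumber.snd_mul (x : DualNumber ℚ_[p]) y
lemma fs_two : fs (2 : DN p) = 2 := by
  have : (2 : DN p) = 1 + 1 := by norm_num
  rw [this, fs_add, fs_one]
  norm_num
lemma sn_two : sn (2 : DN p) = 0 := by
  have : (2 : DN p) = 1 + 1 := by norm_num
  rw [this, sn_add, sn_one, add_zero]

/-- the inverse -/
def iv (x : DN p) : DN p := md (fs x)⁻¹ (-(sn x) * (fs x)⁻¹ ^ 2)

lemma iv_mul {x : DN p} (h : fs x ≠ 0) : iv x * x = 1 := by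
  unfold iv
  refine dn_ext ?_ ?_
  · rw [fs_mul, fs_md, fs_one, inv_mul_cancel₀ h]
  · rw [sn_mul, fs_md, sn_md, sn_one]
    field_simp
    ring

lemma mul_iv {x : DN p} (h : fs x ≠ 0) : x * iv x = 1 := by rw [mul_comm, iv_mul h]

/-- the norm on dual numbers -/
def nu (x : DN p) : ℝ := max ‖fs x‖ ‖sn x‖

lemma nu_nonneg (x : DN p) : 0 ≤ nu x := le_max_of_le_left (norm_nonneg _)

lemma nu_add_le (x y : DN p) : nu (x + y) ≤ max (nu x) (nu y) := by
  unfold nu
  rw [fs_add, sn_add]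
  refine max_le ?_ ?_
  · refine (Padic.nonarchimedean _ _).trans ?_
    exact max_le_max (le_max_left _ _) (le_max_left _ _)
  · refine (Padic.nonarchimedean _ _).trans ?_
    exact max_le_max (le_max_right _ _) (le_max_right _ _)

lemma nu_neg (x : DN p) : nu (-x) = nu x := by
  unfold nu
  rw [fs_neg, sn_neg, norm_neg, norm_neg]

lemma nu_sub_le (x y : DN p) : nu (x - y) ≤ max (nu x) (nu y) := by
  rw [sub_eq_add_neg, ← nu_neg y]
  exact nu_add_le _ _

lemma nu_mul_le (x y : DN p) : nu (x * y) ≤ nu x * nu y := by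
  have hx1 : ‖fs x‖ ≤ nu x := le_max_left _ _
  have hx2 : ‖sn x‖ ≤ nu x := le_max_right _ _
  have hy1 : ‖fs y‖ ≤ nu y := le_max_left _ _
  have hy2 : ‖sn y‖ ≤ nu y := le_max_right _ _
  have h0 := nu_nonneg x
  have h0' := nu_nonneg y
  have e : nu (x * y) = max ‖fs x * fs y‖ ‖fs x * sn y + sn x * fs y‖ := by
    unfold nu
    rw [fs_mul, sn_mul]
  rw [e]
  refine max_le ?_ ?_
  · rw [norm_mul]
    exact mul_le_mul hx1 hy1 (norm_nonneg _) h0
  · refine (Padic.nonarchimedean _ _).trans (max_le ?_ ?_)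
    · rw [norm_mul]
      exact mul_le_mul hx1 hy2 (norm_nonneg _) h0
    · rw [norm_mul]
      exact mul_le_mul hx2 hy1 (norm_nonneg _) h0

lemma nu_zero : nu (0 : DN p) = 0 := by
  unfold nu
  rw [fs_zero, sn_zero]
  simp

lemma nu_one : nu (1 : DN p) = 1 := by
  unfold nu
  rw [fs_one, sn_one]
  simp

lemma nu_two_le : nu (2 : DN p) ≤ 1 := by
  have : (2 : DN p) = 1 + 1 := by norm_num
  rw [this]
  refine (nu_add_le _ _).trans ?_
  rw [nu_one, max_self]

/-- the norm on quaternions over dual numbers -/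
def nq (q : ℍ[DN p]) : ℝ := max (max (nu q.re) (nu q.imI)) (max (nu q.imJ) (nu q.imK))

lemma nu_re_le (q : ℍ[DN p]) : nu q.re ≤ nq q := le_max_of_le_left (le_max_left _ _)
lemma nu_imI_le (q : ℍ[DN p]) : nu q.imI ≤ nq q := le_max_of_le_left (le_max_right _ _)
lemma nu_imJ_le (q : ℍ[DN p]) : nu q.imJ ≤ nq q := le_max_of_le_right (le_max_left _ _)
lemma nu_imK_le (q : ℍ[DN p]) : nu q.imK ≤ nq q := le_max_of_le_right (le_max_right _ _)

lemma nq_le {q : ℍ[DN p]} {r : ℝ} (h1 : nu q.re ≤ r) (h2 : nu q.imI ≤ r)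
    (h3 : nu q.imJ ≤ r) (h4 : nu q.imK ≤ r) : nq q ≤ r :=
  max_le (max_le h1 h2) (max_le h3 h4)

lemma nq_nonneg (q : ℍ[DN p]) : 0 ≤ nq q := (nu_nonneg _).trans (nu_re_le q)

lemma nq_zero : nq (0 : ℍ[DN p]) = 0 := by
  unfold nq
  simp [nu_zero]

lemma nq_add_le (x y : ℍ[DN p]) : nq (x + y) ≤ max (nq x) (nq y) := by
  refine nq_le ?_ ?_ ?_ ?_
  · rw [Quaternion.re_add]
    exact (nu_add_le _ _).trans (max_le_max (nu_re_le _) (nu_re_le _))
  · rw [Quaternion.imI_add]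
    exact (nu_add_le _ _).trans (max_le_max (nu_imI_le _) (nu_imI_le _))
  · rw [Quaternion.imJ_add]
    exact (nu_add_le _ _).trans (max_le_max (nu_imJ_le _) (nu_imJ_le _))
  · rw [Quaternion.imK_add]
    exact (nu_add_le _ _).trans (max_le_max (nu_imK_le _) (nu_imK_le _))

lemma nq_smul_le (c : DN p) (x : ℍ[DN p]) : nq (c • x) ≤ nu c * nq x := by
  have h0 := nu_nonneg c
  refine nq_le ?_ ?_ ?_ ?_
  · rw [Quaternion.re_smul, smul_eq_mul]
    exact (nu_mul_le _ _).trans (mul_le_mul_of_nonneg_left (nu_re_le _) h0)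
  · rw [Quaternion.imI_smul, smul_eq_mul]
    exact (nu_mul_le _ _).trans (mul_le_mul_of_nonneg_left (nu_imI_le _) h0)
  · rw [Quaternion.imJ_smul, smul_eq_mul]
    exact (nu_mul_le _ _).trans (mul_le_mul_of_nonneg_left (nu_imJ_le _) h0)
  · rw [Quaternion.imK_smul, smul_eq_mul]
    exact (nu_mul_le _ _).trans (mul_le_mul_of_nonneg_left (nu_imK_le _) h0)

lemma nq_mul_le (x y : ℍ[DN p]) : nq (x * y) ≤ nq x * nq y := by
  have hx1 := nu_re_le x
  have hx2 := nu_imI_le x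
  have hx3 := nu_imJ_le x
  have hx4 := nu_imK_le x
  have hy1 := nu_re_le y
  have hy2 := nu_imI_le y
  have hy3 := nu_imJ_le y
  have hy4 := nu_imK_le y
  have hx := nq_nonneg x
  have hy := nq_nonneg y
  have m : ∀ a b : DN p, nu a ≤ nq x → nu b ≤ nq y → nu (a * b) ≤ nq x * nq y := by
    intro a b ha hb
    exact (nu_mul_le _ _).trans (mul_le_mul ha hb (nu_nonneg _) hx)
  refine nq_le ?_ ?_ ?_ ?_
  · rw [Quaternion.re_mul]
    exact (nu_sub_le _ _).trans (max_le ((nu_sub_le _ _).trans (max_le ((nu_sub_le _ _).trans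
      (max_le (m _ _ hx1 hy1) (m _ _ hx2 hy2))) (m _ _ hx3 hy3))) (m _ _ hx4 hy4))
  · rw [Quaternion.imI_mul]
    exact (nu_sub_le _ _).trans (max_le ((nu_add_le _ _).trans (max_le ((nu_add_le _ _).trans
      (max_le (m _ _ hx1 hy2) (m _ _ hx2 hy1))) (m _ _ hx3 hy4))) (m _ _ hx4 hy3))
  · rw [Quaternion.imJ_mul]
    exact (nu_add_le _ _).trans (max_le ((nu_add_le _ _).trans (max_le ((nu_sub_le _ _).trans
      (max_le (m _ _ hx1 hy3) (m _ _ hx2 hy4))) (m _ _ hx3 hy1))) (m _ _ hx4 hy2))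
  · rw [Quaternion.imK_mul]
    exact (nu_add_le _ _).trans (max_le ((nu_sub_le _ _).trans (max_le ((nu_add_le _ _).trans
      (max_le (m _ _ hx1 hy4) (m _ _ hx2 hy3))) (m _ _ hx3 hy2))) (m _ _ hx4 hy1))

end

end LSY
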