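import Mathlib
import Pool.Agent.LSY.Dual

/-!
# The trace of a product of perturbed idempotents of rank one
-/

set_option autoImplicit false

open Quaternion

namespace LSY

noncomputable section

variable {p : ℕ} [Fact p.Prime]

/-- the corner of `t` -/
def cc (e t : ℍ[DN p]) : DN p := 2 * (e * t).re

/-- the product of the `(e + ρ ē) τ` -/
def Pr (e : ℍ[DN p]) (L : List (DN p × ℍ[DN p])) : ℍ[DN p] :=
  (L.map fun t => (e + t.1 • star e) * t.2).prod

/-- the structure of an idempotent of rank one -/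
structure Idem (e : ℍ[DN p]) : Prop where
  star_eq : star e = 1 - e
  idem : e * e = e
  sand : ∀ z, e * z * e = cc e z • e

lemma Idem.mul_star {e : ℍ[DN p]} (h : Idem e) : e * star e = 0 := by
  rw [h.star_eq, mul_sub, mul_one, h.idem, sub_self]

lemma Idem.star_mul {e : ℍ[DN p]} (h : Idem e) : star e * e = 0 := by
  rw [h.star_eq, sub_mul, one_mul, h.idem, sub_self]

lemma Idem.star_idem {e : ℍ[DN p]} (h : Idem e) : star e * star e = star e := by
  have h1 : star (e * e) = star e := by rw [h.idem]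
  rw [StarMul.star_mul] at h1
  exact h1

/-- the inductive statement -/
lemma tr_ind {e : ℍ[DN p]} (he : Idem e) {R d : ℝ} (hR : 1 ≤ R) (hd : 0 ≤ d)
    (hdR : d * R ^ 8 ≤ 1) (h1 : nq e ≤ R) (h2 : nq (star e) ≤ R) :
    ∀ L : List (DN p × ℍ[DN p]), L ≠ [] →
      (∀ t ∈ L, nu t.1 ≤ d ∧ nq t.2 ≤ R ∧ fs (cc e t.2) ≠ 0 ∧
        nu (iv (cc e t.2)) ≤ R) →
      ∃ t ∈ L, ∃ (G : DN p) (r r' : ℍ[DN p]), G * cc e t.2 = (L.map fun t => cc e t.2).prod ∧
        nq r ≤ d * R ^ 8 ∧ nq r' ≤ d * R ^ 5 ∧ e * Pr e L = G • (e * t.2 + r) ∧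
        star e * Pr e L = G • r' := by
  have hR0 : 0 ≤ R := by linarith
  intro L
  induction L with
  | nil => intro h; exact absurd rfl h
  | cons t L ih =>
    intro _ hall
    have ht := hall t (List.mem_cons_self)
    by_cases hL : L = []
    · subst hL
      refine ⟨t, List.mem_cons_self, 1, 0, t.1 • (star e * t.2), ?_, ?_, ?_, ?_, ?_⟩
      · simp
      · rw [nq_zero]
        positivity
      · refine (nq_smul_le _ _).trans ?_
        have h3 : nq (star e * t.2) ≤ R * R :=
          (nq_mul_le _ _).trans (mul_le_mul h2 ht.2.1 (nq_nonneg _) hR0)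
        calc nu t.1 * nq (star e * t.2) ≤ d * (R * R) :=
              mul_le_mul ht.1 h3 (nq_nonneg _) hd
          _ ≤ d * R ^ 5 := by
              refine mul_le_mul_of_nonneg_left ?_ hd
              calc R * R = R ^ 2 := by ring
                _ ≤ R ^ 5 := pow_le_pow_right₀ hR (by norm_num)
      · simp only [Pr, List.map_cons, List.map_nil, List.prod_cons, List.prod_nil, mul_one,
          one_smul, add_zero]
        rw [← mul_assoc, mul_add, he.idem, mul_smul_comm, he.mul_star, smul_zero, add_zero]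
      · simp only [Pr, List.map_cons, List.map_nil, List.prod_cons, List.prod_nil, mul_one,
          one_smul]
        rw [← mul_assoc, mul_add, he.star_mul, mul_smul_comm, he.star_idem, zero_add,
          smul_mul_assoc]
    · obtain ⟨t0, ht0, G, r, r', hG, hr, hr', e1, e2⟩ :=
        ih hL (fun s hs => hall s (List.mem_cons_of_mem _ hs))
      have ht0' := hall t0 (List.mem_cons_of_mem _ ht0)
      set X := Pr e L with hX
      have hPr : Pr e (t :: L) = (e + t.1 • star e) * t.2 * X := by
        rw [hX]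
        simp only [Pr, List.map_cons, List.prod_cons]
      have hsplit : X = e * X + star e * X := by
        rw [he.star_eq, sub_mul, one_mul, add_sub_cancel]
      have hc1 : (iv (cc e t.2)) * cc e t.2 = 1 := iv_mul ht.2.2.1
      have hc2 : cc e t.2 * (iv (cc e t.2)) = 1 := by rw [mul_comm, hc1]
      have hr1 : nq r ≤ 1 := hr.trans hdR
      have hr1' : nq r' ≤ 1 := by
        refine hr'.trans (le_trans ?_ hdR)
        exact mul_le_mul_of_nonneg_left (pow_le_pow_right₀ hR (by norm_num)) hd
      refine ⟨t0, List.mem_cons_of_mem _ ht0, cc e t.2 * G,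
        r + (iv (cc e t.2)) • (e * t.2 * r'),
        (iv (cc e t.2)) • (t.1 • (star e * t.2 * (e * t0.2 + r + r'))), ?_, ?_, ?_, ?_, ?_⟩
      · rw [mul_assoc, hG, List.map_cons, List.prod_cons]
      · refine (nq_add_le _ _).trans (max_le hr ?_)
        refine (nq_smul_le _ _).trans ?_
        have h3 : nq (e * t.2 * r') ≤ R * R * (d * R ^ 5) :=
          (nq_mul_le _ _).trans (mul_le_mul ((nq_mul_le _ _).trans
            (mul_le_mul h1 ht.2.1 (nq_nonneg _) hR0)) hr' (nq_nonneg _) (by positivity))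
        calc nu (iv (cc e t.2)) * nq (e * t.2 * r') ≤ R * (R * R * (d * R ^ 5)) :=
              mul_le_mul ht.2.2.2 h3 (nq_nonneg _) hR0
          _ = d * R ^ 8 := by ring
      · refine (nq_smul_le _ _).trans ?_
        have h5 : nq (e * t0.2 + r + r') ≤ R * R := by
          have hRR : 1 ≤ R * R := by nlinarith
          refine (nq_add_le _ _).trans (max_le ((nq_add_le _ _).trans (max_le ?_ ?_)) ?_)
          · exact (nq_mul_le _ _).trans (mul_le_mul h1 ht0'.2.1 (nq_nonneg _) hR0)
          · exact hr1.trans hRR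
          · exact hr1'.trans hRR
        have h6 : nq (star e * t.2 * (e * t0.2 + r + r')) ≤ R * R * (R * R) :=
          (nq_mul_le _ _).trans (mul_le_mul ((nq_mul_le _ _).trans
            (mul_le_mul h2 ht.2.1 (nq_nonneg _) hR0)) h5 (nq_nonneg _) (by positivity))
        have h7 : nq (t.1 • (star e * t.2 * (e * t0.2 + r + r'))) ≤ d * (R * R * (R * R)) :=
          (nq_smul_le _ _).trans (mul_le_mul ht.1 h6 (nq_nonneg _) hd)
        calc nu (iv (cc e t.2)) * nq (t.1 • (star e * t.2 * (e * t0.2 + r + r')))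
            ≤ R * (d * (R * R * (R * R))) := mul_le_mul ht.2.2.2 h7 (nq_nonneg _) hR0
          _ = d * R ^ 5 := by ring
      · have h8 : e * Pr e (t :: L) = e * t.2 * X := by
          rw [hPr, ← mul_assoc, ← mul_assoc, mul_add, he.idem, mul_smul_comm, he.mul_star,
            smul_zero, add_zero]
        have h9 : e * t.2 * X = cc e t.2 • (e * X) + e * t.2 * (star e * X) := by
          have h10 : e * t.2 * (e * X) = cc e t.2 • (e * X) := by
            rw [← mul_assoc, he.sand, smul_mul_assoc]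
          calc e * t.2 * X = e * t.2 * (e * X + star e * X) := by rw [← hsplit]
            _ = _ := by rw [mul_add, h10]
        rw [h8, h9, e1, e2, smul_smul, mul_smul_comm, ← add_assoc, smul_add (cc e t.2 * G) _
          ((iv (cc e t.2)) • _), smul_smul]
        congr 2
        rw [mul_comm (cc e t.2) G, mul_assoc, hc2, mul_one]
      · have h8 : star e * Pr e (t :: L) = t.1 • (star e * t.2 * X) := by
          rw [hPr, ← mul_assoc, ← mul_assoc, mul_add, he.star_mul, mul_smul_comm, he.star_idem,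
            zero_add, smul_mul_assoc, smul_mul_assoc]
        have h9 : X = G • (e * t0.2 + r + r') := by
          rw [smul_add, ← e1, ← e2, ← hsplit]
        rw [h8, h9, mul_smul_comm, smul_smul, smul_smul, smul_smul]
        congr 1
        calc t.1 * G = (cc e t.2 * (iv (cc e t.2))) * (t.1 * G) := by rw [hc2, one_mul]
          _ = cc e t.2 * G * (iv (cc e t.2)) * t.1 := by ring

/-- the trace of the product -/
lemma tr_main {e : ℍ[DN p]} (he : Idem e) {R d : ℝ} (hR : 1 ≤ R) (hd : 0 ≤ d)
    (hdR : d * R ^ 8 ≤ 1) (h1 : nq e ≤ R) (h2 : nq (star e) ≤ R)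
    (L : List (DN p × ℍ[DN p])) (hL : L ≠ [])
    (hall : ∀ t ∈ L, nu t.1 ≤ d ∧ nq t.2 ≤ R ∧ fs (cc e t.2) ≠ 0 ∧
        nu (iv (cc e t.2)) ≤ R) :
    ∃ η : DN p, nu η ≤ d * R ^ 9 ∧
      2 * (Pr e L).re = (L.map fun t => cc e t.2).prod * (1 + η) := by
  obtain ⟨t, ht, G, r, r', hG, hr, hr', e1, e2⟩ := tr_ind he hR hd hdR h1 h2 L hL hall
  have hR0 : 0 ≤ R := by linarith
  have ht' := hall t ht
  have hc1 : (iv (cc e t.2)) * cc e t.2 = 1 := iv_mul ht'.2.2.1
  have hc2 : cc e t.2 * (iv (cc e t.2)) = 1 := by rw [mul_comm, hc1]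
  refine ⟨(iv (cc e t.2)) * (2 * (r.re + r'.re)), ?_, ?_⟩
  · refine (nu_mul_le _ _).trans ?_
    have h3 : nu (r.re + r'.re) ≤ d * R ^ 8 := by
      refine (nu_add_le _ _).trans (max_le ((nu_re_le _).trans hr) ((nu_re_le _).trans ?_))
      exact hr'.trans (mul_le_mul_of_nonneg_left (pow_le_pow_right₀ hR (by norm_num)) hd)
    have h4 : nu (2 * (r.re + r'.re)) ≤ d * R ^ 8 := by
      refine (nu_mul_le _ _).trans ?_
      calc nu (2 : DN p) * nu (r.re + r'.re) ≤ 1 * (d * R ^ 8) :=
            mul_le_mul nu_two_le h3 (nu_nonneg _) (by norm_num)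
        _ = d * R ^ 8 := one_mul _
    calc nu (iv (cc e t.2)) * nu (2 * (r.re + r'.re)) ≤ R * (d * R ^ 8) :=
          mul_le_mul ht'.2.2.2 h4 (nu_nonneg _) hR0
      _ = d * R ^ 9 := by ring
  · have hsplit : Pr e L = e * Pr e L + star e * Pr e L := by
      rw [he.star_eq, sub_mul, one_mul, add_sub_cancel]
    rw [hsplit, e1, e2, ← smul_add, Quaternion.re_smul, smul_eq_mul, Quaternion.re_add,
      Quaternion.re_add, ← hG]
    have h5 : 2 * (e * t.2).re = cc e t.2 := rfl
    calc 2 * (G * ((e * t.2).re + r.re + r'.re))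
        = G * (2 * (e * t.2).re + 2 * (r.re + r'.re)) := by ring
      _ = G * (cc e t.2 + (cc e t.2 * (iv (cc e t.2))) * (2 * (r.re + r'.re))) := by
          rw [h5, hc2, one_mul]
      _ = _ := by ring

end

end LSY
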