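import Mathlib
import Pool.Agent.LSY.Tr
import Pool.Agent.LSY.Rep

/-!
# The splitting of the dual quaternion of a screw motion
-/

set_option autoImplicit false

open Quaternion

namespace LSY

noncomputable section

variable {p : ℕ} [Fact p.Prime]

/-- the dual quaternion `q + ε q'` over `ℚ_p` -/
def dq (p : ℕ) [Fact p.Prime] (q q' : ℍ[ℚ]) : ℍ[DN p] :=
  ⟨md q.re q'.re, md q.imI q'.imI, md q.imJ q'.imJ, md q.imK q'.imK⟩

lemma dq_mul (a a' b b' : ℍ[ℚ]) :
    dq p a a' * dq p b b' = dq p (a * b) (a * b' + a' * b) := by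
  ext
  · rw [Quaternion.re_mul]
    refine dn_ext ?_ ?_
    · simp only [dq, fs_sub, fs_mul, fs_md, Quaternion.re_mul]
      push_cast
      ring
    · simp only [dq, sn_sub, sn_mul, fs_md, sn_md, Quaternion.re_mul, Quaternion.re_add]
      push_cast
      ring
  · rw [Quaternion.imI_mul]
    refine dn_ext ?_ ?_
    · simp only [dq, fs_sub, fs_add, fs_mul, fs_md, Quaternion.imI_mul]
      push_cast
      ring
    · simp only [dq, sn_sub, sn_add, sn_mul, fs_md, sn_md, Quaternion.imI_mul,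
        Quaternion.imI_add]
      push_cast
      ring
  · rw [Quaternion.imJ_mul]
    refine dn_ext ?_ ?_
    · simp only [dq, fs_sub, fs_add, fs_mul, fs_md, Quaternion.imJ_mul]
      push_cast
      ring
    · simp only [dq, sn_sub, sn_add, sn_mul, fs_md, sn_md, Quaternion.imJ_mul,
        Quaternion.imJ_add]
      push_cast
      ring
  · rw [Quaternion.imK_mul]
    refine dn_ext ?_ ?_
    · simp only [dq, fs_sub, fs_add, fs_mul, fs_md, Quaternion.imK_mul]
      push_cast
      ring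
    · simp only [dq, sn_sub, sn_add, sn_mul, fs_md, sn_md, Quaternion.imK_mul,
        Quaternion.imK_add]
      push_cast
      ring

lemma dq_one : dq p 1 0 = 1 := by
  ext
  · refine dn_ext ?_ ?_
    · simp [dq, fs_md, fs_one]
    · simp [dq, sn_md, sn_one]
  · refine dn_ext ?_ ?_
    · simp [dq, fs_md, fs_zero]
    · simp [dq, sn_md, sn_zero]
  · refine dn_ext ?_ ?_
    · simp [dq, fs_md, fs_zero]
    · simp [dq, sn_md, sn_zero]
  · refine dn_ext ?_ ?_
    · simp [dq, fs_md, fs_zero]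
    · simp [dq, sn_md, sn_zero]

lemma dq_star (a a' : ℍ[ℚ]) : star (dq p a a') = dq p (star a) (star a') := by
  ext
  · simp [dq]
  · refine dn_ext ?_ ?_
    · simp [dq, fs_md, fs_neg]
    · simp [dq, sn_md, sn_neg]
  · refine dn_ext ?_ ?_
    · simp [dq, fs_md, fs_neg]
    · simp [dq, sn_md, sn_neg]
  · refine dn_ext ?_ ?_
    · simp [dq, fs_md, fs_neg]
    · simp [dq, sn_md, sn_neg]

/-- idempotents from the norm and the trace -/
lemma idem_of {e : ℍ[DN p]} (h1 : 2 * e.re = 1)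
    (h2 : e.re ^ 2 + e.imI ^ 2 + e.imJ ^ 2 + e.imK ^ 2 = 0) : Idem e := by
  have hs : star e = 1 - e := by
    ext
    · simp
      linear_combination h1
    · simp
    · simp
    · simp
  refine ⟨hs, ?_, ?_⟩
  · ext
    · simp
      linear_combination e.re * h1 - h2
    · simp
      linear_combination e.imI * h1
    · simp
      linear_combination e.imJ * h1
    · simp
      linear_combination e.imK * h1
  · intro z
    ext
    · simp [cc]
      linear_combination (-z.re) * h2
    · simp [cc]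
      linear_combination (z.imI) * h2
    · simp [cc]
      linear_combination (z.imJ) * h2
    · simp [cc]
      linear_combination (z.imK) * h2

/-- `u · u'` -/
def UU (α α' : ℍ[ℚ]) : ℚ := α.imI * α'.imI + α.imJ * α'.imJ + α.imK * α'.imK

/-- the square of the length of the vector part -/
def DD (α : ℍ[ℚ]) : ℚ := α.imI ^ 2 + α.imJ ^ 2 + α.imK ^ 2

/-- the square root of the square of the vector part -/
def dl (α α' : ℍ[ℚ]) (δ : ℚ_[p]) : DN p := md δ (-(UU α α' : ℚ_[p]) / δ)

/-- one half -/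
def hf (p : ℕ) [Fact p.Prime] : DN p := md (1 / 2) 0

lemma two_hf : 2 * hf p = 1 := by
  refine dn_ext ?_ ?_
  · rw [fs_mul, fs_two, hf, fs_md, fs_one]
    norm_num
  · rw [sn_mul, fs_two, sn_two, hf, sn_md, fs_md, sn_one]
    norm_num

/-- the idempotent -/
def ee (α α' : ℍ[ℚ]) (δ : ℚ_[p]) : ℍ[DN p] :=
  ⟨hf p, hf p * iv (dl α α' δ) * md α.imI α'.imI, hf p * iv (dl α α' δ) * md α.imJ α'.imJ,
    hf p * iv (dl α α' δ) * md α.imK α'.imK⟩

lemma fs_dl (α α' : ℍ[ℚ]) (δ : ℚ_[p]) : fs (dl α α' δ) = δ := by rw [dl, fs_md]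

lemma dl_sq {α α' : ℍ[ℚ]} {δ : ℚ_[p]} (hδ : δ ≠ 0) (h : δ ^ 2 = -(DD α : ℚ_[p])) :
    dl α α' δ ^ 2 = -((md α.imI α'.imI : DN p) ^ 2 + (md α.imJ α'.imJ) ^ 2 +
      (md α.imK α'.imK) ^ 2) := by
  have hs : ∀ x : DN p, x ^ 2 = x * x := fun x => pow_two x
  refine dn_ext ?_ ?_
  · rw [hs, hs, hs, hs, fs_neg, fs_add, fs_add, fs_mul, fs_mul, fs_mul, fs_mul, fs_dl, fs_md,
      fs_md, fs_md]
    unfold DD at h
    push_cast at h
    linear_combination h
  · rw [hs, hs, hs, hs, sn_neg, sn_add, sn_add, sn_mul, sn_mul, sn_mul, sn_mul, fs_dl, fs_md,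
      fs_md, fs_md, sn_md, sn_md, sn_md, dl, sn_md]
    unfold UU
    push_cast
    field_simp
    ring

lemma ee_idem {α α' : ℍ[ℚ]} {δ : ℚ_[p]} (hδ : δ ≠ 0) (h : δ ^ 2 = -(DD α : ℚ_[p])) :
    Idem (ee α α' δ) := by
  have h1 : iv (dl α α' δ) * dl α α' δ = 1 := iv_mul (by rw [fs_dl]; exact hδ)
  have h2 := dl_sq (α' := α') hδ h
  have h3 := two_hf (p := p)
  refine idem_of ?_ ?_
  · exact h3
  · show hf p ^ 2 + (hf p * iv (dl α α' δ) * md α.imI α'.imI) ^ 2 +
      (hf p * iv (dl α α' δ) * md α.imJ α'.imJ) ^ 2 +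
      (hf p * iv (dl α α' δ) * md α.imK α'.imK) ^ 2 = 0
    linear_combination ((hf p) ^ 2 * iv (dl α α' δ) ^ 2) * h2 -
      ((hf p) ^ 2 * (iv (dl α α' δ) * dl α α' δ + 1)) * h1

/-- the eigenvalues -/
def mu (α α' : ℍ[ℚ]) (δ : ℚ_[p]) : DN p := md α.re α'.re + dl α α' δ

/-- the other one -/
def mv (α α' : ℍ[ℚ]) (δ : ℚ_[p]) : DN p := md α.re α'.re - dl α α' δ

lemma split {α α' : ℍ[ℚ]} {δ : ℚ_[p]} (hδ : δ ≠ 0) :
    dq p α α' = mu α α' δ • ee α α' δ + mv α α' δ • star (ee α α' δ) := by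
  have h1 : iv (dl α α' δ) * dl α α' δ = 1 := iv_mul (by rw [fs_dl]; exact hδ)
  have h3 := two_hf (p := p)
  ext
  · rw [Quaternion.re_add, Quaternion.re_smul, Quaternion.re_smul, Quaternion.re_star, smul_eq_mul,
      smul_eq_mul]
    show (md α.re α'.re : DN p) = mu α α' δ * hf p + mv α α' δ * hf p
    unfold mu mv
    linear_combination (-(md α.re α'.re : DN p)) * h3
  · rw [Quaternion.imI_add, Quaternion.imI_smul, Quaternion.imI_smul, Quaternion.imI_star,
      smul_eq_mul, smul_eq_mul]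
    show (md α.imI α'.imI : DN p) = mu α α' δ * (hf p * iv (dl α α' δ) * md α.imI α'.imI) +
      mv α α' δ * -(hf p * iv (dl α α' δ) * md α.imI α'.imI)
    unfold mu mv
    linear_combination (-(md α.imI α'.imI : DN p)) * h3 -
      (2 * hf p * md α.imI α'.imI) * h1
  · rw [Quaternion.imJ_add, Quaternion.imJ_smul, Quaternion.imJ_smul, Quaternion.imJ_star,
      smul_eq_mul, smul_eq_mul]
    show (md α.imJ α'.imJ : DN p) = mu α α' δ * (hf p * iv (dl α α' δ) * md α.imJ α'.imJ) +
      mv α α' δ * -(hf p * iv (dl α α' δ) * md α.imJ α'.imJ)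
    unfold mu mv
    linear_combination (-(md α.imJ α'.imJ : DN p)) * h3 -
      (2 * hf p * md α.imJ α'.imJ) * h1
  · rw [Quaternion.imK_add, Quaternion.imK_smul, Quaternion.imK_smul, Quaternion.imK_star,
      smul_eq_mul, smul_eq_mul]
    show (md α.imK α'.imK : DN p) = mu α α' δ * (hf p * iv (dl α α' δ) * md α.imK α'.imK) +
      mv α α' δ * -(hf p * iv (dl α α' δ) * md α.imK α'.imK)
    unfold mu mv
    linear_combination (-(md α.imK α'.imK : DN p)) * h3 -
      (2 * hf p * md α.imK α'.imK) * h1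

lemma pow_split {e x : ℍ[DN p]} (he : Idem e) {a b : DN p} (hx : x = a • e + b • star e) (n : ℕ) :
    x ^ n = a ^ n • e + b ^ n • star e := by
  induction n with
  | zero =>
    rw [pow_zero, pow_zero, pow_zero, one_smul, one_smul, he.star_eq, add_sub_cancel]
  | succ n ih =>
    rw [pow_succ, ih, hx, add_mul, mul_add, mul_add]
    simp only [smul_mul_assoc, mul_smul_comm, he.idem, he.mul_star, he.star_mul, he.star_idem,
      smul_zero, add_zero, zero_add, smul_smul]
    rw [pow_succ, pow_succ, mul_comm a, mul_comm b]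

/-! ### the logarithmic derivative -/

/-- the logarithmic derivative -/
def lg (x : DN p) : ℚ_[p] := sn x / fs x

lemma lg_mul {x y : DN p} (hx : fs x ≠ 0) (hy : fs y ≠ 0) : lg (x * y) = lg x + lg y := by
  unfold lg
  rw [sn_mul, fs_mul]
  field_simp
  ring

lemma fs_pow (x : DN p) (n : ℕ) : fs (x ^ n) = fs x ^ n := by
  induction n with
  | zero => rw [pow_zero, pow_zero, fs_one]
  | succ n ih => rw [pow_succ, fs_mul, ih, pow_succ]

lemma lg_one : lg (1 : DN p) = 0 := by
  unfold lg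
  rw [sn_one, zero_div]

lemma lg_pow {x : DN p} (hx : fs x ≠ 0) (n : ℕ) : lg (x ^ n) = n * lg x := by
  induction n with
  | zero => rw [pow_zero, lg_one]; simp
  | succ n ih =>
    rw [pow_succ, lg_mul (by rw [fs_pow]; exact pow_ne_zero _ hx) hx, ih]
    push_cast
    ring

lemma lg_prod (l : List (DN p)) (h : ∀ x ∈ l, fs x ≠ 0) :
    fs l.prod ≠ 0 ∧ lg l.prod = (l.map lg).sum := by
  induction l with
  | nil =>
    refine ⟨?_, ?_⟩
    · rw [List.prod_nil, fs_one]
      exact one_ne_zero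
    · rw [List.prod_nil, lg_one]
      simp
  | cons a l ih =>
    obtain ⟨h1, h2⟩ := ih fun x hx => h x (List.mem_cons_of_mem _ hx)
    have h3 := h a List.mem_cons_self
    rw [List.prod_cons]
    refine ⟨?_, ?_⟩
    · rw [fs_mul]
      exact mul_ne_zero h3 h1
    · rw [lg_mul h3 h1, h2, List.map_cons, List.sum_cons]

end

end LSY
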