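import Mathlib
import Pool.Agent.LSY.Split
import Pool.Agent.LSY.Lio

/-!
# Long syllables: the `p`-adic estimate
-/

set_option autoImplicit false

open Quaternion

namespace LSY

noncomputable section

variable {p : ℕ} [Fact p.Prime]

/-- coordinate of the corner -/
def cA (z : ℍ[ℚ] × ℍ[ℚ]) : ℚ := z.1.re

/-- coordinate of the corner -/
def cA' (z : ℍ[ℚ] × ℍ[ℚ]) : ℚ := z.2.re

/-- coordinate of the corner -/
def cB (α : ℍ[ℚ]) (z : ℍ[ℚ] × ℍ[ℚ]) : ℚ :=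
  -(α.imI * z.1.imI + α.imJ * z.1.imJ + α.imK * z.1.imK)

/-- coordinate of the corner -/
def cB' (α α' : ℍ[ℚ]) (z : ℍ[ℚ] × ℍ[ℚ]) : ℚ :=
  -(α.imI * z.2.imI + α.imJ * z.2.imJ + α.imK * z.2.imK +
    (α'.imI * z.1.imI + α'.imJ * z.1.imJ + α'.imK * z.1.imK)) - cB α z * UU α α' / DD α

lemma dn_two_mul (x : DN p) : 2 * x = x + x := two_mul x

lemma cc_eq {α α' : ℍ[ℚ]} {δ : ℚ_[p]} (hδ : δ ≠ 0) (h : δ ^ 2 = -(DD α : ℚ_[p]))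
    (z : ℍ[ℚ] × ℍ[ℚ]) :
    cc (ee α α' δ) (dq p z.1 z.2) = md ((cA z : ℚ_[p]) + (cB α z : ℚ_[p]) * δ⁻¹)
      ((cA' z : ℚ_[p]) + (cB' α α' z : ℚ_[p]) * δ⁻¹) := by
  have hD : (DD α : ℚ_[p]) ≠ 0 := by
    intro h0
    rw [h0, neg_zero] at h
    exact hδ (by simpa using h)
  have hi : δ⁻¹ ^ 2 = -((DD α : ℚ_[p]))⁻¹ := by
    rw [inv_pow, h, neg_inv]
  have e1 : cc (ee α α' δ) (dq p z.1 z.2) = (2 * hf p) * (md z.1.re z.2.re -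
      iv (dl α α' δ) * (md α.imI α'.imI * md z.1.imI z.2.imI + md α.imJ α'.imJ * md z.1.imJ z.2.imJ
        + md α.imK α'.imK * md z.1.imK z.2.imK)) := by
    unfold cc
    rw [Quaternion.re_mul]
    show 2 * (hf p * md z.1.re z.2.re - hf p * iv (dl α α' δ) * md α.imI α'.imI * md z.1.imI z.2.imI
      - hf p * iv (dl α α' δ) * md α.imJ α'.imJ * md z.1.imJ z.2.imJ
      - hf p * iv (dl α α' δ) * md α.imK α'.imK * md z.1.imK z.2.imK) = _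
    ring
  rw [e1, two_hf, one_mul]
  refine dn_ext ?_ ?_
  · simp only [fs_sub, fs_mul, fs_add, fs_md, iv, dl, cA, cB]
    push_cast
    ring
  · simp only [sn_sub, fs_mul, fs_add, fs_md, iv, dl, cA', cB', cB, sn_mul, sn_md, sn_add]
    push_cast
    have e2 : (-(-(UU α α' : ℚ_[p]) / δ) * δ⁻¹ ^ 2) = -(UU α α' : ℚ_[p]) * δ⁻¹ * (DD α : ℚ_[p])⁻¹ := by
      rw [hi]
      field_simp
    rw [e2]
    field_simp
    ring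

lemma cc_fs_ne {α : ℍ[ℚ]} {δ : ℚ_[p]} (hD : 0 < DD α) (hδ : δ ≠ 0)
    (h : δ ^ 2 = -(DD α : ℚ_[p])) (z : ℍ[ℚ] × ℍ[ℚ]) (hz : cA z ≠ 0 ∨ cB α z ≠ 0) :
    ((cA z : ℚ_[p]) + (cB α z : ℚ_[p]) * δ⁻¹) ≠ 0 ∧
    ((cA z : ℚ_[p]) + (cB α z : ℚ_[p]) * δ⁻¹) * ((cA z : ℚ_[p]) - (cB α z : ℚ_[p]) * δ⁻¹) =
      ((cA z ^ 2 + cB α z ^ 2 / DD α : ℚ) : ℚ_[p]) ∧ 0 < cA z ^ 2 + cB α z ^ 2 / DD α := by
  have hDp : (DD α : ℚ_[p]) ≠ 0 := by exact_mod_cast hD.ne'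
  have hi : δ⁻¹ ^ 2 = -((DD α : ℚ_[p]))⁻¹ := by
    rw [inv_pow, h, neg_inv]
  have hpos : 0 < cA z ^ 2 + cB α z ^ 2 / DD α := by
    rcases hz with hz | hz
    · have h1 : 0 < cA z ^ 2 := by positivity
      have h2 : 0 ≤ cB α z ^ 2 / DD α := by positivity
      linarith
    · have h1 : 0 ≤ cA z ^ 2 := by positivity
      have h2 : 0 < cB α z ^ 2 / DD α := by positivity
      linarith
  have e : ((cA z : ℚ_[p]) + (cB α z : ℚ_[p]) * δ⁻¹) *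
      ((cA z : ℚ_[p]) - (cB α z : ℚ_[p]) * δ⁻¹) =
      ((cA z ^ 2 + cB α z ^ 2 / DD α : ℚ) : ℚ_[p]) := by
    push_cast
    rw [div_eq_mul_inv]
    linear_combination (-(cB α z : ℚ_[p]) ^ 2) * hi
  refine ⟨?_, e, hpos⟩
  intro h0
  rw [h0, zero_mul] at e
  have : (0 : ℚ) = cA z ^ 2 + cB α z ^ 2 / DD α := by exact_mod_cast e
  linarith

/-- the coordinates of the logarithmic derivative of the corner -/
def xy (α α' : ℍ[ℚ]) (z : ℍ[ℚ] × ℍ[ℚ]) : ℚ × ℚ :=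
  ((cA' z * cA z + cB' α α' z * cB α z / DD α) / (cA z ^ 2 + cB α z ^ 2 / DD α),
    (cB' α α' z * cA z - cA' z * cB α z) / (cA z ^ 2 + cB α z ^ 2 / DD α))

lemma lg_cc {α α' : ℍ[ℚ]} {δ : ℚ_[p]} (hD : 0 < DD α) (hδ : δ ≠ 0)
    (h : δ ^ 2 = -(DD α : ℚ_[p])) (z : ℍ[ℚ] × ℍ[ℚ]) (hz : cA z ≠ 0 ∨ cB α z ≠ 0) :
    fs (cc (ee α α' δ) (dq p z.1 z.2)) ≠ 0 ∧
    lg (cc (ee α α' δ) (dq p z.1 z.2)) = ev δ⁻¹ (xy α α' z) := by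
  obtain ⟨h1, h2, h3⟩ := cc_fs_ne hD hδ h z hz
  have hi : δ⁻¹ ^ 2 = -((DD α : ℚ_[p]))⁻¹ := by
    rw [inv_pow, h, neg_inv]
  rw [cc_eq hδ h]
  refine ⟨by rw [fs_md]; exact h1, ?_⟩
  unfold lg ev xy
  rw [fs_md, sn_md]
  have h4 : ((cA z ^ 2 + cB α z ^ 2 / DD α : ℚ) : ℚ_[p]) ≠ 0 := by exact_mod_cast h3.ne'
  rw [div_eq_iff h1]
  have e : ∀ x y : ℚ, (((x / (cA z ^ 2 + cB α z ^ 2 / DD α) : ℚ)) : ℚ_[p]) +
      ((y / (cA z ^ 2 + cB α z ^ 2 / DD α) : ℚ) : ℚ_[p]) * δ⁻¹ =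
      ((x : ℚ_[p]) + y * δ⁻¹) / ((cA z ^ 2 + cB α z ^ 2 / DD α : ℚ) : ℚ_[p]) := by
    intro x y
    rw [Rat.cast_div, Rat.cast_div]
    ring
  rw [e, div_mul_eq_mul_div, eq_div_iff h4, ← h2]
  push_cast
  rw [div_eq_mul_inv]
  linear_combination ((cA z + cB α z * δ⁻¹ : ℚ_[p]) * (-(cB' α α' z : ℚ_[p]) * cB α z)) * hi

lemma lg_mu {α α' : ℍ[ℚ]} {δ : ℚ_[p]} (hδ : δ ≠ 0) (ho : α.re * α'.re + UU α α' = 0)
    (hne : (α.re : ℚ_[p]) + δ ≠ 0) :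
    fs (mu α α' δ) = α.re + δ ∧ lg (mu α α' δ) = (α'.re : ℚ_[p]) * δ⁻¹ := by
  have ho' : (UU α α' : ℚ_[p]) = -((α.re : ℚ_[p]) * α'.re) := by
    have h1 : UU α α' = -(α.re * α'.re) := by linarith
    rw [h1]
    push_cast
    rfl
  unfold lg mu
  rw [fs_add, sn_add, fs_md, sn_md, dl, fs_md, sn_md, ho']
  refine ⟨rfl, ?_⟩
  rw [div_eq_iff hne]
  field_simp
  ring

/-- the powers of a dual number -/
lemma nu_pow {x : DN p} (hx : fs x ≠ 0) (n : ℕ) :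
    nu (x ^ n) ≤ max 1 ‖lg x‖ * ‖fs x‖ ^ n := by
  have h1 := lg_pow hx n
  have h2 : sn (x ^ n) = fs x ^ n * (n * lg x) := by
    rw [← h1]
    unfold lg
    rw [fs_pow]
    field_simp
  have hn : ‖(n : ℚ_[p])‖ ≤ 1 := by
    have := Padic.norm_int_le_one (p := p) (n : ℤ)
    simpa using this
  unfold nu
  rw [h2, fs_pow, norm_mul, norm_pow, norm_mul]
  have h3 : 0 ≤ ‖fs x‖ ^ n := by positivity
  refine max_le ?_ ?_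
  · calc ‖fs x‖ ^ n = 1 * ‖fs x‖ ^ n := (one_mul _).symm
      _ ≤ _ := mul_le_mul_of_nonneg_right (le_max_left _ _) h3
  · calc ‖fs x‖ ^ n * (‖(n : ℚ_[p])‖ * ‖lg x‖) ≤ ‖fs x‖ ^ n * (1 * ‖lg x‖) :=
          mul_le_mul_of_nonneg_left (mul_le_mul_of_nonneg_right hn (norm_nonneg _)) h3
      _ = ‖lg x‖ * ‖fs x‖ ^ n := by ring
      _ ≤ _ := mul_le_mul_of_nonneg_right (le_max_right _ _) h3

lemma lg_one_add {η : DN p} (h : nu η < 1) : fs (1 + η) ≠ 0 ∧ ‖lg (1 + η)‖ ≤ nu η := by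
  have h1 : ‖fs η‖ < 1 := lt_of_le_of_lt (le_max_left _ _) h
  have h2 : ‖fs (1 + η)‖ = 1 := by
    rw [fs_add, fs_one]
    have h3 : ‖(1 : ℚ_[p])‖ ≠ ‖fs η‖ := by
      rw [norm_one]
      exact h1.ne'
    rw [Padic.add_eq_max_of_ne h3, norm_one]
    exact max_eq_left h1.le
  refine ⟨?_, ?_⟩
  · intro h0
    rw [h0, norm_zero] at h2
    exact zero_ne_one h2
  · unfold lg
    rw [norm_div, h2, div_one, sn_add, sn_one, zero_add]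
    exact le_max_right _ _

end

end LSY
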