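import Mathlib

/-!
# Solvable subgroups of free groups are commutative
-/

set_option autoImplicit false

namespace LSY

/-- A free group that is solvable is commutative. -/
theorem comm_of_free_solvable {G : Type*} [Group G] [IsFreeGroup G] (h : Group.IsSolvable G)
    (x y : G) : x * y = y * x := by
  by_cases hs : Subsingleton (IsFreeGroup.Generators G)
  · -- at most one generator
    have hc : ∀ u v : FreeGroup (IsFreeGroup.Generators G), u * v = v * u := by
      intro u v
      have key : ∀ u : FreeGroup (IsFreeGroup.Generators G), ∀ g : IsFreeGroup.Generators G,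
          u * FreeGroup.of g = FreeGroup.of g * u := by
        intro u g
        induction u using FreeGroup.induction_on with
        | C1 => simp
        | of z => rw [Subsingleton.elim z g]
        | inv_of z _ => rw [Subsingleton.elim z g]; simp
        | mul a b ha hb => rw [mul_assoc, hb, ← mul_assoc, ha, mul_assoc]
      induction v using FreeGroup.induction_on with
      | C1 => simp
      | of z => exact key u z
      | inv_of z _ =>
        have h1 := key u z
        calc u * (FreeGroup.of z)⁻¹
            = (FreeGroup.of z)⁻¹ * (FreeGroup.of z * u) * (FreeGroup.of z)⁻¹ := by group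
          _ = (FreeGroup.of z)⁻¹ * (u * FreeGroup.of z) * (FreeGroup.of z)⁻¹ := by rw [h1]
          _ = (FreeGroup.of z)⁻¹ * u := by group
      | mul a b ha hb => rw [← mul_assoc, ha, mul_assoc, hb, mul_assoc]
    have e := IsFreeGroup.toFreeGroup G
    apply e.injective
    rw [map_mul, map_mul, hc]
  · exfalso
    rw [not_subsingleton_iff_nontrivial] at hs
    obtain ⟨g1, g2, hne⟩ := exists_pair_ne (IsFreeGroup.Generators G)
    classical
    let σ : Equiv.Perm (Fin 5) := finRotate 5
    let τ : Equiv.Perm (Fin 5) := Equiv.swap 0 1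
    let f : IsFreeGroup.Generators G → Equiv.Perm (Fin 5) := fun g => if g = g1 then σ else τ
    let F : G →* Equiv.Perm (Fin 5) := IsFreeGroup.lift f
    have hF1 : F (IsFreeGroup.of g1) = σ := by
      simp [F, f]
    have hF2 : F (IsFreeGroup.of g2) = τ := by
      simp [F, f, hne.symm]
    have hcl : Subgroup.closure ({σ, τ} : Set (Equiv.Perm (Fin 5))) = ⊤ := by
      apply Equiv.Perm.closure_prime_cycle_swap
      · simp; norm_num
      · exact isCycle_finRotate
      · exact support_finRotate
      · exact ⟨0, 1, by decide, rfl⟩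
    have hsurj : Function.Surjective F := by
      rw [← MonoidHom.range_eq_top, eq_top_iff, ← hcl, Subgroup.closure_le]
      rintro z (rfl | hz)
      · exact ⟨_, hF1⟩
      · rw [Set.mem_singleton_iff] at hz
        subst hz
        exact ⟨_, hF2⟩
    exact Equiv.Perm.not_isSolvable_fin_5 (Group.isSolvable_of_surjective hsurj)

/-- Two elements of a free group which lie in a subgroup with a chain of three abelian steps
commute. -/
theorem comm_of_steps {G : Type*} [Group G] (F : Subgroup G) [IsFreeGroup F]
    (K0 K1 K2 : Subgroup G)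
    (h1 : ∀ x ∈ K0, ∀ y ∈ K0, x * y * x⁻¹ * y⁻¹ ∈ K1)
    (h2 : ∀ x ∈ K1, ∀ y ∈ K1, x * y * x⁻¹ * y⁻¹ ∈ K2)
    (h3 : ∀ x ∈ K2, ∀ y ∈ K2, x * y = y * x)
    (x y : G) (hx : x ∈ F) (hy : y ∈ F) (hx0 : x ∈ K0) (hy0 : y ∈ K0) : x * y = y * x := by
  let H : Subgroup F := Subgroup.comap F.subtype K0
  have hfree : IsFreeGroup H := inferInstance
  have hsol : Group.IsSolvable H := by
    refine ⟨⟨3, ?_⟩⟩
    let f : H →* G := F.subtype.comp H.subtype
    have hf : Function.Injective f := F.subtype_injective.comp H.subtype_injective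
    have s1 : derivedSeries H 1 ≤ Subgroup.comap f K1 := by
      rw [derivedSeries_succ, Subgroup.commutator_le]
      intro u _ v _
      rw [Subgroup.mem_comap, commutatorElement_def, map_mul, map_mul, map_mul, map_inv, map_inv]
      exact h1 _ u.2 _ v.2
    have s2 : derivedSeries H 2 ≤ Subgroup.comap f K2 := by
      rw [derivedSeries_succ, Subgroup.commutator_le]
      intro u hu v hv
      rw [Subgroup.mem_comap, commutatorElement_def, map_mul, map_mul, map_mul, map_inv, map_inv]
      exact h2 _ (s1 hu) _ (s1 hv)
    rw [derivedSeries_succ, eq_bot_iff, Subgroup.commutator_le]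
    intro u hu v hv
    rw [Subgroup.mem_bot, commutatorElement_eq_one_iff_mul_comm]
    apply hf
    rw [map_mul, map_mul]
    exact h3 _ (s2 hu) _ (s2 hv)
  have hc := comm_of_free_solvable hsol (⟨⟨x, hx⟩, hx0⟩ : H) (⟨⟨y, hy⟩, hy0⟩ : H)
  have h5 := congrArg (fun z : H => ((z : F) : G)) hc
  simpa using h5

/-- Free groups are torsion free. -/
theorem pow_ne_one_of_free {G : Type*} [Group G] (F : Subgroup G) [IsFreeGroup F] (x : G)
    (hx : x ∈ F) (n : ℕ) (hn : n ≠ 0) (h : x ^ n = 1) : x = 1 := by
  have e := IsFreeGroup.toFreeGroup F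
  have h1 : e (⟨x, hx⟩ : F) ^ n = 1 := by
    rw [← map_pow]
    have : (⟨x, hx⟩ : F) ^ n = 1 := by
      apply Subtype.ext
      simpa using h
    rw [this, map_one]
  have h2 : e (⟨x, hx⟩ : F) = 1 := by
    have h3 : e (⟨x, hx⟩ : F) ^ n = 1 ^ n := by rw [h1, one_pow]
    exact pow_left_injective hn h3
  have h4 : (⟨x, hx⟩ : F) = 1 := by
    apply e.injective
    rw [h2, map_one]
  exact congrArg (fun z : F => (z : G)) h4

end LSY
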