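import Mathlib
import Pool.Agent.LSY.Rep
import Pool.Agent.LSY.Grp

/-!
# Isometries that preserve an axis direction
-/

set_option autoImplicit false

open Quaternion

namespace LSY

/-- `p u = s (u p)` gives `(star p) u = s (u (star p))` for pure `u`, `s² = 1` -/
lemma star_comm {p u : ℍ[ℚ]} (hu : u.re = 0) {s : ℚ} (hs : s * s = 1)
    (h : p * u = s • (u * p)) : star p * u = s • (u * star p) := by
  have h1 := congrArg star h
  have hsu : star u = -u := by ext <;> simp [hu]
  rw [star_mul, Quaternion.star_smul, star_mul, hsu] at h1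
  have h2 : u * star p = s • (star p * u) := by
    have h3 : -(u * star p) = s • (-(star p * u)) := by
      simpa only [neg_mul, mul_neg] using h1
    rw [smul_neg] at h3
    exact neg_injective h3
  rw [h2, smul_smul, hs, one_smul]

/-- the isometries with `q u = ± u q` -/
def KS (u : ℍ[ℚ]) (hu : u.re = 0) : Subgroup (Equiv.Perm (Fin 3 → ℚ)) where
  carrier := {g | ∃ q q' s, Rep g q q' ∧ s * s = (1 : ℚ) ∧ q * u = s • (u * q)}
  mul_mem' := by
    rintro a b ⟨p, p', s, h1, h2, h3⟩ ⟨q, q', t, h4, h5, h6⟩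
    refine ⟨_, _, s * t, rep_mul h1 h4, ?_, ?_⟩
    · calc s * t * (s * t) = (s * s) * (t * t) := by ring
        _ = 1 := by rw [h2, h5, mul_one]
    · rw [mul_assoc, h6, mul_smul_comm, ← mul_assoc, h3, smul_mul_assoc, smul_smul, mul_assoc,
        mul_comm t s]
  one_mem' := ⟨1, 0, 1, rep_one, one_mul 1, by simp⟩
  inv_mem' := by
    rintro a ⟨p, p', s, h1, h2, h3⟩
    exact ⟨_, _, s, rep_inv h1, h2, star_comm hu h2 h3⟩

/-- the isometries with `q u = u q` -/
def KT (u : ℍ[ℚ]) (hu : u.re = 0) : Subgroup (Equiv.Perm (Fin 3 → ℚ)) where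
  carrier := {g | ∃ q q', Rep g q q' ∧ q * u = u * q}
  mul_mem' := by
    rintro a b ⟨p, p', h1, h3⟩ ⟨q, q', h4, h6⟩
    refine ⟨_, _, rep_mul h1 h4, ?_⟩
    rw [mul_assoc, h6, ← mul_assoc, h3, mul_assoc]
  one_mem' := ⟨1, 0, rep_one, by simp⟩
  inv_mem' := by
    rintro a ⟨p, p', h1, h3⟩
    refine ⟨_, _, rep_inv h1, ?_⟩
    have h := star_comm (p := p) hu (s := 1) (one_mul 1) (by rw [one_smul, h3])
    rw [one_smul] at h
    exact h

lemma vp_zero_iff {q : ℍ[ℚ]} : vp q = 0 ↔ q = (q.re : ℍ[ℚ]) := by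
  constructor
  · intro h
    have h1 := congrArg (fun z : ℍ[ℚ] => z.imI) h
    have h2 := congrArg (fun z : ℍ[ℚ] => z.imJ) h
    have h3 := congrArg (fun z : ℍ[ℚ] => z.imK) h
    simp only [vp] at h1 h2 h3
    ext
    · simp
    · simpa using h1
    · simpa using h2
    · simpa using h3
  · intro h
    rw [h]
    ext <;> simp [vp]

lemma vp_star {q : ℍ[ℚ]} : vp (star q) = - vp q := by
  ext <;> simp [vp]

lemma vp_mul_real {p q : ℍ[ℚ]} (hp : vp p = 0) (hq : vp q = 0) : vp (p * q) = 0 := by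
  rw [vp_zero_iff] at hp hq
  rw [hp, hq]
  ext <;> simp [vp]

/-- the translations -/
def KU : Subgroup (Equiv.Perm (Fin 3 → ℚ)) where
  carrier := {g | ∃ q q', Rep g q q' ∧ vp q = 0}
  mul_mem' := by
    rintro a b ⟨p, p', h1, h3⟩ ⟨q, q', h4, h6⟩
    exact ⟨_, _, rep_mul h1 h4, vp_mul_real h3 h6⟩
  one_mem' := ⟨1, 0, rep_one, by ext <;> simp [vp]⟩
  inv_mem' := by
    rintro a ⟨p, p', h1, h3⟩
    exact ⟨_, _, rep_inv h1, by rw [vp_star, h3, neg_zero]⟩

lemma trans_of_KU {g : Equiv.Perm (Fin 3 → ℚ)} (h : g ∈ KU) : ∃ w, ∀ z, g z = z + w := by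
  obtain ⟨q, q', h1, h2⟩ := h
  have h3 := vp_zero_iff.1 h2
  have hq : q.re ≠ 0 := by
    intro h0
    apply h1.1
    rw [h3, h0]
    rfl
  have hc : ∀ x : ℍ[ℚ], x * q = q.re • x := by
    intro x
    rw [h3]
    ext <;> simp [mul_comm]
  have hc' : ∀ x : ℍ[ℚ], q * x = q.re • x := by
    intro x
    rw [h3]
    ext <;> simp
  have key : ∀ z, pq (g z) = pq z + q.re⁻¹ • ((2 : ℚ) • q') := by
    intro z
    have h4 := h1.2 z
    rw [hc, hc'] at h4
    have h5 : q.re⁻¹ • (q.re • pq (g z)) = q.re⁻¹ • (q.re • pq z + (2 : ℚ) • q') := by rw [h4]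
    rw [inv_smul_smul₀ hq, smul_add, inv_smul_smul₀ hq] at h5
    exact h5
  refine ⟨qv (q.re⁻¹ • ((2 : ℚ) • q')), fun z => pq_inj ?_⟩
  rw [pq_add, key, pq_qv]
  have h6 := key 0
  rw [pq_zero, zero_add] at h6
  rw [← h6]
  rfl

lemma comm_of_KU {g h : Equiv.Perm (Fin 3 → ℚ)} (hg : g ∈ KU) (hh : h ∈ KU) :
    g * h = h * g := by
  obtain ⟨w, hw⟩ := trans_of_KU hg
  obtain ⟨v, hv⟩ := trans_of_KU hh
  ext z i
  rw [Equiv.Perm.mul_apply, Equiv.Perm.mul_apply, hw, hv, hv, hw, add_assoc, add_assoc,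
    add_comm v w]

/-- commuting with a nonzero pure quaternion means to be parallel to it -/
lemma par_of_comm {p u : ℍ[ℚ]} (h : p * u = u * p) :
    p.imJ * u.imK - p.imK * u.imJ = 0 ∧ p.imK * u.imI - p.imI * u.imK = 0 ∧
      p.imI * u.imJ - p.imJ * u.imI = 0 := by
  have h1 := congrArg (fun z : ℍ[ℚ] => z.imI) h
  have h2 := congrArg (fun z : ℍ[ℚ] => z.imJ) h
  have h3 := congrArg (fun z : ℍ[ℚ] => z.imK) h
  simp at h1 h2 h3
  refine ⟨by linarith, by linarith, by linarith⟩

lemma comm_of_comm {p q u : ℍ[ℚ]} (hu : vp u ≠ 0) (hp : p * u = u * p) (hq : q * u = u * q) :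
    p * q = q * p := by
  have hD := nrm_pos hu
  simp only [vp] at hD
  have hD' : 0 < u.imI ^ 2 + u.imJ ^ 2 + u.imK ^ 2 := by linarith
  obtain ⟨p1, p2, p3⟩ := par_of_comm hp
  obtain ⟨q1, q2, q3⟩ := par_of_comm hq
  set D := u.imI ^ 2 + u.imJ ^ 2 + u.imK ^ 2 with hDd
  set c := p.imI * u.imI + p.imJ * u.imJ + p.imK * u.imK with hc
  set d := q.imI * u.imI + q.imJ * u.imJ + q.imK * u.imK with hd
  have a1 : D * p.imI = c * u.imI := by rw [hDd, hc]; linear_combination u.imJ * p3 - u.imK * p2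
  have a2 : D * p.imJ = c * u.imJ := by rw [hDd, hc]; linear_combination u.imK * p1 - u.imI * p3
  have a3 : D * p.imK = c * u.imK := by rw [hDd, hc]; linear_combination u.imI * p2 - u.imJ * p1
  have b1 : D * q.imI = d * u.imI := by rw [hDd, hd]; linear_combination u.imJ * q3 - u.imK * q2
  have b2 : D * q.imJ = d * u.imJ := by rw [hDd, hd]; linear_combination u.imK * q1 - u.imI * q3
  have b3 : D * q.imK = d * u.imK := by rw [hDd, hd]; linear_combination u.imI * q2 - u.imJ * q1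
  have hD2 : D ^ 2 ≠ 0 := (pow_pos hD' 2).ne'
  have e1 : p.imJ * q.imK - p.imK * q.imJ = 0 := by
    apply mul_left_cancel₀ hD2
    linear_combination (D * q.imK) * a2 + (c * u.imJ) * b3 - (D * q.imJ) * a3 - (c * u.imK) * b2
  have e2 : p.imK * q.imI - p.imI * q.imK = 0 := by
    apply mul_left_cancel₀ hD2
    linear_combination (D * q.imI) * a3 + (c * u.imK) * b1 - (D * q.imK) * a1 - (c * u.imI) * b3
  have e3 : p.imI * q.imJ - p.imJ * q.imI = 0 := by
    apply mul_left_cancel₀ hD2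
    linear_combination (D * q.imJ) * a1 + (c * u.imI) * b2 - (D * q.imI) * a2 - (c * u.imJ) * b1
  ext
  · simp
    ring
  · simp
    linear_combination 2 * e1
  · simp
    linear_combination 2 * e2
  · simp
    linear_combination 2 * e3

/-- two elements of a free group which preserve the same direction commute -/
lemma comm_of_KS (F : Subgroup (Equiv.Perm (Fin 3 → ℚ))) [IsFreeGroup F] (u : ℍ[ℚ])
    (hu : u.re = 0) (hu0 : u ≠ 0) (x y : Equiv.Perm (Fin 3 → ℚ)) (hx : x ∈ F) (hy : y ∈ F)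
    (hx0 : x ∈ KS u hu) (hy0 : y ∈ KS u hu) : x * y = y * x := by
  have hvu : vp u = u := by ext <;> simp [vp, hu]
  refine comm_of_steps F (KS u hu) (KT u hu) KU ?_ ?_ (fun x hx y hy => comm_of_KU hx hy) x y hx hy
    hx0 hy0
  · rintro x ⟨p, p', s, h1, h2, h3⟩ y ⟨q, q', t, h4, h5, h6⟩
    refine ⟨_, _, rep_mul (rep_mul (rep_mul h1 h4) (rep_inv h1)) (rep_inv h4), ?_⟩
    have h7 := star_comm hu h2 h3
    have h8 := star_comm hu h5 h6
    calc p * q * star p * star q * u = p * (q * (star p * (star q * u))) := by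
          simp only [mul_assoc]
      _ = (t * s * t * s) • (u * (p * (q * (star p * star q)))) := by
          rw [h8, mul_smul_comm, ← mul_assoc (star p), h7, smul_mul_assoc, mul_smul_comm,
            mul_smul_comm, mul_smul_comm, mul_smul_comm, mul_assoc u, ← mul_assoc q u, h6,
            smul_mul_assoc, mul_smul_comm, mul_assoc u, ← mul_assoc p u, h3, smul_mul_assoc,
            mul_assoc u, smul_smul, smul_smul, smul_smul]
      _ = u * (p * q * star p * star q) := by
          have : t * s * t * s = 1 := by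
            calc t * s * t * s = (s * s) * (t * t) := by ring
              _ = 1 := by rw [h2, h5, mul_one]
          rw [this, one_smul]
          simp only [mul_assoc]
  · rintro x ⟨p, p', h1, h3⟩ y ⟨q, q', h4, h6⟩
    refine ⟨_, _, rep_mul (rep_mul (rep_mul h1 h4) (rep_inv h1)) (rep_inv h4), ?_⟩
    have h7 := comm_of_comm (by rw [hvu]; exact hu0) h3 h6
    have h8 : p * q * star p * star q = (nr p * nr q) • (1 : ℍ[ℚ]) := by
      rw [h7, mul_assoc q, mul_star_self', mul_smul_comm, mul_one, smul_mul_assoc,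
        mul_star_self', smul_smul]
    rw [h8]
    ext <;> simp [vp]

end LSY
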