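import Mathlib
import Pool.Agent.LSY.Stab

/-!
# Consequences of freeness
-/

set_option autoImplicit false

open Quaternion

namespace LSY

lemma rep_pow {g : Equiv.Perm (Fin 3 → ℚ)} {q q' : ℍ[ℚ]} (h : Rep g q q') (n : ℕ) :
    ∃ r', Rep (g ^ n) (q ^ n) r' := by
  induction n with
  | zero => exact ⟨0, by rw [pow_zero, pow_zero]; exact rep_one⟩
  | succ n ih =>
    obtain ⟨r', hr⟩ := ih
    refine ⟨q ^ n * q' + r' * q, ?_⟩
    rw [pow_succ, pow_succ]
    exact rep_mul hr h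

/-- `g` commutes with the translation by `w`: its rotation fixes `w` -/
lemma comm_trans {g t : Equiv.Perm (Fin 3 → ℚ)} {q q' : ℍ[ℚ]} (h : Rep g q q') {w : Fin 3 → ℚ}
    (ht : ∀ z, t z = z + w) (hc : g * t = t * g) : q * pq w = pq w * q := by
  have h1 : g (0 + w) = g 0 + w := by
    have := congrArg (fun f : Equiv.Perm (Fin 3 → ℚ) => f 0) hc
    simp only [Equiv.Perm.mul_apply] at this
    rw [ht, ht] at this
    exact this
  have h2 := h.2 (0 + w)
  have h3 := h.2 0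
  rw [h1, pq_add, pq_add, add_mul, h3, mul_add] at h2
  have h4 : q * pq 0 + (2 : ℚ) • q' + pq w * q = q * pq 0 + (2 : ℚ) • q' + q * pq w := by
    rw [h2]
    abel
  exact (add_left_cancel h4).symm

lemma mem_KS_of_comm {g : Equiv.Perm (Fin 3 → ℚ)} {q q' : ℍ[ℚ]} (h : Rep g q q') {u : ℍ[ℚ]}
    (hu : u.re = 0) (hc : q * u = u * q) : g ∈ KS u hu :=
  ⟨q, q', 1, h, one_mul 1, by rw [one_smul, hc]⟩

lemma mem_KS_of_neg {g : Equiv.Perm (Fin 3 → ℚ)} {q q' : ℍ[ℚ]} (h : Rep g q q') {u : ℍ[ℚ]}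
    (hu : u.re = 0) (hc : q * u = -(u * q)) : g ∈ KS u hu :=
  ⟨q, q', -1, h, by norm_num, by rw [neg_smul, one_smul, hc]⟩

lemma vp_comm (q : ℍ[ℚ]) : q * vp q = vp q * q := by
  ext
  · simp [vp]
  · simp [vp]
    ring
  · simp [vp]
    ring
  · simp [vp]
    ring

theorem geo_facts (F : Subgroup (Equiv.Perm (Fin 3 → ℚ))) [IsFreeGroup F]
    (a : Equiv.Perm (Fin 3 → ℚ)) (haF : a ∈ F) (ha : ∀ x, a x ≠ x)
    (s : Equiv.Perm (Fin 3 → ℚ)) (hsF : s ∈ F) (hsP : Proper s) (hs : ¬ a * s = s * a)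
    {α α' : ℍ[ℚ]}
    (hα : Rep a α α') :
    vp (α ^ 12) ≠ 0 ∧ α'.re ≠ 0 ∧ ∀ σ σ', Rep s σ σ' →
      ¬ σ * vp α = vp α * σ ∧ ¬ σ * vp α = -(vp α * σ) := by
  have h12 : vp (α ^ 12) ≠ 0 := by
    intro h0
    obtain ⟨r', hr⟩ := rep_pow hα 12
    have htU : a ^ 12 ∈ KU := ⟨_, _, hr, h0⟩
    obtain ⟨w, hw⟩ := trans_of_KU htU
    have ht1 : a ^ 12 ≠ 1 := by
      intro h1
      have := pow_ne_one_of_free F a haF 12 (by norm_num) h1
      apply ha 0
      rw [this]
      rfl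
    have hw0 : w ≠ 0 := by
      intro h1
      apply ht1
      ext z i
      rw [hw, h1, add_zero]
      rfl
    have hpw : pq w ≠ 0 := by
      intro h1
      apply hw0
      apply pq_inj
      rw [h1, pq_zero]
    have htF : a ^ 12 ∈ F := F.pow_mem haF 12
    obtain ⟨σ, σ', hσ⟩ := rep_of_proper hsP
    -- `s` commutes with the translation
    have hcs : s * a ^ 12 = a ^ 12 * s := by
      have htrep : ∀ u : ℍ[ℚ], ∀ hu : u.re = 0, a ^ 12 ∈ KS u hu := by
        intro u hu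
        refine mem_KS_of_comm hr hu ?_
        rw [vp_zero_iff.1 h0]
        exact Quaternion.coe_commutes _ _
      by_cases hv : vp σ = 0
      · have hs' : s ∈ KS (pq w) rfl := by
          refine mem_KS_of_comm hσ rfl ?_
          rw [vp_zero_iff.1 hv]
          exact Quaternion.coe_commutes _ _
        exact comm_of_KS F (pq w) rfl hpw _ _ hsF htF hs' (htrep _ _)
      · exact comm_of_KS F (vp σ) rfl hv _ _ hsF htF (mem_KS_of_comm hσ rfl (vp_comm σ))
          (htrep _ _)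
    have h1 := comm_trans hσ hw hcs
    have h2 := comm_trans hα hw (by rw [← pow_succ', ← pow_succ])
    exact hs (comm_of_KS F (pq w) rfl hpw _ _ haF hsF (mem_KS_of_comm hα rfl h2)
      (mem_KS_of_comm hσ rfl h1))
  have hv : vp α ≠ 0 := by
    intro h0
    apply h12
    have : ∀ n : ℕ, vp (α ^ n) = 0 := by
      intro n
      induction n with
      | zero => rw [pow_zero]; ext <;> simp [vp]
      | succ n ih => rw [pow_succ]; exact vp_mul_real ih h0
    exact this 12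
  refine ⟨h12, ?_, ?_⟩
  · intro h0
    obtain ⟨x, hx⟩ := rep_exists_fixed hα hv h0
    exact ha x hx
  · intro σ σ' hσ
    have haK := mem_KS_of_comm hα (u := vp α) rfl (vp_comm α)
    constructor
    · intro h
      exact hs (comm_of_KS F (vp α) rfl hv _ _ haF hsF haK (mem_KS_of_comm hσ rfl h))
    · intro h
      exact hs (comm_of_KS F (vp α) rfl hv _ _ haF hsF haK (mem_KS_of_neg hσ rfl h))

end LSY
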