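import Mathlib
import Pool.Agent.LSY.Rep

/-!
# The place at which a rotation is hyperbolic
-/

set_option autoImplicit false

open Quaternion Polynomial

namespace LSY

lemma one_lt_norm_of_den {p : ℕ} [hp : Fact p.Prime] (c : ℚ) (h : p ∣ c.den) :
    1 < ‖(c : ℚ_[p])‖ := by
  have hcop : ¬ (p : ℤ) ∣ c.num := by
    intro h1
    have h2 : p ∣ c.num.natAbs := Int.natCast_dvd.1 h1
    have h3 := Nat.dvd_gcd h2 h
    rw [c.reduced] at h3
    exact hp.out.one_lt.ne' (Nat.dvd_one.1 h3)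
  have h1 : ‖((c.num : ℤ) : ℚ_[p])‖ = 1 := by
    apply le_antisymm (Padic.norm_int_le_one _)
    by_contra hlt
    push Not at hlt
    exact hcop ((Padic.norm_intCast_lt_one_iff).1 hlt)
  have h2 : ‖((c.den : ℤ) : ℚ_[p])‖ < 1 :=
    (Padic.norm_intCast_lt_one_iff).2 (by exact_mod_cast h)
  have hden : (c.den : ℚ_[p]) ≠ 0 := by exact_mod_cast c.den_ne_zero
  have h3 : (c : ℚ_[p]) * (c.den : ℚ_[p]) = (c.num : ℚ_[p]) := by
    have := Rat.mul_den_eq_num c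
    exact_mod_cast this
  have h4 : ‖(c : ℚ_[p])‖ * ‖(c.den : ℚ_[p])‖ = 1 := by
    rw [← norm_mul, h3, h1]
  rw [Int.cast_natCast] at h2
  have h5 : 0 < ‖(c.den : ℚ_[p])‖ := norm_pos_iff.2 hden
  by_contra hle
  push Not at hle
  have h6 : ‖(c : ℚ_[p])‖ * ‖(c.den : ℚ_[p])‖ ≤ 1 * ‖(c.den : ℚ_[p])‖ :=
    mul_le_mul_of_nonneg_right hle h5.le
  linarith

/-- Hensel -/
lemma hens {p : ℕ} [hp : Fact p.Prime] (w : ℤ_[p]) (hw : ‖w‖ < 1) :
    ∃ z : ℤ_[p], z ^ 2 - z + w = 0 ∧ ‖z - 1‖ < 1 := by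
  have e1 : ∀ a : ℤ_[p], Polynomial.aeval a (X ^ 2 - X + C w : ℤ_[p][X]) = a ^ 2 - a + w := by
    intro a
    rw [map_add, map_sub, map_pow, aeval_X, aeval_C]
    rfl
  have e2 : ∀ a : ℤ_[p], Polynomial.aeval a (derivative (X ^ 2 - X + C w : ℤ_[p][X])) =
      2 * a - 1 := by
    intro a
    rw [derivative_add, derivative_sub, derivative_C, derivative_X, derivative_X_pow, add_zero,
      map_sub, map_mul, aeval_C, map_pow, aeval_X, map_one]
    norm_num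
  obtain ⟨z, hz, hz1, -⟩ := @hensels_lemma p _ ℤ_[p] _ _ (X ^ 2 - X + C w) 1 (by
    rw [e1, e2]
    have h3 : (2 : ℤ_[p]) * 1 - 1 = 1 := by norm_num
    have h4 : (1 : ℤ_[p]) ^ 2 - 1 + w = w := by ring
    rw [h3, h4, norm_one, one_pow]
    exact hw)
  rw [e1] at hz
  rw [e2] at hz1
  refine ⟨z, hz, ?_⟩
  have h3 : (2 : ℤ_[p]) * 1 - 1 = 1 := by norm_num
  rw [h3, norm_one] at hz1
  exact hz1

/-- a root of `X² - c X + 1` of norm `> 1` -/
lemma exists_lam {p : ℕ} [hp : Fact p.Prime] (c : ℚ) (h : p ∣ c.den) :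
    ∃ l : ℚ_[p], l ^ 2 - c * l + 1 = 0 ∧ 1 < ‖l‖ := by
  have hc := one_lt_norm_of_den c h
  have hc0 : (c : ℚ_[p]) ≠ 0 := by
    intro h0
    rw [h0, norm_zero] at hc
    linarith
  have hw : ‖((c : ℚ_[p]) ^ 2)⁻¹‖ < 1 := by
    rw [norm_inv, norm_pow]
    apply inv_lt_one_of_one_lt₀
    exact one_lt_pow₀ hc (by norm_num)
  obtain ⟨w, hwe⟩ : ∃ w : ℤ_[p], (w : ℚ_[p]) = ((c : ℚ_[p]) ^ 2)⁻¹ := ⟨⟨_, hw.le⟩, rfl⟩
  have hwn : ‖w‖ < 1 := by
    rw [PadicInt.norm_def, hwe]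
    exact hw
  obtain ⟨z, hz0, hz1⟩ := hens w hwn
  have hzn : ‖(z : ℚ_[p])‖ = 1 := by
    have h1 : ‖z‖ = 1 := by
      by_contra hne
      have hle : ‖z‖ ≤ 1 := z.norm_le_one
      have hlt : ‖z‖ < 1 := lt_of_le_of_ne hle hne
      have h2 : ‖(1 : ℤ_[p])‖ < 1 := by
        have : (1 : ℤ_[p]) = z - (z - 1) := by ring
        rw [this, sub_eq_add_neg z (z - 1)]
        refine lt_of_le_of_lt (PadicInt.nonarchimedean z (-(z - 1))) ?_
        rw [norm_neg]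
        exact max_lt hlt hz1
      rw [norm_one] at h2
      exact lt_irrefl _ h2
    exact h1
  have hz2 : (z : ℚ_[p]) ^ 2 - z + ((c : ℚ_[p]) ^ 2)⁻¹ = 0 := by
    have := congrArg (fun x : ℤ_[p] => (x : ℚ_[p])) hz0
    rw [← hwe]
    simpa using this
  refine ⟨c * z, ?_, ?_⟩
  · have h1 : (c : ℚ_[p]) ^ 2 * ((z : ℚ_[p]) ^ 2 - z + ((c : ℚ_[p]) ^ 2)⁻¹) = 0 := by
      rw [hz2, mul_zero]
    rw [mul_add, mul_inv_cancel₀ (pow_ne_zero 2 hc0)] at h1
    linear_combination h1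
  · rw [norm_mul, hzn, mul_one]
    exact hc

lemma place (t D : ℚ) (hD : 0 < D) (hint : ¬ ∃ m : ℤ, 2 * (t ^ 2 - D) / (t ^ 2 + D) = m) :
    ∃ (p : ℕ) (_ : Fact p.Prime) (δ : ℚ_[p]), δ ^ 2 = -(D : ℚ_[p]) ∧
      ‖(t : ℚ_[p]) - δ‖ < ‖(t : ℚ_[p]) + δ‖ := by
  have hN : 0 < t ^ 2 + D := by positivity
  have ht : t ≠ 0 := by
    rintro rfl
    apply hint
    refine ⟨-2, ?_⟩
    field_simp
    push_cast
    ring
  set c : ℚ := 2 * (t ^ 2 - D) / (t ^ 2 + D) with hc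
  have hden : c.den ≠ 1 := by
    intro h1
    exact hint ⟨c.num, ((Rat.den_eq_one_iff c).1 h1).symm⟩
  obtain ⟨p, hp, hpd⟩ := Nat.exists_prime_and_dvd hden
  have : Fact p.Prime := ⟨hp⟩
  obtain ⟨l, hl, hl1⟩ := exists_lam (p := p) c hpd
  have hl0 : l ≠ 0 := by
    intro h0
    rw [h0, norm_zero] at hl1
    linarith
  have hlp : l + 1 ≠ 0 := by
    intro h0
    have : l = -1 := eq_neg_of_add_eq_zero_left h0
    rw [this, norm_neg, norm_one] at hl1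
    exact lt_irrefl _ hl1
  have htp : (t : ℚ_[p]) ≠ 0 := by exact_mod_cast ht
  have h2p : (2 : ℚ_[p]) ≠ 0 := two_ne_zero
  have hNp : (t : ℚ_[p]) ^ 2 + (D : ℚ_[p]) ≠ 0 := by exact_mod_cast hN.ne'
  have hcp : (c : ℚ_[p]) * ((t : ℚ_[p]) ^ 2 + D) = 2 * ((t : ℚ_[p]) ^ 2 - D) := by
    have h1 : c * (t ^ 2 + D) = 2 * (t ^ 2 - D) := by
      rw [hc]
      field_simp
    exact_mod_cast h1
  refine ⟨p, this, t * (l - 1) / (l + 1), ?_, ?_⟩
  · have key : ((t : ℚ_[p]) ^ 2 * (l - 1) ^ 2 + D * (l + 1) ^ 2) * ((t : ℚ_[p]) ^ 2 + D) = 0 := by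
      linear_combination (((t : ℚ_[p]) ^ 2 + D) ^ 2) * hl + (((t : ℚ_[p]) ^ 2 + D) * l) * hcp
    have h3 : (t : ℚ_[p]) ^ 2 * (l - 1) ^ 2 + D * (l + 1) ^ 2 = 0 :=
      (mul_eq_zero.1 key).resolve_right hNp
    rw [div_pow, div_eq_iff (pow_ne_zero 2 hlp), mul_pow]
    linear_combination h3
  · have e1 : (t : ℚ_[p]) - t * (l - 1) / (l + 1) = 2 * t / (l + 1) := by
      field_simp
      ring
    have e2 : (t : ℚ_[p]) + t * (l - 1) / (l + 1) = 2 * t / (l + 1) * l := by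
      field_simp
      ring
    rw [e1, e2, norm_mul]
    have h4 : 0 < ‖2 * (t : ℚ_[p]) / (l + 1)‖ :=
      norm_pos_iff.2 (div_ne_zero (mul_ne_zero h2p htp) hlp)
    calc ‖2 * (t : ℚ_[p]) / (l + 1)‖ = ‖2 * (t : ℚ_[p]) / (l + 1)‖ * 1 := (mul_one _).symm
      _ < _ := mul_lt_mul_of_pos_left hl1 h4

/-- `a + b v` -/
def lin (a b : ℚ) (v : ℍ[ℚ]) : ℍ[ℚ] := ⟨a, b * v.imI, b * v.imJ, b * v.imK⟩

lemma lin_mul (a b c d : ℚ) (v : ℍ[ℚ]) : lin a b v * lin c d v =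
    lin (a * c - b * d * (v.imI ^ 2 + v.imJ ^ 2 + v.imK ^ 2)) (a * d + b * c) v := by
  ext
  · simp [lin]
    ring
  · simp [lin]
    ring
  · simp [lin]
    ring
  · simp [lin]
    ring

lemma vp12 (q : ℍ[ℚ]) (h : ∃ m : ℤ, 2 * (q.re ^ 2 - (q.imI ^ 2 + q.imJ ^ 2 + q.imK ^ 2)) /
    (q.re ^ 2 + (q.imI ^ 2 + q.imJ ^ 2 + q.imK ^ 2)) = m) : vp (q ^ 12) = 0 := by
  set t := q.re with ht
  set D := q.imI ^ 2 + q.imJ ^ 2 + q.imK ^ 2 with hD
  have hD0 : 0 ≤ D := by rw [hD]; positivity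
  have e1 : q = lin t 1 q := by
    ext <;> simp [lin, ht]
  have e3 : q ^ 3 = lin (t ^ 3 - 3 * t * D) (3 * t ^ 2 - D) q := by
    calc q ^ 3 = q * q * q := by rw [pow_succ, pow_two]
      _ = lin t 1 q * lin t 1 q * lin t 1 q := by rw [← e1]
      _ = _ := by
        rw [lin_mul, lin_mul, ← hD]
        congr 1 <;> ring
  have e12 : q ^ 12 = lin (((t ^ 3 - 3 * t * D) ^ 2 - (3 * t ^ 2 - D) ^ 2 * D) ^ 2 -
      (2 * (t ^ 3 - 3 * t * D) * (3 * t ^ 2 - D)) ^ 2 * D)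
      (4 * ((t ^ 2 - D) * (t ^ 4 - 14 * t ^ 2 * D + D ^ 2) * (t * (t ^ 2 - 3 * D) *
        (3 * t ^ 2 - D)))) q := by
    calc q ^ 12 = (q ^ 3 * q ^ 3) * (q ^ 3 * q ^ 3) := by
          rw [← pow_add, ← pow_add]
      _ = _ := by
        rw [e3, lin_mul, lin_mul, ← hD]
        congr 1 <;> ring
  have hfin : (4 * ((t ^ 2 - D) * (t ^ 4 - 14 * t ^ 2 * D + D ^ 2) * (t * (t ^ 2 - 3 * D) *
        (3 * t ^ 2 - D)))) = 0 ∨ D = 0 := by
    by_cases hD1 : D = 0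
    · exact Or.inr hD1
    left
    have hD2 : 0 < D := lt_of_le_of_ne hD0 (Ne.symm hD1)
    obtain ⟨m, hm⟩ := h
    have hN : 0 < t ^ 2 + D := by positivity
    rw [div_eq_iff hN.ne'] at hm
    have h1 : (m : ℚ) * (t ^ 2 + D) ≤ 2 * (t ^ 2 + D) := by
      rw [← hm]
      linarith
    have h2 : -2 * (t ^ 2 + D) ≤ (m : ℚ) * (t ^ 2 + D) := by
      rw [← hm]
      nlinarith [sq_nonneg t]
    have h3 : (m : ℚ) ≤ 2 := le_of_mul_le_mul_right h1 hN
    have h4 : (-2 : ℚ) ≤ m := le_of_mul_le_mul_right h2 hN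
    have h5 : m ≤ 2 := by exact_mod_cast h3
    have h6 : -2 ≤ m := by exact_mod_cast h4
    interval_cases m
    · have : t ^ 2 = 0 := by
        push_cast at hm
        linarith
      have ht0 : t = 0 := by simpa using this
      rw [ht0]
      ring
    · have : 3 * t ^ 2 - D = 0 := by
        push_cast at hm
        linarith
      rw [this]
      ring
    · have : t ^ 2 - D = 0 := by
        push_cast at hm
        linarith
      rw [this]
      ring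
    · have : t ^ 2 - 3 * D = 0 := by
        push_cast at hm
        linarith
      rw [this]
      ring
    · exfalso
      push_cast at hm
      linarith
  rcases hfin with h0 | h0
  · rw [e12, h0]
    ext <;> simp [vp, lin]
  · have hI : q.imI = 0 := by
      have h1 := sq_nonneg q.imI
      have h2 := sq_nonneg q.imJ
      have h3 := sq_nonneg q.imK
      have : q.imI ^ 2 = 0 := by rw [hD] at h0; linarith
      simpa using this
    have hJ : q.imJ = 0 := by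
      have h1 := sq_nonneg q.imI
      have h2 := sq_nonneg q.imJ
      have h3 := sq_nonneg q.imK
      have : q.imJ ^ 2 = 0 := by rw [hD] at h0; linarith
      simpa using this
    have hK : q.imK = 0 := by
      have h1 := sq_nonneg q.imI
      have h2 := sq_nonneg q.imJ
      have h3 := sq_nonneg q.imK
      have : q.imK ^ 2 = 0 := by rw [hD] at h0; linarith
      simpa using this
    rw [e12]
    ext <;> simp [vp, lin, hI, hJ, hK]

end LSY
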