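import Mathlib
import Pool.Agent.LSY.Core

/-!
# Long syllables: positive exponents
-/

set_option autoImplicit false

open Quaternion

namespace LSY

noncomputable section

variable {p : ℕ} [Fact p.Prime]

/-- the product of the syllables -/
def QQ (p : ℕ) [Fact p.Prime] (α α' : ℍ[ℚ]) (L : List (ℕ × (ℍ[ℚ] × ℍ[ℚ]))) : ℍ[DN p] :=
  (L.map fun t => dq p α α' ^ t.1 * dq p t.2.1 t.2.2).prod

lemma QQ_eq {α α' : ℍ[ℚ]} {δ : ℚ_[p]} (hδ : δ ≠ 0) (h : δ ^ 2 = -(DD α : ℚ_[p]))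
    (hmu : fs (mu α α' δ) ≠ 0) (L : List (ℕ × (ℍ[ℚ] × ℍ[ℚ]))) :
    QQ p α α' L = mu α α' δ ^ (L.map Prod.fst).sum •
      Pr (ee α α' δ) (L.map fun t => ((mv α α' δ * iv (mu α α' δ)) ^ t.1, dq p t.2.1 t.2.2)) := by
  have he := ee_idem (α' := α') hδ h
  induction L with
  | nil =>
    simp [QQ, Pr]
  | cons t L ih =>
    have e1 : QQ p α α' (t :: L) = dq p α α' ^ t.1 * dq p t.2.1 t.2.2 * QQ p α α' L := by
      simp [QQ]
    have e2 : dq p α α' ^ t.1 = mu α α' δ ^ t.1 • (ee α α' δ +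
        (mv α α' δ * iv (mu α α' δ)) ^ t.1 • star (ee α α' δ)) := by
      rw [pow_split he (split hδ), smul_add, smul_smul, ← mul_pow]
      congr 3
      calc mv α α' δ = mv α α' δ * (iv (mu α α' δ) * mu α α' δ) := by rw [iv_mul hmu, mul_one]
        _ = _ := by ring
    rw [e1, ih, e2, List.map_cons, List.sum_cons, List.map_cons]
    simp only [Pr, List.map_cons, List.prod_cons, smul_mul_assoc, mul_smul_comm, smul_smul,
      pow_add]
    rw [mul_comm (mu α α' δ ^ t.1)]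

lemma sum_ge_len (L : List (ℕ × (ℍ[ℚ] × ℍ[ℚ]))) (C : ℝ) (h : ∀ t ∈ L, C ≤ (t.1 : ℝ)) :
    C * L.length ≤ ((L.map Prod.fst).sum : ℕ) := by
  induction L with
  | nil => simp
  | cons t L ih =>
    have h1 := ih fun s hs => h s (List.mem_cons_of_mem _ hs)
    have h2 := h t List.mem_cons_self
    rw [List.map_cons, List.sum_cons, List.length_cons]
    push_cast at h1 ⊢
    linarith

lemma real_part (lam C C2 R N : ℝ) (hC2 : 0 < C2) (hR : 1 ≤ R) (hN : 1 ≤ N)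
    (hW : 2 + C2 * R ^ 11 + R ^ 11 ≤ lam * C) :
    R * Real.exp (-(lam * (C * (1 + Real.log N)))) * R ^ 9 * ((C2 + 1) * N ^ 2) < 1 ∧
    R * Real.exp (-(lam * (C * (1 + Real.log N)))) * R ^ 9 < 1 ∧
    R * Real.exp (-(lam * (C * (1 + Real.log N)))) * R ^ 8 ≤ 1 := by
  have hlogN : 0 ≤ Real.log N := Real.log_nonneg hN
  have hNpos : 0 < N := by linarith
  have hR0 : 0 < R := by linarith
  have hR11 : 0 < R ^ 11 := pow_pos hR0 11
  have hCR : 0 < C2 * R ^ 11 := mul_pos hC2 hR11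
  have hN2 : 1 ≤ N ^ 2 := one_le_pow₀ hN
  generalize hx : lam * (C * (1 + Real.log N)) = x
  have hx' : x = lam * C + lam * C * Real.log N := by rw [← hx]; ring
  have h3 : 3 + C2 * R ^ 11 + R ^ 11 ≤ Real.exp (lam * C) := by
    have := Real.add_one_le_exp (lam * C)
    linarith
  have h4 : N ^ 2 ≤ Real.exp (lam * C * Real.log N) := by
    have h5 : N ^ 2 = Real.exp (2 * Real.log N) := by
      rw [mul_comm, Real.exp_mul, Real.exp_log hNpos]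
      norm_num
    rw [h5]
    apply Real.exp_le_exp.2
    apply mul_le_mul_of_nonneg_right _ hlogN
    linarith
  have h5 : (3 + C2 * R ^ 11 + R ^ 11) * N ^ 2 ≤ Real.exp x := by
    rw [hx', Real.exp_add]
    exact mul_le_mul h3 h4 (by linarith) (Real.exp_pos _).le
  have h6 := Real.exp_pos x
  have h7 : Real.exp (-x) * Real.exp x = 1 := by
    rw [← Real.exp_add, neg_add_cancel, Real.exp_zero]
  have h8 := Real.exp_pos (-x)
  have h9 : Real.exp (-x) * ((3 + C2 * R ^ 11 + R ^ 11) * N ^ 2) ≤ 1 := by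
    rw [← h7]
    exact mul_le_mul_of_nonneg_left h5 h8.le
  have hR1011 : R ^ 10 ≤ R ^ 11 := pow_le_pow_right₀ hR (by norm_num)
  have hR10 : 0 < R ^ 10 := pow_pos hR0 10
  have h10 : R * Real.exp (-x) * R ^ 9 * ((C2 + 1) * N ^ 2) < 1 := by
    have e : R * Real.exp (-x) * R ^ 9 * ((C2 + 1) * N ^ 2) =
        Real.exp (-x) * ((R ^ 10 * (C2 + 1)) * N ^ 2) := by ring
    rw [e]
    refine lt_of_lt_of_le ?_ h9
    apply mul_lt_mul_of_pos_left _ h8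
    apply mul_lt_mul_of_pos_right _ (by linarith)
    have h2 : R ^ 10 * (C2 + 1) ≤ R ^ 11 * (C2 + 1) :=
      mul_le_mul_of_nonneg_right hR1011 (by linarith)
    linarith
  have h11 : R * Real.exp (-x) * R ^ 9 < 1 := by
    refine lt_of_le_of_lt ?_ h10
    have h1 : 1 ≤ (C2 + 1) * N ^ 2 := by
      have : 0 ≤ C2 * N ^ 2 := mul_nonneg hC2.le (by linarith)
      linarith
    have h2 : 0 ≤ R * Real.exp (-x) * R ^ 9 := by positivity
    exact le_mul_of_one_le_right h2 h1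
  refine ⟨h10, h11, ?_⟩
  refine le_trans ?_ h11.le
  exact mul_le_mul_of_nonneg_left (pow_le_pow_right₀ hR (by norm_num)) (by positivity)

lemma padic_part {α α' : ℍ[ℚ]} (hD : 0 < DD α) (ho : α.re * α'.re + UU α α' = 0)
    {δ : ℚ_[p]} (hδ : δ ≠ 0) (h : δ ^ 2 = -(DD α : ℚ_[p])) (hadd0 : (α.re : ℚ_[p]) + δ ≠ 0)
    (T : Set (ℍ[ℚ] × ℍ[ℚ])) (hz : ∀ z ∈ T, cA z ≠ 0 ∨ cB α z ≠ 0) (R d : ℝ) (hR : 1 ≤ R)
    (hd : 0 ≤ d) (hd8 : d * R ^ 8 ≤ 1) (hd9 : d * R ^ 9 < 1)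
    (hqe : nq (ee (p := p) α α' δ) ≤ R) (hqe' : nq (star (ee (p := p) α α' δ)) ≤ R)
    (hnq : ∀ z ∈ T, nq (dq p z.1 z.2) ≤ R)
    (hiv : ∀ z ∈ T, nu (iv (cc (ee α α' δ) (dq p z.1 z.2))) ≤ R)
    (L : List (ℕ × (ℍ[ℚ] × ℍ[ℚ]))) (hL : L ≠ [])
    (hall : ∀ t ∈ L, t.2 ∈ T ∧ nu ((mv α α' δ * iv (mu α α' δ)) ^ t.1) ≤ d)
    (hsn : sn (QQ p α α' L).re = 0) :
    ‖(((L.map Prod.fst).sum : ℕ) : ℚ_[p]) * ((α'.re : ℚ_[p]) * δ⁻¹) +
      ((L.map fun t => xy α α' t.2).map (ev δ⁻¹)).sum‖ ≤ d * R ^ 9 := by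
  obtain ⟨hfsmu, hlgmu⟩ := lg_mu (α' := α') hδ ho hadd0
  have hfsmu0 : fs (mu α α' δ) ≠ 0 := by rw [hfsmu]; exact hadd0
  have he := ee_idem (α' := α') hδ h
  have hL'0 : (L.map fun t => ((mv α α' δ * iv (mu α α' δ)) ^ t.1, dq p t.2.1 t.2.2)) ≠ [] := by
    intro h0
    exact hL (List.map_eq_nil_iff.1 h0)
  have hall' : ∀ t ∈ (L.map fun t => ((mv α α' δ * iv (mu α α' δ)) ^ t.1, dq p t.2.1 t.2.2)),
      nu t.1 ≤ d ∧ nq t.2 ≤ R ∧ fs (cc (ee α α' δ) t.2) ≠ 0 ∧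
      nu (iv (cc (ee α α' δ) t.2)) ≤ R := by
    intro t ht
    obtain ⟨s, hs, rfl⟩ := List.mem_map.1 ht
    obtain ⟨hsT, hsm⟩ := hall s hs
    exact ⟨hsm, hnq s.2 hsT, (lg_cc hD hδ h s.2 (hz s.2 hsT)).1, hiv s.2 hsT⟩
  obtain ⟨η, hη, htr⟩ := tr_main he hR hd hd8 hqe hqe' _ hL'0 hall'
  obtain ⟨hone, hlgone⟩ := lg_one_add (lt_of_le_of_lt hη hd9)
  have hQ := QQ_eq (α' := α') hδ h hfsmu0 L
  rw [List.map_map] at htr
  have hQre : 2 * (QQ p α α' L).re = mu α α' δ ^ (L.map Prod.fst).sum *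
      ((L.map fun t => cc (ee α α' δ) (dq p t.2.1 t.2.2)).prod * (1 + η)) := by
    have h1 : (QQ p α α' L).re = mu α α' δ ^ (L.map Prod.fst).sum *
        (Pr (ee α α' δ) (L.map fun t =>
          ((mv α α' δ * iv (mu α α' δ)) ^ t.1, dq p t.2.1 t.2.2))).re := by
      rw [hQ, Quaternion.re_smul, smul_eq_mul]
    rw [h1, mul_left_comm, htr]
    rfl
  have hprod := lg_prod (L.map fun t => cc (ee α α' δ) (dq p t.2.1 t.2.2)) (by
    intro x hx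
    obtain ⟨s, hs, rfl⟩ := List.mem_map.1 hx
    exact (lg_cc hD hδ h s.2 (hz s.2 (hall s hs).1)).1)
  have hmuN : fs (mu α α' δ ^ (L.map Prod.fst).sum) ≠ 0 := by
    rw [fs_pow]
    exact pow_ne_zero _ hfsmu0
  have hmap : (L.map fun t => cc (ee α α' δ) (dq p t.2.1 t.2.2)).map lg =
      (L.map fun t => xy α α' t.2).map (ev δ⁻¹) := by
    rw [List.map_map, List.map_map]
    apply List.map_congr_left
    intro s hs
    exact (lg_cc hD hδ h s.2 (hz s.2 (hall s hs).1)).2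
  have hlgQ : lg (2 * (QQ p α α' L).re) = (((L.map Prod.fst).sum : ℕ) : ℚ_[p]) *
      ((α'.re : ℚ_[p]) * δ⁻¹) + (((L.map fun t => xy α α' t.2).map (ev δ⁻¹)).sum + lg (1 + η)) := by
    rw [hQre, lg_mul hmuN (by rw [fs_mul]; exact mul_ne_zero hprod.1 hone), lg_pow hfsmu0, hlgmu,
      lg_mul hprod.1 hone, hprod.2, hmap]
  have hlg0 : lg (2 * (QQ p α α' L).re) = 0 := by
    unfold lg
    rw [sn_mul, hsn, sn_two, mul_zero, zero_mul, add_zero, zero_div]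
  have hkey : (((L.map Prod.fst).sum : ℕ) : ℚ_[p]) * ((α'.re : ℚ_[p]) * δ⁻¹) +
      ((L.map fun t => xy α α' t.2).map (ev δ⁻¹)).sum = -lg (1 + η) := by
    rw [hlg0, ← add_assoc] at hlgQ
    exact eq_neg_of_add_eq_zero_left hlgQ.symm
  rw [hkey, norm_neg]
  exact hlgone.trans hη


theorem core_pos {α α' : ℍ[ℚ]} (hα' : α'.re ≠ 0) (hD : 0 < DD α)
    (ho : α.re * α'.re + UU α α' = 0) {δ : ℚ_[p]} (h : δ ^ 2 = -(DD α : ℚ_[p]))
    (hlt : ‖(α.re : ℚ_[p]) - δ‖ < ‖(α.re : ℚ_[p]) + δ‖) (T : Set (ℍ[ℚ] × ℍ[ℚ])) (hT : T.Finite)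
    (hz : ∀ z ∈ T, cA z ≠ 0 ∨ cB α z ≠ 0) :
    ∃ C : ℝ, 1 ≤ C ∧ ∀ L : List (ℕ × (ℍ[ℚ] × ℍ[ℚ])), L ≠ [] →
      (∀ t ∈ L, t.2 ∈ T ∧ C * (1 + Real.log ((L.map Prod.fst).sum : ℕ)) ≤ t.1) →
      sn (QQ p α α' L).re ≠ 0 := by
  have hDp : (DD α : ℚ_[p]) ≠ 0 := by exact_mod_cast hD.ne'
  have hδ : δ ≠ 0 := by
    rintro rfl
    apply hDp
    have h1 : (0 : ℚ_[p]) ^ 2 = 0 := by norm_num
    rw [h1] at h
    exact neg_eq_zero.1 h.symm
  have hadd : 0 < ‖(α.re : ℚ_[p]) + δ‖ := lt_of_le_of_lt (norm_nonneg _) hlt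
  have hadd0 : (α.re : ℚ_[p]) + δ ≠ 0 := norm_pos_iff.1 hadd
  have hsub0 : (α.re : ℚ_[p]) - δ ≠ 0 := by
    intro h0
    have h1 : (α.re : ℚ_[p]) = δ := sub_eq_zero.1 h0
    rw [← h1] at h
    have h2 : (α.re : ℚ) ^ 2 = -DD α := by exact_mod_cast h
    have h3 := sq_nonneg α.re
    linarith
  obtain ⟨hfsmu, hlgmu⟩ := lg_mu (α' := α') hδ ho hadd0
  have hfsρ : fs (mv α α' δ * iv (mu α α' δ)) =
      ((α.re : ℚ_[p]) - δ) * ((α.re : ℚ_[p]) + δ)⁻¹ := by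
    rw [fs_mul, iv, fs_md, hfsmu]
    unfold mv
    rw [fs_sub, fs_md, fs_dl]
  have hfsρ0 : fs (mv α α' δ * iv (mu α α' δ)) ≠ 0 := by
    rw [hfsρ]
    exact mul_ne_zero hsub0 (inv_ne_zero hadd0)
  obtain ⟨r0, hr0⟩ : ∃ r0, r0 = ‖fs (mv α α' δ * iv (mu α α' δ))‖ := ⟨_, rfl⟩
  have hr0pos : 0 < r0 := by
    rw [hr0]
    exact norm_pos_iff.2 hfsρ0
  have hr0lt : r0 < 1 := by
    rw [hr0, hfsρ, norm_mul, norm_inv, ← div_eq_mul_inv, div_lt_one hadd]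
    exact hlt
  obtain ⟨lam, hlam⟩ : ∃ lam, lam = -Real.log r0 := ⟨_, rfl⟩
  have hlampos : 0 < lam := by
    rw [hlam]
    have := Real.log_neg hr0pos hr0lt
    linarith
  -- bounds
  obtain ⟨R1, hR11, hR1⟩ := exists_bound T hT (fun z => nq (dq p z.1 z.2))
  obtain ⟨R2, hR21, hR2⟩ := exists_bound T hT
    (fun z => nu (iv (cc (ee α α' δ) (dq p z.1 z.2))))
  obtain ⟨R3, hR3⟩ : ∃ R3, R3 = max 1 ‖lg (mv α α' δ * iv (mu α α' δ))‖ := ⟨_, rfl⟩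
  have hnqe := nq_nonneg (ee (p := p) α α' δ)
  have hnqe' := nq_nonneg (star (ee (p := p) α α' δ))
  have hR31 : 1 ≤ R3 := by
    rw [hR3]
    exact le_max_left _ _
  obtain ⟨R, hR⟩ : ∃ R, R = R1 + R2 + R3 + nq (ee (p := p) α α' δ) +
    nq (star (ee (p := p) α α' δ)) := ⟨_, rfl⟩
  have hR1' : 1 ≤ R := by linarith
  have hR0 : 0 < R := by linarith
  -- Liouville
  have hE : 0 < (DD α)⁻¹ := inv_pos.2 hD
  have hϖ : δ⁻¹ ^ 2 = -(((DD α)⁻¹ : ℚ) : ℚ_[p]) := by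
    rw [inv_pow, h, Rat.cast_inv, neg_inv]
  obtain ⟨C1, C2, hC1, hC2, hliou⟩ := liou δ⁻¹ (DD α)⁻¹ hE hϖ α'.re hα' (xy α α' '' T)
    (hT.image _)
  obtain ⟨C, hC⟩ : ∃ C, C = max C1 (max 1 ((2 + C2 * R ^ 11 + R ^ 11) / lam)) := ⟨_, rfl⟩
  have hCC1 : C1 ≤ C := by
    rw [hC]
    exact le_max_left _ _
  have hC11 : 1 ≤ C := by
    rw [hC]
    exact (le_max_left _ _).trans (le_max_right _ _)
  have hCW : 2 + C2 * R ^ 11 + R ^ 11 ≤ lam * C := by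
    have h1 : (2 + C2 * R ^ 11 + R ^ 11) / lam ≤ C := by
      rw [hC]
      exact (le_max_right _ _).trans (le_max_right _ _)
    rw [div_le_iff₀ hlampos] at h1
    rw [mul_comm lam C]
    exact h1
  refine ⟨C, hC11, ?_⟩
  intro L hL hall
  obtain ⟨N, hN⟩ : ∃ N, N = (L.map Prod.fst).sum := ⟨_, rfl⟩
  rw [← hN] at hall
  have hlogN : 0 ≤ Real.log (N : ℝ) := Real.log_natCast_nonneg N
  have hCm : C ≤ C * (1 + Real.log (N : ℝ)) := by
    have : 0 ≤ C * Real.log (N : ℝ) := mul_nonneg (by linarith) hlogN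
    linarith
  have hlen1 : C * L.length ≤ N := by
    rw [hN]
    exact sum_ge_len L C fun t ht => hCm.trans (hall t ht).2
  have hlenpos : 1 ≤ L.length := List.length_pos_iff.2 hL
  have hlenposR : (1 : ℝ) ≤ L.length := by exact_mod_cast hlenpos
  have hlen2 : L.length ≤ N := by
    have h1 : (1 : ℝ) * L.length ≤ C * L.length :=
      mul_le_mul_of_nonneg_right hC11 (by linarith)
    have h2 : (L.length : ℝ) ≤ N := by linarith
    exact_mod_cast h2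
  have hN1 : 1 ≤ N := hlenpos.trans hlen2
  have hNR : (1 : ℝ) ≤ N := by exact_mod_cast hN1
  have hC1len : C1 * L.length ≤ N := by
    have h1 : C1 * L.length ≤ C * L.length := mul_le_mul_of_nonneg_right hCC1 (by linarith)
    linarith
  obtain ⟨hr1, hr2, hr3⟩ := real_part lam C C2 R N hC2 hR1' hNR hCW
  obtain ⟨d, hd⟩ : ∃ d, d = R * Real.exp (-(lam * (C * (1 + Real.log (N : ℝ))))) := ⟨_, rfl⟩
  rw [← hd] at hr1 hr2 hr3
  have hd0 : 0 ≤ d := by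
    rw [hd]
    exact mul_nonneg hR0.le (Real.exp_pos _).le
  intro hsn
  have hup := padic_part hD ho hδ h hadd0 T hz R d hR1' hd0 hr3 hr2 (by linarith) (by linarith)
    (fun z hzT => by have := hR1 z hzT; linarith)
    (fun z hzT => by have := hR2 z hzT; linarith) L hL
    (by
      intro s hs
      obtain ⟨hsT, hsm⟩ := hall s hs
      refine ⟨hsT, (nu_pow hfsρ0 s.1).trans ?_⟩
      rw [hd, ← hR3, ← hr0]
      have h1 : r0 ^ s.1 ≤ Real.exp (-(lam * (C * (1 + Real.log (N : ℝ))))) := by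
        have h2 : r0 ^ s.1 = Real.exp (-(lam * s.1)) := by
          have h3 : -(lam * (s.1 : ℝ)) = Real.log r0 * s.1 := by rw [hlam]; ring
          rw [h3, Real.exp_mul, Real.exp_log hr0pos, Real.rpow_natCast]
        rw [h2]
        apply Real.exp_le_exp.2
        have : lam * (C * (1 + Real.log (N : ℝ))) ≤ lam * s.1 :=
          mul_le_mul_of_nonneg_left hsm hlampos.le
        linarith
      have h4 : R3 ≤ R := by linarith
      exact mul_le_mul h4 h1 (pow_nonneg hr0pos.le _) hR0.le) hsn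
  rw [← hN] at hup
  have hlow := hliou (L.map fun t => xy α α' t.2) N hN1 (by
      intro q hq
      obtain ⟨s, hs, rfl⟩ := List.mem_map.1 hq
      exact ⟨s.2, (hall s hs).1, rfl⟩) (by rw [List.length_map]; exact hC1len)
    (by rw [List.length_map]; exact hlen2)
  have hN2 : (0 : ℝ) < (N : ℝ) ^ 2 := pow_pos (by linarith) 2
  have hC2N : 0 < C2 * (N : ℝ) ^ 2 := mul_pos hC2 hN2
  have h0 := hlow.trans hup
  rw [div_le_iff₀ hC2N] at h0
  have h2 : d * R ^ 9 * (C2 * (N : ℝ) ^ 2) ≤ d * R ^ 9 * ((C2 + 1) * (N : ℝ) ^ 2) := by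
    apply mul_le_mul_of_nonneg_left _ (mul_nonneg hd0 (pow_nonneg hR0.le _))
    apply mul_le_mul_of_nonneg_right _ hN2.le
    linarith
  linarith

end

end LSY
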