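import Mathlib
import Pool.Agent.LSY.Pos
import Pool.Agent.LSY.Place
import Pool.Agent.LSY.Geo

/-!
# Long syllables: the signs of the exponents
-/

set_option autoImplicit false

open Quaternion

namespace LSY

noncomputable section

/-- the half-turn about an axis orthogonal to the axis of the screw motion -/
lemma exists_half (α α' : ℍ[ℚ]) (hv : vp α ≠ 0) : ∃ (g g' : ℍ[ℚ]) (c : ℚ), c ≠ 0 ∧
    g * g = c • (1 : ℍ[ℚ]) ∧ g * g' + g' * g = 0 ∧ g * α = star α * g ∧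
    g * α' + g' * α = star α * g' + star α' * g ∧ g * vp α = -(vp α * g) := by
  have hD : 0 < α.imI ^ 2 + α.imJ ^ 2 + α.imK ^ 2 := by
    have := nrm_pos hv
    simp only [vp] at this
    linarith
  obtain ⟨x, y, z, h1, h2⟩ : ∃ x y z : ℚ, x * α.imI + y * α.imJ + z * α.imK = 0 ∧
      0 < x ^ 2 + y ^ 2 + z ^ 2 := by
    by_cases h : α.imI = 0
    · exact ⟨1, 0, 0, by rw [h]; ring, by norm_num⟩
    · refine ⟨α.imJ, -α.imI, 0, by ring, ?_⟩
      have : 0 < α.imI ^ 2 := by positivity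
      have : 0 ≤ α.imJ ^ 2 := by positivity
      linarith
  obtain ⟨k, hk⟩ : ∃ k : ℚ, k * (α.imI ^ 2 + α.imJ ^ 2 + α.imK ^ 2) =
      -(x * α'.imI + y * α'.imJ + z * α'.imK) :=
    ⟨-(x * α'.imI + y * α'.imJ + z * α'.imK) / (α.imI ^ 2 + α.imJ ^ 2 + α.imK ^ 2), by
      field_simp⟩
  obtain ⟨g, g0, g1, g2, g3⟩ : ∃ g : ℍ[ℚ], g.re = 0 ∧ g.imI = x ∧ g.imJ = y ∧ g.imK = z :=
    ⟨⟨0, x, y, z⟩, rfl, rfl, rfl, rfl⟩
  obtain ⟨f, f0, f1, f2, f3⟩ : ∃ f : ℍ[ℚ], f.re = 0 ∧ f.imI = k * α.imI ∧ f.imJ = k * α.imJ ∧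
      f.imK = k * α.imK := ⟨⟨0, k * α.imI, k * α.imJ, k * α.imK⟩, rfl, rfl, rfl, rfl⟩
  refine ⟨g, f, -(x ^ 2 + y ^ 2 + z ^ 2), by linarith, ?_, ?_, ?_, ?_, ?_⟩
  · ext
    · simp [g0, g1, g2, g3]
      ring
    · simp [g0, g1, g2, g3]
      try ring
    · simp [g0, g1, g2, g3]
      try ring
    · simp [g0, g1, g2, g3]
      try ring
  · ext
    · simp [g0, g1, g2, g3, f0, f1, f2, f3]
      linear_combination (-2 * k) * h1
    · simp [g0, g1, g2, g3, f0, f1, f2, f3]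
      ring
    · simp [g0, g1, g2, g3, f0, f1, f2, f3]
      ring
    · simp [g0, g1, g2, g3, f0, f1, f2, f3]
      ring
  · ext
    · simp [g0, g1, g2, g3]
      linear_combination (-2) * h1
    · simp [g0, g1, g2, g3]
      ring
    · simp [g0, g1, g2, g3]
      ring
    · simp [g0, g1, g2, g3]
      ring
  · ext
    · simp [g0, g1, g2, g3, f0, f1, f2, f3]
      linear_combination (-2) * hk
    · simp [g0, g1, g2, g3, f0, f1, f2, f3]
      ring
    · simp [g0, g1, g2, g3, f0, f1, f2, f3]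
      ring
    · simp [g0, g1, g2, g3, f0, f1, f2, f3]
      ring
  · obtain ⟨v, v0, v1, v2, v3, hve⟩ : ∃ v : ℍ[ℚ], v.re = 0 ∧ v.imI = α.imI ∧ v.imJ = α.imJ ∧
        v.imK = α.imK ∧ v = vp α := ⟨vp α, rfl, rfl, rfl, rfl, rfl⟩
    rw [← hve]
    ext
    · simp [g0, g1, g2, g3, v0, v1, v2, v3]
      linear_combination (-2) * h1
    · simp [g0, g1, g2, g3, v0, v1, v2, v3]
      ring
    · simp [g0, g1, g2, g3, v0, v1, v2, v3]
      ring
    · simp [g0, g1, g2, g3, v0, v1, v2, v3]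
      ring

variable {p : ℕ} [Fact p.Prime]

/-- the product of pairs -/
def pm (a b : ℍ[ℚ] × ℍ[ℚ]) : ℍ[ℚ] × ℍ[ℚ] := (a.1 * b.1, a.1 * b.2 + a.2 * b.1)

/-- the dual quaternion of a pair -/
def dqq (p : ℕ) [Fact p.Prime] (a : ℍ[ℚ] × ℍ[ℚ]) : ℍ[DN p] := dq p a.1 a.2

lemma dqq_pm (a b : ℍ[ℚ] × ℍ[ℚ]) : dqq p (pm a b) = dqq p a * dqq p b := (dq_mul _ _ _ _).symm

/-- one or the half-turn -/
def zt (g : ℍ[ℚ] × ℍ[ℚ]) (b : Bool) : ℍ[ℚ] × ℍ[ℚ] := if b then (1, 0) else g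

/-- the head -/
def hd {ι : Type*} (l : List (ℤ × ι)) (b : Bool) : Bool :=
  match l with
  | [] => b
  | t :: _ => decide (0 ≤ t.1)

/-- one syllable -/
def sy {ι : Type*} (x : ℍ[DN p]) (z : ι → ℍ[DN p]) (t : ℤ × ι) : ℍ[DN p] :=
  (if 0 ≤ t.1 then x else star x) ^ t.1.natAbs * z t.2

lemma star_pow_eq {x h : ℍ[DN p]} {c : DN p} (hc : iv c * c = 1) (hh : h * h = c • (1 : ℍ[DN p]))
    (hx : h * x = star x * h) (n : ℕ) : (star x) ^ n = iv c • (h * x ^ n * h) := by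
  have h1 : h * x ^ n = (star x) ^ n * h := by
    induction n with
    | zero => rw [pow_zero, pow_zero, mul_one, one_mul]
    | succ n ih => rw [pow_succ, ← mul_assoc, ih, mul_assoc, hx, ← mul_assoc, ← pow_succ]
  rw [h1, mul_assoc, hh, mul_smul_comm, mul_one, smul_smul, hc, one_smul]

lemma alg_pos (Xn Y H R : ℍ[DN p]) (k : DN p) :
    (Xn * Y) * (k • (H * R)) = k • (Xn * (Y * H) * R) := by
  rw [mul_smul_comm]
  have h : Xn * Y * (H * R) = Xn * (Y * H) * R := by simp only [mul_assoc]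
  rw [h]

lemma alg_neg (Z Xn Y H R : ℍ[DN p]) (c k : DN p) :
    (c • (Z * Xn * Z * Y)) * (k • (H * R)) = (c * k) • (Z * (Xn * (Z * Y * H) * R)) := by
  rw [smul_mul_assoc, mul_smul_comm, smul_smul]
  have h : Z * Xn * Z * Y * (H * R) = Z * (Xn * (Z * Y * H) * R) := by simp only [mul_assoc]
  rw [h]

lemma list_sign {ι : Type*} {x : ℍ[DN p]} (σ : ι → ℍ[ℚ] × ℍ[ℚ]) (g : ℍ[ℚ] × ℍ[ℚ]) (c : ℚ)
    (hc0 : c ≠ 0) (hh : dqq p g * dqq p g = (md (c : ℚ_[p]) 0) • (1 : ℍ[DN p]))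
    (hx : dqq p g * x = star x * dqq p g) (l : List (ℤ × ι)) (η : Bool) :
    ∃ (L : List (ℕ × (ℍ[ℚ] × ℍ[ℚ]))) (k : DN p), fs k ≠ 0 ∧ sn k = 0 ∧
      L.map Prod.fst = l.map (fun t => t.1.natAbs) ∧
      (∀ t ∈ L, ∃ b b' : Bool, ∃ s ∈ l, t.1 = s.1.natAbs ∧
        t.2 = pm (pm (zt g b) (σ s.2)) (zt g b')) ∧
      (l.map (sy x (fun i => dqq p (σ i)))).prod * dqq p (zt g η) =
        k • (dqq p (zt g (hd l η)) * (L.map fun t => x ^ t.1 * dqq p t.2).prod) := by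
  have hcp : (c : ℚ_[p]) ≠ 0 := by exact_mod_cast hc0
  have hivc : iv (md (c : ℚ_[p]) 0) * md (c : ℚ_[p]) 0 = 1 := iv_mul (by rw [fs_md]; exact hcp)
  induction l with
  | nil =>
    refine ⟨[], 1, ?_, sn_one, rfl, ?_, ?_⟩
    · rw [fs_one]
      exact one_ne_zero
    · intro t ht
      exact absurd ht List.not_mem_nil
    · simp [hd]
  | cons s l ih =>
    obtain ⟨L, k, hk1, hk2, hmap, hall, hprod⟩ := ih
    have hP : ((s :: l).map (sy x (fun i => dqq p (σ i)))).prod * dqq p (zt g η) =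
        sy x (fun i => dqq p (σ i)) s *
          (k • (dqq p (zt g (hd l η)) * (L.map fun t => x ^ t.1 * dqq p t.2).prod)) := by
      rw [List.map_cons, List.prod_cons, mul_assoc, hprod]
    by_cases hs : 0 ≤ s.1
    · refine ⟨(s.1.natAbs, pm (pm (zt g true) (σ s.2)) (zt g (hd l η))) :: L, k, hk1, hk2, ?_, ?_,
        ?_⟩
      · rw [List.map_cons, List.map_cons, hmap]
      · intro t ht
        rcases List.mem_cons.1 ht with rfl | ht
        · exact ⟨true, hd l η, s, List.mem_cons_self, rfl, rfl⟩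
        · obtain ⟨b, b', s', hs', h1, h2⟩ := hall t ht
          exact ⟨b, b', s', List.mem_cons_of_mem _ hs', h1, h2⟩
      · rw [hP]
        have h1 : hd (s :: l) η = true := by simp [hd, hs]
        have h2 : dqq p (zt g true) = 1 := by
          unfold zt dqq
          simp [dq_one]
        have h3 : sy x (fun i => dqq p (σ i)) s = x ^ s.1.natAbs * dqq p (σ s.2) := by
          unfold sy
          rw [if_pos hs]
        rw [h1, h3, List.map_cons, List.prod_cons, dqq_pm, dqq_pm, h2, one_mul, one_mul]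
        exact alg_pos _ _ _ _ _
    · refine ⟨(s.1.natAbs, pm (pm (zt g false) (σ s.2)) (zt g (hd l η))) :: L,
        iv (md (c : ℚ_[p]) 0) * k, ?_, ?_, ?_, ?_, ?_⟩
      · rw [fs_mul, iv, fs_md, fs_md]
        exact mul_ne_zero (inv_ne_zero hcp) hk1
      · rw [sn_mul, hk2, mul_zero, zero_add, iv, sn_md, sn_md, neg_zero, zero_mul, zero_mul]
      · rw [List.map_cons, List.map_cons, hmap]
      · intro t ht
        rcases List.mem_cons.1 ht with rfl | ht
        · exact ⟨false, hd l η, s, List.mem_cons_self, rfl, rfl⟩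
        · obtain ⟨b, b', s', hs', h1, h2⟩ := hall t ht
          exact ⟨b, b', s', List.mem_cons_of_mem _ hs', h1, h2⟩
      · rw [hP]
        have h1 : hd (s :: l) η = false := by simp [hd, hs]
        have h2 : zt g false = g := by simp [zt]
        have h3 : sy x (fun i => dqq p (σ i)) s =
            iv (md (c : ℚ_[p]) 0) • (dqq p g * x ^ s.1.natAbs * dqq p g * dqq p (σ s.2)) := by
          unfold sy
          rw [if_neg hs, star_pow_eq hivc hh hx, smul_mul_assoc]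
        rw [h1, h3, List.map_cons, List.prod_cons, dqq_pm, dqq_pm, h2]
        exact alg_neg _ _ _ _ _ _ _

lemma re_comm (a b : ℍ[DN p]) : (a * b).re = (b * a).re := by
  rw [Quaternion.re_mul, Quaternion.re_mul]
  ring

/-- the trace of the product of the syllables -/
lemma trace_sign {ι : Type*} {x : ℍ[DN p]} (σ : ι → ℍ[ℚ] × ℍ[ℚ]) (g : ℍ[ℚ] × ℍ[ℚ]) (c : ℚ)
    (hc0 : c ≠ 0) (hh : dqq p g * dqq p g = (md (c : ℚ_[p]) 0) • (1 : ℍ[DN p]))
    (hx : dqq p g * x = star x * dqq p g) (l : List (ℤ × ι)) (hl : l ≠ [])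
    (h0 : sn ((l.map (sy x (fun i => dqq p (σ i)))).prod).re = 0) :
    ∃ (L : List (ℕ × (ℍ[ℚ] × ℍ[ℚ]))), L ≠ [] ∧
      L.map Prod.fst = l.map (fun t => t.1.natAbs) ∧
      (∀ t ∈ L, ∃ b b' : Bool, ∃ s ∈ l, t.1 = s.1.natAbs ∧
        t.2 = pm (pm (zt g b) (σ s.2)) (zt g b')) ∧
      sn ((L.map fun t => x ^ t.1 * dqq p t.2).prod).re = 0 := by
  have hcp : (c : ℚ_[p]) ≠ 0 := by exact_mod_cast hc0
  obtain ⟨η, hη⟩ : ∃ η, ∀ b, hd l b = η := by
    cases l with
    | nil => exact absurd rfl hl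
    | cons t l => exact ⟨decide (0 ≤ t.1), fun b => rfl⟩
  obtain ⟨L, k, hk1, hk2, hmap, hall, hprod⟩ := list_sign σ g c hc0 hh hx l η
  rw [hη] at hprod
  have hsq : ∃ e : DN p, fs e ≠ 0 ∧ sn e = 0 ∧
      dqq p (zt g η) * dqq p (zt g η) = e • (1 : ℍ[DN p]) := by
    cases η with
    | true =>
      refine ⟨1, ?_, sn_one, ?_⟩
      · rw [fs_one]
        exact one_ne_zero
      · simp [zt, dqq, dq_one]
    | false => exact ⟨md c 0, by rw [fs_md]; exact hcp, sn_md _ _, by simpa [zt] using hh⟩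
  obtain ⟨e, he1, he2, he⟩ := hsq
  refine ⟨L, ?_, hmap, hall, ?_⟩
  · rintro rfl
    exact hl (List.map_eq_nil_iff.1 hmap.symm)
  · set P := (l.map (sy x (fun i => dqq p (σ i)))).prod with hP
    set Q := (L.map fun t => x ^ t.1 * dqq p t.2).prod with hQ
    set Z := dqq p (zt g η) with hZ
    have h1 : (P * Z * Z).re = e * P.re := by
      rw [mul_assoc, he, mul_smul_comm, mul_one, Quaternion.re_smul, smul_eq_mul]
    have h2 : (k • (Z * Q) * Z).re = k * (e * Q.re) := by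
      rw [smul_mul_assoc, Quaternion.re_smul, smul_eq_mul, re_comm, ← mul_assoc, he,
        smul_mul_assoc, one_mul, Quaternion.re_smul, smul_eq_mul]
    have h3 : e * P.re = k * (e * Q.re) := by
      rw [← h1, ← h2, hprod]
    have h4 := congrArg sn h3
    rw [sn_mul, he2, h0, mul_zero, zero_mul, add_zero, sn_mul, sn_mul, hk2, he2, zero_mul,
      zero_mul, add_zero, add_zero] at h4
    rcases mul_eq_zero.1 h4.symm with h5 | h5
    · exact absurd h5 hk1
    · rcases mul_eq_zero.1 h5 with h6 | h6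
      · exact absurd h6 he1
      · exact h6

end

end LSY
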