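import Mathlib
import Pool.Agent.LSY.Half

/-!
# Long syllables: the theorem
-/

set_option autoImplicit false

open Quaternion

namespace LSY

noncomputable section

variable {p : ℕ} [Fact p.Prime]

/-- `X` is the dual quaternion of `g` -/
def RepD (p : ℕ) [Fact p.Prime] (g : Equiv.Perm (Fin 3 → ℚ)) (X : ℍ[DN p]) : Prop :=
  ∃ q : ℍ[ℚ] × ℍ[ℚ], Rep g q.1 q.2 ∧ X = dqq p q

lemma RepD.one : RepD p 1 1 := ⟨(1, 0), rep_one, dq_one.symm⟩

lemma RepD.mul {g h : Equiv.Perm (Fin 3 → ℚ)} {X Y : ℍ[DN p]} (hX : RepD p g X)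
    (hY : RepD p h Y) : RepD p (g * h) (X * Y) := by
  obtain ⟨a, ha, rfl⟩ := hX
  obtain ⟨b, hb, rfl⟩ := hY
  exact ⟨pm a b, rep_mul ha hb, (dqq_pm a b).symm⟩

lemma RepD.inv {g : Equiv.Perm (Fin 3 → ℚ)} {X : ℍ[DN p]} (hX : RepD p g X) :
    RepD p g⁻¹ (star X) := by
  obtain ⟨a, ha, rfl⟩ := hX
  exact ⟨(star a.1, star a.2), rep_inv ha, dq_star _ _⟩

lemma RepD.pow {g : Equiv.Perm (Fin 3 → ℚ)} {X : ℍ[DN p]} (hX : RepD p g X) (n : ℕ) :
    RepD p (g ^ n) (X ^ n) := by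
  induction n with
  | zero =>
    rw [pow_zero, pow_zero]
    exact RepD.one
  | succ n ih =>
    rw [pow_succ, pow_succ]
    exact ih.mul hX

lemma RepD.sn_eq {g : Equiv.Perm (Fin 3 → ℚ)} {X : ℍ[DN p]} (hX : RepD p g X)
    {x : Fin 3 → ℚ} (hx : g x = x) : sn X.re = 0 := by
  obtain ⟨a, ha, rfl⟩ := hX
  show sn (md (a.1.re : ℚ_[p]) (a.2.re : ℚ_[p])) = 0
  rw [sn_md, rep_fixed ha hx]
  norm_num

lemma zpow_eq' {G : Type*} [Group G] (a : G) (m : ℤ) :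
    a ^ m = (if 0 ≤ m then a else a⁻¹) ^ m.natAbs := by
  split_ifs with h
  · rw [← zpow_natCast, Int.natAbs_of_nonneg h]
  · push Not at h
    rw [inv_pow, ← zpow_natCast, ← zpow_neg, Int.ofNat_natAbs_of_nonpos h.le, neg_neg]

lemma RepD.zpow {a : Equiv.Perm (Fin 3 → ℚ)} {X : ℍ[DN p]} (hX : RepD p a X) (m : ℤ) :
    RepD p (a ^ m) ((if 0 ≤ m then X else star X) ^ m.natAbs) := by
  rw [zpow_eq']
  split_ifs with h
  · exact hX.pow _
  · exact hX.inv.pow _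

lemma RepD.syll {a : Equiv.Perm (Fin 3 → ℚ)} {X : ℍ[DN p]} (hX : RepD p a X)
    (z : Equiv.Perm (Fin 3 → ℚ) → ℍ[DN p]) (l : List (ℤ × Equiv.Perm (Fin 3 → ℚ)))
    (hz : ∀ t ∈ l, RepD p t.2 (z t.2)) :
    RepD p (l.map fun t => a ^ t.1 * t.2).prod (l.map (sy X z)).prod := by
  induction l with
  | nil => exact RepD.one
  | cons t l ih =>
    rw [List.map_cons, List.prod_cons, List.map_cons, List.prod_cons]
    refine RepD.mul ?_ (ih fun s hs => hz s (List.mem_cons_of_mem _ hs))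
    exact (hX.zpow t.1).mul (hz t List.mem_cons_self)

/-- a quaternion orthogonal to `1` and to the vector part of `α` -/
lemma anti_of {α τ : ℍ[ℚ]} (h1 : τ.re = 0)
    (h2 : α.imI * τ.imI + α.imJ * τ.imJ + α.imK * τ.imK = 0) :
    τ * vp α = -(vp α * τ) := by
  obtain ⟨v, v0, v1, v2, v3, hve⟩ : ∃ v : ℍ[ℚ], v.re = 0 ∧ v.imI = α.imI ∧ v.imJ = α.imJ ∧
      v.imK = α.imK ∧ v = vp α := ⟨vp α, rfl, rfl, rfl, rfl, rfl⟩
  rw [← hve]
  ext
  · simp [h1, v0, v1, v2, v3]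
    linear_combination (-2) * h2
  · simp [h1, v0, v1, v2, v3]
    ring
  · simp [h1, v0, v1, v2, v3]
    ring
  · simp [h1, v0, v1, v2, v3]
    ring

lemma zt_anti {α g g' : ℍ[ℚ]} (h : g * vp α = -(vp α * g)) (b : Bool) :
    ∃ ε : ℚ, (ε = 1 ∨ ε = -1) ∧ (zt (g, g') b).1 * vp α = ε • (vp α * (zt (g, g') b).1) := by
  cases b with
  | true => exact ⟨1, Or.inl rfl, by simp [zt]⟩
  | false => exact ⟨-1, Or.inr rfl, by simp [zt, h]⟩

lemma zt_ne {g g' : ℍ[ℚ]} (h : g ≠ 0) (b : Bool) : (zt (g, g') b).1 ≠ 0 := by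
  cases b with
  | true => simp [zt]
  | false => simpa [zt] using h

/-- the corner does not vanish -/
lemma corner_ne {α σ σ' g g' : ℍ[ℚ]} (hg : g * vp α = -(vp α * g)) (hg0 : g ≠ 0)
    (hσ : ¬ σ * vp α = vp α * σ ∧ ¬ σ * vp α = -(vp α * σ)) (b b' : Bool) :
    cA (pm (pm (zt (g, g') b) (σ, σ')) (zt (g, g') b')) ≠ 0 ∨
      cB α (pm (pm (zt (g, g') b) (σ, σ')) (zt (g, g') b')) ≠ 0 := by
  by_contra hcon
  push Not at hcon
  obtain ⟨h1, h2⟩ := hcon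
  have hτ : (pm (pm (zt (g, g') b) (σ, σ')) (zt (g, g') b')).1 =
      (zt (g, g') b).1 * σ * (zt (g, g') b').1 := rfl
  have h3 : (zt (g, g') b).1 * σ * (zt (g, g') b').1 * vp α =
      -(vp α * ((zt (g, g') b).1 * σ * (zt (g, g') b').1)) := by
    rw [← hτ]
    refine anti_of h1 ?_
    unfold cB at h2
    linarith
  obtain ⟨ε, hε, he⟩ := zt_anti (g' := g') hg b
  obtain ⟨ε', hε', he'⟩ := zt_anti (g' := g') hg b'
  have hne := zt_ne (g' := g') hg0 b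
  have hne' := zt_ne (g' := g') hg0 b'
  generalize (zt (g, g') b).1 = G at h3 he hne
  generalize (zt (g, g') b').1 = G' at h3 he' hne'
  have hεε : ε * ε = 1 := by rcases hε with rfl | rfl <;> norm_num
  have h4 : G * σ * G' * vp α = ε' • (G * (σ * vp α) * G') := by
    rw [mul_assoc, he', mul_smul_comm]
    simp only [mul_assoc]
  have h5 : vp α * (G * σ * G') = ε • (G * (vp α * σ) * G') := by
    have h6 : vp α * G = ε • (G * vp α) := by
      rw [he, smul_smul, hεε, one_smul]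
    calc vp α * (G * σ * G') = (vp α * G) * σ * G' := by simp only [mul_assoc]
      _ = _ := by
        rw [h6, smul_mul_assoc, smul_mul_assoc]
        simp only [mul_assoc]
  rw [h4, h5] at h3
  have h7 : G * (ε' • (σ * vp α)) * G' = G * (-(ε • (vp α * σ))) * G' := by
    rw [mul_smul_comm, smul_mul_assoc, h3, mul_neg, neg_mul, mul_smul_comm, smul_mul_assoc]
  have h8 := mul_left_cancel_q hne (mul_right_cancel_q hne' h7)
  rcases hε' with rfl | rfl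
  · rcases hε with rfl | rfl
    · rw [one_smul, one_smul] at h8
      exact hσ.2 h8
    · rw [one_smul, neg_smul, one_smul, neg_neg] at h8
      exact hσ.1 h8
  · rcases hε with rfl | rfl
    · rw [neg_smul, one_smul, one_smul, neg_inj] at h8
      exact hσ.1 h8
    · rw [neg_smul, one_smul, neg_smul, one_smul, neg_neg] at h8
      exact hσ.2 (neg_eq_iff_eq_neg.1 h8)

theorem long_syllables (F : Subgroup (Equiv.Perm (Fin 3 → ℚ))) [IsFreeGroup F]
    (a : Equiv.Perm (Fin 3 → ℚ)) (haF : a ∈ F) (haP : Proper a) (ha : ∀ x, a x ≠ x)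
    (S : Set (Equiv.Perm (Fin 3 → ℚ))) (hS : S.Finite)
    (hSF : ∀ s ∈ S, s ∈ F ∧ Proper s ∧ ¬ a * s = s * a) :
    ∃ C : ℝ, 1 ≤ C ∧ ∀ l : List (ℤ × Equiv.Perm (Fin 3 → ℚ)), l ≠ [] →
      (∀ t ∈ l, t.2 ∈ S ∧
        C * (1 + Real.log ((l.map fun t => t.1.natAbs).sum : ℕ)) ≤ t.1.natAbs) →
      ∀ x, (l.map fun t => a ^ t.1 * t.2).prod x ≠ x := by
  classical
  rcases S.eq_empty_or_nonempty with hSe | ⟨s0, hs0⟩
  · refine ⟨1, le_rfl, fun l hl hall => ?_⟩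
    exfalso
    obtain ⟨t, ht⟩ := List.exists_mem_of_ne_nil l hl
    have := (hall t ht).1
    rw [hSe] at this
    exact this
  obtain ⟨α, α', hα⟩ := rep_of_proper haP
  have hgeo := fun s (hs : s ∈ S) => geo_facts F a haF ha s (hSF s hs).1 (hSF s hs).2.1 (hSF s hs).2.2 hα
  obtain ⟨h12, hα're, -⟩ := hgeo s0 hs0
  have hv : vp α ≠ 0 := by
    intro h0
    apply h12
    have : ∀ n : ℕ, vp (α ^ n) = 0 := by
      intro n
      induction n with
      | zero => rw [pow_zero]; ext <;> simp [vp]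
      | succ n ih => rw [pow_succ]; exact vp_mul_real ih h0
    exact this 12
  have hD : 0 < DD α := by
    have := nrm_pos hv
    simp only [vp] at this
    unfold DD
    linarith
  have hint : ¬ ∃ m : ℤ, 2 * (α.re ^ 2 - DD α) / (α.re ^ 2 + DD α) = m := fun h =>
    h12 (vp12 α h)
  obtain ⟨p, hp, δ, hδ2, hlt⟩ := place α.re (DD α) hD hint
  have ho : α.re * α'.re + UU α α' = 0 := by
    have := rep_orth hα
    unfold UU
    linarith
  obtain ⟨g, g', c, hc0, hg1, hg2, hg3, hg4, hg5⟩ := exists_half α α' hv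
  have hg0 : g ≠ 0 := by
    rintro rfl
    rw [mul_zero] at hg1
    have h1 := congrArg (fun q : ℍ[ℚ] => q.re) hg1
    simp at h1
    exact hc0 h1.symm
  -- the representatives
  have hrep : ∀ s : Equiv.Perm (Fin 3 → ℚ), ∃ q : ℍ[ℚ] × ℍ[ℚ], s ∈ S → Rep s q.1 q.2 := by
    intro s
    by_cases hs : s ∈ S
    · obtain ⟨q, q', h⟩ := rep_of_proper (hSF s hs).2.1
      exact ⟨(q, q'), fun _ => h⟩
    · exact ⟨(1, 0), fun h => absurd h hs⟩
  choose σ hσ using hrep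
  let T : Set (ℍ[ℚ] × ℍ[ℚ]) := ⋃ b : Bool, ⋃ b' : Bool,
    (fun s => pm (pm (zt (g, g') b) (σ s)) (zt (g, g') b')) '' S
  have hT : T.Finite := Set.finite_iUnion fun b => Set.finite_iUnion fun b' => hS.image _
  have hmemT : ∀ (b b' : Bool), ∀ s ∈ S, pm (pm (zt (g, g') b) (σ s)) (zt (g, g') b') ∈ T :=
    fun b b' s hs => Set.mem_iUnion.2 ⟨b, Set.mem_iUnion.2 ⟨b', s, hs, rfl⟩⟩
  have hz : ∀ z ∈ T, cA z ≠ 0 ∨ cB α z ≠ 0 := by
    intro z hzT
    obtain ⟨b, h1⟩ := Set.mem_iUnion.1 hzT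
    obtain ⟨b', s, hs, rfl⟩ := Set.mem_iUnion.1 h1
    exact corner_ne hg5 hg0 ((hgeo s hs).2.2 _ _ (hσ s hs)) b b'
  obtain ⟨C, hC1, hC⟩ := core_pos hα're hD ho hδ2 hlt T hT hz
  refine ⟨C, hC1, fun l hl hall x hx => ?_⟩
  -- the dual quaternions
  have hhh : dqq p (g, g') * dqq p (g, g') = (md (c : ℚ_[p]) 0) • (1 : ℍ[DN p]) := by
    rw [← dqq_pm]
    have h1 : pm (g, g') (g, g') = (c • (1 : ℍ[ℚ]), (0 : ℍ[ℚ])) := by
      unfold pm
      rw [Prod.mk.injEq]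
      exact ⟨hg1, hg2⟩
    rw [h1]
    unfold dqq dq
    ext
    · refine dn_ext ?_ ?_
      · simp [fs_md]
      · simp [sn_md]
    · refine dn_ext ?_ ?_
      · simp [fs_md, fs_zero]
      · simp [sn_md, sn_zero]
    · refine dn_ext ?_ ?_
      · simp [fs_md, fs_zero]
      · simp [sn_md, sn_zero]
    · refine dn_ext ?_ ?_
      · simp [fs_md, fs_zero]
      · simp [sn_md, sn_zero]
  have hxx : dqq p (g, g') * dq p α α' = star (dq p α α') * dqq p (g, g') := by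
    rw [dq_star]
    unfold dqq
    rw [dq_mul, dq_mul, hg3, hg4]
  have hRD : RepD p a (dq p α α') := ⟨(α, α'), hα, rfl⟩
  have hprod := hRD.syll (fun s => dqq p (σ s)) l
    (fun t ht => ⟨σ t.2, hσ t.2 (hall t ht).1, rfl⟩)
  have hsn := hprod.sn_eq hx
  obtain ⟨L, hL0, hLmap, hLall, hLsn⟩ := trace_sign σ (g, g') c hc0 hhh hxx l hl hsn
  refine hC L hL0 ?_ hLsn
  intro t ht
  obtain ⟨b, b', s, hs, h1, h2⟩ := hLall t ht
  rw [hLmap, h1, h2]
  exact ⟨hmemT b b' s.2 (hall s hs).1, (hall s hs).2⟩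

end

end LSY
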