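import Mathlib

/-!
# Words in two generators up to conjugation
-/

set_option autoImplicit false

namespace LSY

/-- the product of the `A ^ p * B ^ q` -/
def wd {G : Type*} [Group G] (A B : G) (k : List (ℤ × ℤ)) : G :=
  (k.map fun t => A ^ t.1 * B ^ t.2).prod

/-- the sum of the absolute values of the exponents -/
def wt (k : List (ℤ × ℤ)) : ℕ := (k.map fun t => t.1.natAbs + t.2.natAbs).sum

section

variable {G : Type*} [Group G] (A B : G)

lemma wd_nil : wd A B [] = 1 := rfl

lemma wd_cons (t : ℤ × ℤ) (k : List (ℤ × ℤ)) : wd A B (t :: k) = A ^ t.1 * B ^ t.2 * wd A B k := by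
  simp [wd]

lemma wd_append (k k' : List (ℤ × ℤ)) : wd A B (k ++ k') = wd A B k * wd A B k' := by
  simp [wd]

lemma wt_cons (t : ℤ × ℤ) (k : List (ℤ × ℤ)) : wt (t :: k) = t.1.natAbs + t.2.natAbs + wt k := by
  simp [wt]

lemma wt_append (k k' : List (ℤ × ℤ)) : wt (k ++ k') = wt k + wt k' := by
  simp [wt]

lemma reduce (k : List (ℤ × ℤ)) (t : ℤ × ℤ) (ht : t ∈ k) (h0 : t.1 = 0 ∨ t.2 = 0)
    (hk : 2 ≤ k.length) : ∃ (h : G) (k' : List (ℤ × ℤ)), wd A B k = h * wd A B k' * h⁻¹ ∧
      wt k' ≤ wt k ∧ k'.length < k.length := by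
  obtain ⟨k1, k2, rfl⟩ := List.append_of_mem ht
  have hconj : wd A B (k1 ++ t :: k2) = wd A B k1 * wd A B (t :: (k2 ++ k1)) * (wd A B k1)⁻¹ := by
    rw [wd_append, wd_cons, wd_cons, wd_append]
    group
  have hwt : wt (k1 ++ t :: k2) = wt (t :: (k2 ++ k1)) := by
    rw [wt_append, wt_cons, wt_cons, wt_append]
    ring
  have hlen : (k1 ++ t :: k2).length = (k2 ++ k1).length + 1 := by
    simp only [List.length_append, List.length_cons]
    omega
  rw [hconj, hwt, hlen]
  rw [hlen] at hk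
  generalize k2 ++ k1 = m at hk
  rcases h0 with h0 | h0
  · -- the last one
    obtain ⟨m', u, rfl⟩ : ∃ m' u, m = m' ++ [u] := by
      rcases List.eq_nil_or_concat m with h | ⟨m', u, h⟩
      · rw [h] at hk
        simp at hk
      · exact ⟨m', u, by rw [h]; simp⟩
    refine ⟨wd A B k1 * (A ^ u.1 * B ^ u.2)⁻¹, (u.1, u.2 + t.2) :: m', ?_, ?_, ?_⟩
    · rw [wd_cons, wd_append, wd_cons, wd_cons, wd_nil, h0]
      simp only [zpow_add]
      group
    · rw [wt_cons, wt_cons, wt_append, wt_cons]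
      simp only [wt, List.map_nil, List.sum_nil]
      have := Int.natAbs_add_le u.2 t.2
      omega
    · simp
  · cases m with
    | nil => simp at hk
    | cons u m' =>
      refine ⟨wd A B k1, (t.1 + u.1, u.2) :: m', ?_, ?_, ?_⟩
      · rw [wd_cons, wd_cons, wd_cons, h0]
        simp only [zpow_add]
        group
      · rw [wt_cons, wt_cons, wt_cons]
        have := Int.natAbs_add_le t.1 u.1
        simp only
        omega
      · simp

end

lemma exists_wd (L : List (Bool × Bool)) : ∃ k : List (ℤ × ℤ),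
    FreeGroup.mk L = wd (FreeGroup.of true) (FreeGroup.of false) k ∧ wt k ≤ L.length := by
  induction L with
  | nil => exact ⟨[], rfl, le_rfl⟩
  | cons x L ih =>
    obtain ⟨k, h1, h2⟩ := ih
    have h3 : FreeGroup.mk (x :: L) = FreeGroup.mk [x] * FreeGroup.mk L := by
      rw [FreeGroup.mul_mk]
      rfl
    obtain ⟨c, e⟩ := x
    have h4 : ∃ ε : ℤ, ε.natAbs = 1 ∧ FreeGroup.mk [(c, e)] = FreeGroup.of c ^ ε := by
      cases e with
      | true => exact ⟨1, rfl, by rw [zpow_one]; rfl⟩
      | false =>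
        refine ⟨-1, rfl, ?_⟩
        rw [zpow_neg, zpow_one]
        rfl
    obtain ⟨ε, hε, h5⟩ := h4
    cases c with
    | true =>
      refine ⟨(ε, 0) :: k, ?_, ?_⟩
      · rw [h3, h1, h5, wd_cons]
        simp
      · rw [wt_cons, List.length_cons]
        simp only [Int.natAbs_zero]
        omega
    | false =>
      refine ⟨(0, ε) :: k, ?_, ?_⟩
      · rw [h3, h1, h5, wd_cons]
        simp
      · rw [wt_cons, List.length_cons]
        simp only [Int.natAbs_zero]
        omega

/-- Every element is conjugate to a product of alternating powers, or to a power of a generator. -/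
theorem exists_good (w : FreeGroup Bool) (hw : w ≠ 1) : ∃ (g : FreeGroup Bool) (k : List (ℤ × ℤ)),
    w = g * wd (FreeGroup.of true) (FreeGroup.of false) k * g⁻¹ ∧ wt k ≤ w.norm ∧ k ≠ [] ∧
    ((∀ t ∈ k, t.1 ≠ 0 ∧ t.2 ≠ 0) ∨ ∃ m : ℤ, m ≠ 0 ∧ (k = [(m, 0)] ∨ k = [(0, m)])) := by
  classical
  have hex : ∃ n : ℕ, ∃ (g : FreeGroup Bool) (k : List (ℤ × ℤ)),
      w = g * wd (FreeGroup.of true) (FreeGroup.of false) k * g⁻¹ ∧ wt k ≤ w.norm ∧
        k.length = n := by
    obtain ⟨k, h1, h2⟩ := exists_wd w.toWord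
    rw [FreeGroup.mk_toWord] at h1
    exact ⟨k.length, 1, k, by rw [← h1]; simp, h2, rfl⟩
  obtain ⟨g, k, h1, h2, h3⟩ := Nat.find_spec hex
  have hmin : ∀ (g' : FreeGroup Bool) (k' : List (ℤ × ℤ)),
      w = g' * wd (FreeGroup.of true) (FreeGroup.of false) k' * g'⁻¹ → wt k' ≤ w.norm →
      ¬ k'.length < k.length := by
    intro g' k' e1 e2 e3
    rw [h3] at e3
    exact Nat.find_min hex e3 ⟨g', k', e1, e2, rfl⟩
  refine ⟨g, k, h1, h2, ?_, ?_⟩
  · rintro rfl
    rw [wd_nil] at h1
    exact hw (by rw [h1]; group)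
  · by_cases hall : ∀ t ∈ k, t.1 ≠ 0 ∧ t.2 ≠ 0
    · exact Or.inl hall
    right
    push Not at hall
    obtain ⟨t, ht, ht0⟩ := hall
    have ht1 : t.1 = 0 ∨ t.2 = 0 := by
      by_cases h : t.1 = 0
      · exact Or.inl h
      · exact Or.inr (ht0 h)
    by_cases hk : 2 ≤ k.length
    · exfalso
      obtain ⟨h, k', e1, e2, e3⟩ := reduce (FreeGroup.of true) (FreeGroup.of false) k t ht ht1 hk
      refine hmin (g * h) k' ?_ (e2.trans h2) e3
      rw [h1, e1]
      group
    · have hlen : k.length = 1 := by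
        have := List.length_pos_of_mem ht
        omega
      obtain ⟨u, rfl⟩ := List.length_eq_one_iff.1 hlen
      have htu : t = u := by simpa using ht
      subst htu
      obtain ⟨m, n⟩ := t
      rcases ht1 with h | h
      · simp only at h
        subst h
        refine ⟨n, ?_, Or.inr rfl⟩
        rintro rfl
        apply hw
        rw [h1, wd_cons, wd_nil]
        simp
      · simp only at h
        subst h
        refine ⟨m, ?_, Or.inl rfl⟩
        rintro rfl
        apply hw
        rw [h1, wd_cons, wd_nil]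
        simp

end LSY
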