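import Mathlib
import Pool.Agent.LSY.Main
import Pool.Agent.LSY.Words

/-!
# Long syllables: consequences
-/

set_option autoImplicit false

namespace LSY

lemma log_le (m : ℝ) (hm : 1 ≤ m) : 1 + Real.log m ≤ 3 * Real.sqrt m := by
  have h0 : 0 < m := by linarith
  have h1 : 1 ≤ Real.sqrt m := by
    rw [Real.one_le_sqrt]
    exact hm
  have h2 : Real.log m = 2 * Real.log (Real.sqrt m) := by
    rw [Real.log_sqrt h0.le]
    ring
  have h3 : Real.log (Real.sqrt m) ≤ Real.sqrt m - 1 := Real.log_le_sub_one_of_pos (by linarith)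
  linarith

/-- `K (1 + log m) ≤ m` for large `m` -/
lemma log_small (K m : ℝ) (hK : 1 ≤ K) (hm : (3 * K) ^ 2 ≤ m) : K * (1 + Real.log m) ≤ m := by
  have h1 : 1 ≤ m := by nlinarith
  have h0 : 0 ≤ m := by linarith
  have h2 : 3 * K ≤ Real.sqrt m := Real.le_sqrt_of_sq_le hm
  have h3 := log_le m h1
  have h4 : K * (1 + Real.log m) ≤ K * (3 * Real.sqrt m) :=
    mul_le_mul_of_nonneg_left h3 (by linarith)
  have h5 : 3 * K * Real.sqrt m ≤ Real.sqrt m * Real.sqrt m :=
    mul_le_mul_of_nonneg_right h2 (Real.sqrt_nonneg _)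
  rw [Real.mul_self_sqrt h0] at h5
  linarith

lemma Proper.inv {g : Equiv.Perm (Fin 3 → ℚ)} (h : Proper g) : Proper g⁻¹ := by
  obtain ⟨A, hA, b, hg⟩ := h
  rw [Matrix.mem_specialOrthogonalGroup_iff, Matrix.mem_orthogonalGroup_iff] at hA
  obtain ⟨hA1, hA2⟩ := hA
  have hA3 : A * A.transpose = 1 := by simpa using hA1
  have hA4 : A.transpose * A = 1 := mul_eq_one_comm.1 hA3
  refine ⟨A.transpose, ?_, -(A.transpose.mulVec b), fun x => ?_⟩
  · rw [Matrix.mem_specialOrthogonalGroup_iff, Matrix.mem_orthogonalGroup_iff]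
    refine ⟨?_, by rw [Matrix.det_transpose, hA2]⟩
    simpa using hA4
  · obtain ⟨y, rfl⟩ := g.surjective x
    have h1 : g⁻¹ (g y) = y := g.symm_apply_apply y
    rw [h1, hg, Matrix.mulVec_add, Matrix.mulVec_mulVec, hA4, Matrix.one_mulVec]
    abel

/-- powers of an affine map without fixed point have no fixed point -/
lemma pow_no_fixed {a : Equiv.Perm (Fin 3 → ℚ)} (haP : Proper a) (ha : ∀ x, a x ≠ x) (m : ℕ)
    (hm : 0 < m) (x : Fin 3 → ℚ) : (a ^ m) x ≠ x := by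
  intro hx
  obtain ⟨A, -, b, hA⟩ := haP
  have hmq : (m : ℚ) ≠ 0 := by exact_mod_cast hm.ne'
  have hstep : ∀ i : ℕ, A.mulVec ((a ^ i) x) + b = (a ^ (i + 1)) x := by
    intro i
    rw [← hA, pow_succ', Equiv.Perm.mul_apply]
  have hsum : A.mulVec (∑ i ∈ Finset.range m, (a ^ i) x) + (m : ℚ) • b =
      ∑ i ∈ Finset.range m, (a ^ i) x := by
    rw [Matrix.mulVec_sum]
    have h1 : (m : ℚ) • b = ∑ i ∈ Finset.range m, b := by
      rw [Finset.sum_const, Finset.card_range, Nat.cast_smul_eq_nsmul]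
    rw [h1, ← Finset.sum_add_distrib, Finset.sum_congr rfl fun i _ => hstep i]
    have h2 := Finset.sum_range_succ' (fun i => (a ^ i) x) m
    rw [Finset.sum_range_succ, hx, pow_zero] at h2
    exact (add_right_cancel h2).symm
  apply ha ((m : ℚ)⁻¹ • ∑ i ∈ Finset.range m, (a ^ i) x)
  rw [hA, Matrix.mulVec_smul]
  have h3 : (m : ℚ) • ((m : ℚ)⁻¹ • A.mulVec (∑ i ∈ Finset.range m, (a ^ i) x) + b) =
      (m : ℚ) • ((m : ℚ)⁻¹ • ∑ i ∈ Finset.range m, (a ^ i) x) := by
    rw [smul_add, smul_inv_smul₀ hmq, smul_inv_smul₀ hmq]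
    exact hsum
  exact smul_right_injective _ hmq h3

lemma zpow_no_fixed {a : Equiv.Perm (Fin 3 → ℚ)} (haP : Proper a) (ha : ∀ x, a x ≠ x) (m : ℤ)
    (hm : m ≠ 0) (x : Fin 3 → ℚ) : (a ^ m) x ≠ x := by
  rcases Int.natAbs_eq m with h | h
  · rw [h, zpow_natCast]
    exact pow_no_fixed haP ha _ (Int.natAbs_pos.2 hm) x
  · intro hx
    rw [h, zpow_neg, zpow_natCast] at hx
    have h1 := congrArg (a ^ m.natAbs) hx
    have h2 : (a ^ m.natAbs) ((a ^ m.natAbs)⁻¹ x) = x := (a ^ m.natAbs).apply_symm_apply x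
    rw [h2] at h1
    exact pow_no_fixed haP ha _ (Int.natAbs_pos.2 hm) x h1.symm

/-- only finitely many `a ^ n * s` have a fixed point -/
theorem fin_exceptions (F : Subgroup (Equiv.Perm (Fin 3 → ℚ))) [IsFreeGroup F]
    (a : Equiv.Perm (Fin 3 → ℚ)) (haF : a ∈ F) (haP : Proper a) (ha : ∀ x, a x ≠ x)
    (s : Equiv.Perm (Fin 3 → ℚ)) (hsF : s ∈ F) (hsP : Proper s) (hs : ¬ a * s = s * a) :
    {n : ℤ | ∃ x, (a ^ n * s) x = x}.Finite := by
  obtain ⟨C, hC1, hC⟩ := long_syllables F a haF haP ha {s} (Set.finite_singleton s)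
    (fun t ht => by
      rw [Set.mem_singleton_iff] at ht
      rw [ht]
      exact ⟨hsF, hsP, hs⟩)
  obtain ⟨M, hM⟩ := exists_nat_ge ((3 * C) ^ 2)
  refine (Set.finite_Icc (-(M : ℤ)) M).subset ?_
  rintro n ⟨x, hx⟩
  by_contra hn
  have h1 : M ≤ n.natAbs := by
    rw [Set.mem_Icc] at hn
    omega
  have h2 : (3 * C) ^ 2 ≤ (n.natAbs : ℝ) := hM.trans (by exact_mod_cast h1)
  refine hC [(n, s)] (by simp) ?_ x (by simpa using hx)
  intro t ht
  rw [List.mem_singleton] at ht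
  subst ht
  refine ⟨rfl, ?_⟩
  simp only [List.map_cons, List.map_nil, List.sum_cons, List.sum_nil, add_zero]
  exact log_small C _ hC1 h2

/-- the list of syllables of a word in `a ^ N` and `s a ^ N s⁻¹` -/
lemma wd_syll {G : Type*} [Group G] (a s : G) (N : ℕ) (k : List (ℤ × ℤ)) :
    ∃ l : List (ℤ × G), wd (a ^ N) (s * a ^ N * s⁻¹) k = (l.map fun t => a ^ t.1 * t.2).prod ∧
      (l = [] → k = []) ∧ (l.map fun t => t.1.natAbs).sum = N * wt k ∧
      ∀ t ∈ l, (t.2 = s ∨ t.2 = s⁻¹) ∧ ∃ u ∈ k, t.1 = N * u.1 ∨ t.1 = N * u.2 := by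
  induction k with
  | nil => exact ⟨[], rfl, fun _ => rfl, by simp [wt], by simp⟩
  | cons u k ih =>
    obtain ⟨l, h1, -, h3, h4⟩ := ih
    refine ⟨(N * u.1, s) :: (N * u.2, s⁻¹) :: l, ?_, by simp, ?_, ?_⟩
    · rw [wd_cons, h1, List.map_cons, List.map_cons, List.prod_cons, List.prod_cons, conj_zpow,
        zpow_mul, zpow_mul, zpow_natCast]
      group
    · rw [List.map_cons, List.map_cons, List.sum_cons, List.sum_cons, h3, wt_cons]
      simp only [Int.natAbs_mul, Int.natAbs_natCast]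
      ring
    · intro t ht
      rcases List.mem_cons.1 ht with rfl | ht
      · exact ⟨Or.inl rfl, u, List.mem_cons_self, Or.inl rfl⟩
      · rcases List.mem_cons.1 ht with rfl | ht
        · exact ⟨Or.inr rfl, u, List.mem_cons_self, Or.inr rfl⟩
        · obtain ⟨h5, v, hv, h6⟩ := h4 t ht
          exact ⟨h5, v, List.mem_cons_of_mem _ hv, h6⟩

lemma map_wd {G H : Type*} [Group G] [Group H] (f : G →* H) (A B : G) (k : List (ℤ × ℤ)) :
    f (wd A B k) = wd (f A) (f B) k := by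
  induction k with
  | nil => rw [wd_nil, wd_nil, map_one]
  | cons t k ih => rw [wd_cons, wd_cons, map_mul, map_mul, map_zpow, map_zpow, ih]

/-- words of exponential length in `a ^ N` and `s a ^ N s⁻¹` -/
theorem exp_length (F : Subgroup (Equiv.Perm (Fin 3 → ℚ))) [IsFreeGroup F]
    (a : Equiv.Perm (Fin 3 → ℚ)) (haF : a ∈ F) (haP : Proper a) (ha : ∀ x, a x ≠ x)
    (s : Equiv.Perm (Fin 3 → ℚ)) (hsF : s ∈ F) (hsP : Proper s) (hs : ¬ a * s = s * a) :
    ∃ c : ℝ, 0 < c ∧ ∃ N₀ : ℕ, ∀ N ≥ N₀, ∀ w : FreeGroup Bool, w ≠ 1 →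
      (w.norm : ℝ) ≤ Real.exp (c * N) →
      ∀ x, FreeGroup.lift (fun b : Bool => if b then a ^ N else s * a ^ N * s⁻¹) w x ≠ x := by
  have hs' : ¬ a * s⁻¹ = s⁻¹ * a := by
    intro h
    apply hs
    calc a * s = s * (s⁻¹ * a) * s := by group
      _ = s * (a * s⁻¹) * s := by rw [h]
      _ = s * a := by group
  obtain ⟨C, hC1, hC⟩ := long_syllables F a haF haP ha {s, s⁻¹} (by simp)
    (fun t ht => by
      rcases ht with rfl | ht
      · exact ⟨hsF, hsP, hs⟩
      · rw [Set.mem_singleton_iff] at ht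
        rw [ht]
        exact ⟨F.inv_mem hsF, hsP.inv, hs'⟩)
  obtain ⟨M, hM⟩ := exists_nat_ge ((3 * (2 * C)) ^ 2)
  refine ⟨1 / (2 * C), by positivity, M + 1, fun N hN w hw hnorm x hx => ?_⟩
  have hN1 : 1 ≤ N := by omega
  have hNR : (1 : ℝ) ≤ N := by exact_mod_cast hN1
  have hNM : (3 * (2 * C)) ^ 2 ≤ (N : ℝ) := by
    refine hM.trans ?_
    have : M ≤ N := by omega
    exact_mod_cast this
  have hsmall := log_small (2 * C) N (by linarith) hNM
  obtain ⟨g, k, e1, e2, e3, e4⟩ := exists_good w hw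
  set f := FreeGroup.lift (fun b : Bool => if b then a ^ N else s * a ^ N * s⁻¹) with hf
  have hfA : f (FreeGroup.of true) = a ^ N := by
    rw [hf, FreeGroup.lift_apply_of]
    simp
  have hfB : f (FreeGroup.of false) = s * a ^ N * s⁻¹ := by
    rw [hf, FreeGroup.lift_apply_of]
    simp
  have hfw : f w = f g * wd (a ^ N) (s * a ^ N * s⁻¹) k * (f g)⁻¹ := by
    rw [e1, map_mul, map_mul, map_inv, map_wd, hfA, hfB]
  have hy : wd (a ^ N) (s * a ^ N * s⁻¹) k ((f g)⁻¹ x) = (f g)⁻¹ x := by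
    have h1 : wd (a ^ N) (s * a ^ N * s⁻¹) k = (f g)⁻¹ * f w * f g := by
      rw [hfw]
      group
    rw [h1, Equiv.Perm.mul_apply, Equiv.Perm.mul_apply]
    have h2 : f g ((f g)⁻¹ x) = x := (f g).apply_symm_apply x
    rw [h2, hx]
  generalize (f g)⁻¹ x = y at hy
  rcases e4 with e4 | ⟨m, hm, hk⟩
  · obtain ⟨l, h1, h2, h3, h4⟩ := wd_syll a s N k
    rw [h1] at hy
    refine hC l (fun h => e3 (h2 h)) ?_ y hy
    intro t ht
    obtain ⟨h5, u, hu, h6⟩ := h4 t ht
    refine ⟨h5, ?_⟩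
    rw [h3]
    have h7 : N ≤ t.1.natAbs := by
      rcases h6 with h6 | h6
      · rw [h6, Int.natAbs_mul, Int.natAbs_natCast]
        exact Nat.le_mul_of_pos_right _ (Int.natAbs_pos.2 (e4 u hu).1)
      · rw [h6, Int.natAbs_mul, Int.natAbs_natCast]
        exact Nat.le_mul_of_pos_right _ (Int.natAbs_pos.2 (e4 u hu).2)
    have h7' : (N : ℝ) ≤ t.1.natAbs := by exact_mod_cast h7
    refine le_trans ?_ h7'
    have hwt : 0 < wt k := by
      have h8 : u.1.natAbs + u.2.natAbs ≤ wt k := by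
        obtain ⟨k1, k2, rfl⟩ := List.append_of_mem hu
        rw [wt_append, wt_cons]
        omega
      have := Int.natAbs_pos.2 (e4 u hu).1
      omega
    have hwtR : (0 : ℝ) < wt k := by exact_mod_cast hwt
    have h9 : Real.log (wt k) ≤ 1 / (2 * C) * N := by
      rw [Real.log_le_iff_le_exp hwtR]
      refine le_trans ?_ hnorm
      exact_mod_cast e2
    push_cast
    rw [Real.log_mul (by linarith) hwtR.ne']
    have h10 : C * (1 / (2 * C) * N) = N / 2 := by
      field_simp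
    have h11 : C * Real.log (wt k) ≤ C * (1 / (2 * C) * N) :=
      mul_le_mul_of_nonneg_left h9 (by linarith)
    linarith
  · rcases hk with rfl | rfl
    · rw [wd_cons, wd_nil] at hy
      simp only [zpow_zero, mul_one] at hy
      rw [← zpow_natCast, ← zpow_mul] at hy
      exact zpow_no_fixed haP ha _ (mul_ne_zero (by exact_mod_cast (by omega : N ≠ 0)) hm) y hy
    · rw [wd_cons, wd_nil] at hy
      simp only [zpow_zero, mul_one, one_mul] at hy
      rw [conj_zpow, ← zpow_natCast, ← zpow_mul, Equiv.Perm.mul_apply, Equiv.Perm.mul_apply] at hy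
      have h1 : s⁻¹ (s ((a ^ (↑N * m)) (s⁻¹ y))) = s⁻¹ y := by rw [hy]
      have h2 : ∀ z, s⁻¹ (s z) = z := fun z => s.symm_apply_apply z
      rw [h2] at h1
      exact zpow_no_fixed haP ha _ (mul_ne_zero (by exact_mod_cast (by omega : N ≠ 0)) hm) _ h1

end LSY
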